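import Pool.Agent.N103.V.Roots
import Pool.Agent.N103.BlowA

set_option autoImplicit false
set_option linter.unusedSectionVars false
set_option linter.unusedVariables false
set_option linter.unusedSimpArgs false

/-! # The analysis of a critical exceptional curve -/

namespace Pool.Agent.N103.V

open Pool.Agent.W574.SM Pool.Agent.N103

open Polynomial

variable {κ : Type} [Fintype κ] [DecidableEq κ]

section Blow

variable {h : MP} {f : Option κ → MP} {a : ℕ} {c : κ → ℂ} {Pt : Fin 2 → ℂ}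
  {h' : MP} {g : Option κ → MP} {a0 n0 a1 n1 : ℕ}
  {H : MvPolynomial (Fin 2 ⊕ κ) ℂ}

/-- the rational solution on a critical exceptional curve -/
theorem blow_sol (hF : FF h f a ≠ 0)
    (hH : MvPolynomial.eval (Sum.elim Pt c) H ≠ 0) (ha : 1 ≤ a)
    (G : GeomD h f a c Pt h' g a0 n0 a1 n1) (hn0 : 1 ≤ n0) (hn1 : 1 ≤ n1) (mh mg : ℕ)
    (hm : 1 ≤ mh + a * mg) (h0 : MP) (g0 : Option κ → MP)
    (hh0 : MvPolynomial.aeval (chart 0) h' = MvPolynomial.X 0 ^ mh * h0)
    (hg0 : ∀ j, MvPolynomial.aeval (chart 0) (g j) = MvPolynomial.X 0 ^ mg * g0 j)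
    (hPh : res0 h0 ≠ 0) (t : Bool)
    (ht : if t then res0 (g0 none) = 0 ∧ ∃ j, res0 (g0 (some j)) ≠ 0 else res0 (g0 none) ≠ 0)
    (hE : Ev H (FF h f a) (-((n0 + n1 : ℕ) : ℂ) / ((a0 + a1 + (mh + a * mg) : ℕ) : ℂ))) :
    ∃ P0 : ℂ[X], P0 ≠ 0 ∧ (∃ lam : Option κ → ℂ, ∀ j,
        res0 (if t then g0 j else g0 none) = C (lam j) * P0) ∧
      (∃ j, res0 (if t then g0 j else g0 none) = P0) ∧
      ∃ (β : ℂ) (A : ℂ[X]), β ≠ 0 ∧ A ≠ 0 ∧
        (X ^ a1 * (res0 h0 * P0 ^ a)) * derivative A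
          + C (-((n0 + n1 : ℕ) : ℂ) / ((a0 + a1 + (mh + a * mg) : ℕ) : ℂ)) *
            derivative (X ^ a1 * (res0 h0 * P0 ^ a)) * A
          = C β * X ^ (n1 - 1) * (X ^ a1 * (res0 h0 * P0 ^ a)) := by
  classical
  set AA := a0 + a1 + (mh + a * mg) with hAA
  set n := n0 + n1 with hn
  set Ph := res0 h0 with hPhd
  set P : Option κ → ℂ[X] := fun j => res0 (g0 j) with hP
  set wh := MvPolynomial.constantCoeff G.Wh with hwh
  set wf := MvPolynomial.constantCoeff G.Wf with hwf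
  set w' := MvPolynomial.constantCoeff G.W' with hw'
  set Hh : MP := MvPolynomial.X 1 ^ G.b1 * MvPolynomial.aeval (chart 0) G.Wh * h0 with hHh
  set Gj : Option κ → MP := fun j =>
    MvPolynomial.X 1 ^ G.c1 * MvPolynomial.aeval (chart 0) G.Wf * g0 j with hGj
  set Jp : MP := MvPolynomial.X 1 ^ (n1 - 1) * MvPolynomial.aeval (chart 0) G.W' with hJp
  have eh : MvPolynomial.aeval (fun i => MvPolynomial.aeval (chart 0) (G.ξ i)) h
      = MvPolynomial.X 0 ^ (G.b0 + G.b1 + mh) * Hh := by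
    rw [chart_eh G mh 0 h0 hh0, map_zero, add_zero]
  have ef : ∀ j, MvPolynomial.aeval (fun i => MvPolynomial.aeval (chart 0) (G.ξ i)) (fc c f j)
      = MvPolynomial.X 0 ^ (G.c0 + G.c1 + mg) * Gj j := by
    intro j
    rw [chart_ef G mg 0 g0 hg0, map_zero, add_zero]
  have eJ : jac (fun i => MvPolynomial.aeval (chart 0) (G.ξ i))
      = MvPolynomial.X 0 ^ (n - 1) * Jp := by
    rw [chart_eJ G hn0 hn1 0, map_zero, add_zero]
  have rH : res0 Hh = C wh * (X ^ G.b1 * Ph) := by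
    rw [hHh, map_mul, map_mul, map_pow, res0_X1, res0_chart_const]
    ring
  have rG : ∀ j, res0 (Gj j) = C wf * (X ^ G.c1 * P j) := by
    intro j
    rw [hGj]
    simp only
    rw [map_mul, map_mul, map_pow, res0_X1, res0_chart_const]
    ring
  have rJ : res0 Jp = C w' * X ^ (n1 - 1) := by
    rw [hJp, map_mul, map_pow, res0_X1, res0_chart_const]
    ring
  -- the index `j0`
  obtain ⟨j0, hj0, hj0t⟩ : ∃ j0 : Option κ, P j0 ≠ 0 ∧
      (if t then P none = 0 ∧ ∃ j, j0 = some j else j0 = none) := by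
    rcases t with _ | _
    · exact ⟨none, by simpa using ht, by simp⟩
    · simp only [if_true] at ht
      obtain ⟨h1, j, hj⟩ := ht
      exact ⟨some j, hj, by simp only [if_true]; exact ⟨h1, j, rfl⟩⟩
  have hAc : 1 ≤ AA := by omega
  have hn1' : 1 ≤ n := by omega
  have ea0 := G.ea0
  have ea1 := G.ea1
  have hAe : AA = (G.b0 + G.b1 + mh) + a * (G.c0 + G.c1 + mg) := by
    rw [Nat.mul_add, Nat.mul_add]
    omega
  have hgne : Polynomial.aeval (RatFunc.X : RatFunc ℂ) (res0 (Gj j0)) ≠ 0 := by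
    rw [aeval_X_ratFunc, rG]
    exact am_ne (mul_ne_zero (C_ne_zero.2 G.hWf) (mul_ne_zero (pow_ne_zero _ X_ne_zero) hj0))
  obtain ⟨N, e, hN⟩ := star h f a c H hF (fun i => MvPolynomial.aeval (chart 0) (G.ξ i)) Pt
    (fun i => chart_eK G 0 i) n hn1' Jp eJ (G.b0 + G.b1 + mh) (G.c0 + G.c1 + mg) Hh Gj eh ef AA hAe
    hAc hE dR RatFunc.X (by rw [← RatFunc.algebraMap_X, dR_algebraMap, derivative_X, map_one])
    (by
      rw [aeval_X_ratFunc, rJ]
      exact am_ne (mul_ne_zero (C_ne_zero.2 G.hW') (pow_ne_zero _ X_ne_zero)))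
    (by
      rw [aeval_X_ratFunc, rH]
      exact am_ne (mul_ne_zero (C_ne_zero.2 G.hWh) (mul_ne_zero (pow_ne_zero _ X_ne_zero) hPh)))
    (fun i => Polynomial.aeval RatFunc.X (res0 (Gj i))) (fun i => rfl) j0 hgne
  -- the solution
  obtain ⟨R, hR⟩ : ∃ R : RatFunc ℂ, dR R + algebraMap ℂ (RatFunc ℂ) (-(n : ℂ) / AA) *
      (dR (Polynomial.aeval RatFunc.X (res0 Hh) * Polynomial.aeval RatFunc.X (res0 (Gj j0)) ^ a)
        / (Polynomial.aeval RatFunc.X (res0 Hh)
          * Polynomial.aeval RatFunc.X (res0 (Gj j0)) ^ a)) * R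
      = Polynomial.aeval RatFunc.X (res0 Jp) *
        MvPolynomial.constantCoeff (MvPolynomial.map (algebraMap ℂ (RatFunc ℂ)) (eta c Pt H)) := by
    rcases t with _ | _
    · simp only [Bool.false_eq_true, if_false] at hj0t
      subst hj0t
      exact partA dR _ hgne N e _ _ _ _ hN
    · simp only [if_true] at hj0t
      obtain ⟨h1, j, rfl⟩ := hj0t
      exact partC1 dR _ (by rw [aeval_X_ratFunc, rG, h1, mul_zero, mul_zero, map_zero]) j hgne N e
        _ _ _ _ hN
  have hη : MvPolynomial.constantCoeff (MvPolynomial.map (algebraMap ℂ (RatFunc ℂ)) (eta c Pt H))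
      = algebraMap ℂ (RatFunc ℂ) (MvPolynomial.eval (Sum.elim Pt c) H) := by
    rw [MvPolynomial.constantCoeff_map, cc_eta]
  set η0 := MvPolynomial.eval (Sum.elim Pt c) H with hη0
  set Q : ℂ[X] := X ^ a1 * (Ph * P j0 ^ a) with hQ
  have hQ0 : Q ≠ 0 := mul_ne_zero (pow_ne_zero _ X_ne_zero) (mul_ne_zero hPh (pow_ne_zero _ hj0))
  have hw0 : wh * wf ^ a ≠ 0 := mul_ne_zero G.hWh (pow_ne_zero _ G.hWf)
  have hR' : dR R + algebraMap ℂ (RatFunc ℂ) (-(n : ℂ) / AA) *
      (dR (algebraMap ℂ[X] (RatFunc ℂ) Q) * (algebraMap ℂ[X] (RatFunc ℂ) Q)⁻¹) * R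
        = algebraMap ℂ[X] (RatFunc ℂ) (C (w' * η0) * X ^ (n1 - 1)) := by
    have e1 : Polynomial.aeval (RatFunc.X : RatFunc ℂ) (res0 Jp) * MvPolynomial.constantCoeff
        (MvPolynomial.map (algebraMap ℂ (RatFunc ℂ)) (eta c Pt H))
        = algebraMap ℂ[X] (RatFunc ℂ) (C (w' * η0) * X ^ (n1 - 1)) := by
      rw [hη, aeval_X_ratFunc, rJ, map_mul C, map_mul, map_mul, map_mul]
      have : algebraMap ℂ (RatFunc ℂ) η0 = algebraMap ℂ[X] (RatFunc ℂ) (C η0) := rfl
      rw [this]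
      ring
    have e2 : Polynomial.aeval (RatFunc.X : RatFunc ℂ) (res0 Hh)
        * Polynomial.aeval (RatFunc.X : RatFunc ℂ) (res0 (Gj j0)) ^ a
        = algebraMap ℂ (RatFunc ℂ) (wh * wf ^ a) * algebraMap ℂ[X] (RatFunc ℂ) Q := by
      have e3 : algebraMap ℂ (RatFunc ℂ) (wh * wf ^ a)
        = algebraMap ℂ[X] (RatFunc ℂ) (C (wh * wf ^ a)) := rfl
      have hXa : (X : ℂ[X]) ^ a1 = X ^ G.b1 * (X ^ G.c1) ^ a := by
        rw [← pow_mul', ← pow_add]
        exact congrArg (fun n => (X : ℂ[X]) ^ n) ea1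
      rw [aeval_X_ratFunc, aeval_X_ratFunc, ← map_pow, ← map_mul, e3, ← map_mul, rH, rG, hQ, hXa]
      congr 1
      simp only [map_mul, map_pow]
      ring
    rw [← e1, ← hR, e2]
    congr 3
    rw [Derivation.leibniz, Derivation.map_algebraMap, smul_zero, add_zero, smul_eq_mul]
    have hwne : algebraMap ℂ (RatFunc ℂ) (wh * wf ^ a) ≠ 0 := by
      rw [Ne, map_eq_zero]; exact hw0
    have hQne := am_ne hQ0
    field_simp
  obtain ⟨A, hAne, hAeq⟩ := sol_poly Q hQ0 n AA hAc (w' * η0) (mul_ne_zero G.hW' hH) (n1 - 1) R hR'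
  refine ⟨P j0, hj0, ?_, ?_, w' * η0, A, mul_ne_zero G.hW' hH, hAne, hAeq⟩
  · -- proportionality
    rcases t with _ | _
    · simp only [Bool.false_eq_true, if_false] at hj0t ⊢
      subst hj0t
      exact ⟨fun _ => 1, fun j => by rw [map_one, one_mul]⟩
    · simp only [if_true] at hj0t ⊢
      obtain ⟨h1, j, rfl⟩ := hj0t
      have hprop : ∀ i, ∃ lam : ℂ, P i = C lam * P (some j) := by
        intro i
        rcases i with _ | i
        · exact ⟨0, by rw [h1, map_zero, zero_mul]⟩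
        · by_cases hij : i = j
          · exact ⟨1, by rw [hij, map_one, one_mul]⟩
          · have hC2 := partC2 dR _ (by rw [aeval_X_ratFunc, rG, h1, mul_zero, mul_zero, map_zero])
              j i hij hgne N e n AA a hn1' hAc ha _ _
              (by
                rw [aeval_X_ratFunc, rJ]
                exact am_ne (mul_ne_zero (C_ne_zero.2 G.hW') (pow_ne_zero _ X_ne_zero)))
              (eta c Pt H) (by rw [cc_eta]; exact hH) hN
            have e4 : Polynomial.aeval (RatFunc.X : RatFunc ℂ) (res0 (Gj (some i)))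
                / Polynomial.aeval (RatFunc.X : RatFunc ℂ) (res0 (Gj (some j)))
                = algebraMap ℂ[X] (RatFunc ℂ) (P (some i))
                  / algebraMap ℂ[X] (RatFunc ℂ) (P (some j)) := by
              have e5 : ∀ l, algebraMap ℂ[X] (RatFunc ℂ) (C wf * (X ^ G.c1 * P l))
                  = algebraMap ℂ[X] (RatFunc ℂ) (C wf * X ^ G.c1)
                    * algebraMap ℂ[X] (RatFunc ℂ) (P l) := fun l => by
                rw [← map_mul, mul_assoc]
              rw [aeval_X_ratFunc, aeval_X_ratFunc, rG, rG, e5, e5]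
              exact mul_div_mul_left _ _
                (am_ne (mul_ne_zero (C_ne_zero.2 G.hWf) (pow_ne_zero _ X_ne_zero)))
            rw [e4, dR_apply, dR_div _ _ hj0, div_eq_zero_iff] at hC2
            rcases hC2 with h2 | h2
            · exact prop_of_wronskian (P (some i)) (P (some j)) hj0
                (RatFunc.algebraMap_injective ℂ (by
                  rw [map_zero, ← h2]
                  simp only [map_sub, map_mul]))
            · exact absurd h2 (pow_ne_zero _ (am_ne hj0))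
      choose lam hlam using hprop
      exact ⟨lam, hlam⟩
  · rcases t with _ | _
    · simp only [Bool.false_eq_true, if_false] at hj0t ⊢
      subst hj0t
      exact ⟨none, rfl⟩
    · simp only [if_true]
      exact ⟨j0, rfl⟩

/-- **The analysis of a critical exceptional curve.** -/
theorem blowA (hF : FF h f a ≠ 0)
    (hH : MvPolynomial.eval (Sum.elim Pt c) H ≠ 0) (ha : 1 ≤ a)
    (G : GeomD h f a c Pt h' g a0 n0 a1 n1) (hn0 : 1 ≤ n0) (hn1 : 1 ≤ n1) (mh mg : ℕ)
    (hm : 1 ≤ mh + a * mg) (hc : ℂ → MP) (gc : ℂ → Option κ → MP) (hI : MP) (gI : Option κ → MP)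
    (hhc : ∀ z, MvPolynomial.aeval (chart z) h' = MvPolynomial.X 0 ^ mh * hc z)
    (hgc : ∀ z j, MvPolynomial.aeval (chart z) (g j) = MvPolynomial.X 0 ^ mg * gc z j)
    (hhI : MvPolynomial.aeval chartI h' = MvPolynomial.X 1 ^ mh * hI)
    (hgI : ∀ j, MvPolynomial.aeval chartI (g j) = MvPolynomial.X 1 ^ mg * gI j)
    (S : Finset ℂ) (h0S : 0 ∈ S) (t : Bool)
    (hS : ∀ z ∉ S, MvPolynomial.constantCoeff (hc z) ≠ 0 ∧ HasType (gc z) t)
    (hJ1 : (n0 - 1) * (mh + a * mg) ≤ a0 ∧ (n1 - 1) * (mh + a * mg) ≤ a1)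
    (hJ2 : 0 < a0 → (n0 - 1) * a1 < a0 * n1) (hJ2' : 0 < a1 → (n1 - 1) * a0 < a1 * n0)
    (hz0 : a0 = 0 → n0 = 1) (hz1 : a1 = 0 → n1 = 1) (s0 : ℂ) (hE : Ev H (FF h f a) s0)
    (hA : ((n0 + n1 : ℕ) : ℂ) + ((a0 + a1 + (mh + a * mg) : ℕ) : ℂ) * s0 = 0) :
    ∃ (μ : ℂ → ℕ) (μI : ℕ), (∀ z, Ord0 (fam t a (hc z) (gc z)) (μ z)) ∧
      Ord1 (fam t a hI gI) μI ∧
      (n1 : ℂ) + s0 * ((a1 + μ 0 : ℕ) : ℂ) ≠ 0 ∧ (n0 : ℂ) + s0 * ((a0 + μI : ℕ) : ℂ) ≠ 0 ∧
      (∀ z, z ≠ 0 → 1 + s0 * (μ z : ℂ) ≠ 0) ∧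
      ∃ u1 k1 u2 k2 : ℕ, u1 + u2 = a0 + a1 + (mh + a * mg) ∧ k1 + k2 = n0 + n1 ∧ 1 ≤ k1 ∧
        1 ≤ k2 ∧ (u1 = 0 → k1 = 1) ∧ (u2 = 0 → k2 = 1) ∧ (k1 : ℂ) + s0 * (u1 : ℂ) ≠ 0 ∧
        (k2 : ℂ) + s0 * (u2 : ℂ) ≠ 0 ∧
        ∀ (R : Type) [CommRing R] (Φ : ℕ → ℕ → R) (ell : R), Φ 0 1 = 1 →
          Φ (a0 + μI) n0 + Φ (a1 + μ 0) n1 +
            ∑ z ∈ S.erase 0, Φ (μ z) 1 + (ell - S.card)
          = Φ u1 k1 + Φ u2 k2 + (ell - 1) := by
  classical
  set m := mh + a * mg with hmd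
  set AA := a0 + a1 + m with hAA
  set n := n0 + n1 with hn
  have hapos : 0 < AA := by omega
  have hac : (AA : ℂ) ≠ 0 := Nat.cast_ne_zero.2 hapos.ne'
  have hs : s0 = -(n : ℂ) / AA := by
    rw [eq_div_iff hac]
    linear_combination hA
  have hhz : ∀ z, res0 (hc z) = (res0 (hc 0)).comp (X + C z) := fun z =>
    res0_chart h' (hc 0) (hc z) mh z (hhc 0) (hhc z)
  have hgz : ∀ z j, res0 (gc z j) = (res0 (gc 0 j)).comp (X + C z) := fun z j =>
    res0_chart (g j) (gc 0 j) (gc z j) mg z (hgc 0 j) (hgc z j)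
  have hcc : ∀ (z : ℂ) (x y : MP), res0 x = (res0 y).comp (X + C z) →
      (res0 y).eval z = MvPolynomial.constantCoeff x := by
    intro z x y hxy
    rw [← coeff_res0, hxy, coeff_zero_eq_eval_zero, eval_comp]
    simp
  have hPhS : ∀ z ∉ S, (res0 (hc 0)).eval z ≠ 0 := by
    intro z hz
    rw [hcc z (hc z) (hc 0) (hhz z)]
    exact (hS z hz).1
  obtain ⟨z1, hz1S⟩ := Infinite.exists_notMem_finset S
  have hPh : res0 (hc 0) ≠ 0 := by
    intro h0
    apply hPhS z1 hz1S
    rw [h0, eval_zero]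
  have ht : if t then res0 (gc 0 none) = 0 ∧ ∃ j, res0 (gc 0 (some j)) ≠ 0
      else res0 (gc 0 none) ≠ 0 := by
    rcases t with _ | _
    · simp only [Bool.false_eq_true, if_false]
      intro h0
      have h1 := (hS z1 hz1S).2
      have h2 : MvPolynomial.constantCoeff (gc z1 none) ≠ 0 := h1
      rw [← hcc z1 _ _ (hgz z1 none), h0, eval_zero] at h2
      exact h2 rfl
    · simp only [if_true]
      constructor
      · apply poly_zero_of_compl _ S
        intro z hz
        have h1 : MvPolynomial.constantCoeff (gc z none) = 0 ∧ ∃ j,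
            MvPolynomial.constantCoeff (gc z (some j)) ≠ 0 := (hS z hz).2
        rw [hcc z _ _ (hgz z none)]
        exact h1.1
      · have h1 : MvPolynomial.constantCoeff (gc z1 none) = 0 ∧ ∃ j,
            MvPolynomial.constantCoeff (gc z1 (some j)) ≠ 0 := (hS z1 hz1S).2
        obtain ⟨j, hj⟩ := h1.2
        refine ⟨j, fun h0 => hj ?_⟩
        rw [← hcc z1 _ _ (hgz z1 (some j)), h0, eval_zero]
  obtain ⟨P0, hP0, ⟨lam, hlam⟩, ⟨j1, hj1⟩, β, A, hβ, hAne, hAeq⟩ := blow_sol hF hH ha G hn0 hn1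
    mh mg hm (hc 0) (gc 0) (hhc 0) (hgc 0) hPh t ht (by rw [← hs]; exact hE)
  rw [← hs] at hAeq
  set P : ℂ[X] := res0 (hc 0) * P0 ^ a with hP
  have hPne : P ≠ 0 := mul_ne_zero hPh (pow_ne_zero _ hP0)
  have hsel : ∀ z j, res0 (if t then gc z j else gc z none)
      = (res0 (if t then gc 0 j else gc 0 none)).comp (X + C z) := by
    intro z j
    rcases t with _ | _
    · simp only [Bool.false_eq_true, if_false]; exact hgz z none
    · simp only [if_true]; exact hgz z j
  have hfam : ∀ z j, res0 (fam t a (hc z) (gc z) j) = C (lam j ^ a) * P.comp (X + C z) := by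
    intro z j
    rw [fam, map_mul, map_pow, hsel, hlam, hhz, hP, mul_comp, mul_comp, pow_comp, C_comp, mul_pow,
      map_pow]
    ring
  have hfam1 : ∀ z, res0 (fam t a (hc z) (gc z) j1) = P.comp (X + C z) := by
    intro z
    rw [fam, map_mul, map_pow, hsel, hj1, hhz, hP, mul_comp, pow_comp]
  have hPS : ∀ z ∉ S, P.eval z ≠ 0 := by
    intro z hz
    rw [hP, eval_mul, eval_pow]
    refine mul_ne_zero (hPhS z hz) (pow_ne_zero _ ?_)
    intro h0
    have h1 : ∀ j, (res0 (if t then gc 0 j else gc 0 none)).eval z = 0 := by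
      intro j
      rw [hlam, eval_mul, h0, mul_zero]
    rcases t with _ | _
    · simp only [Bool.false_eq_true, if_false] at h1
      have h2 : MvPolynomial.constantCoeff (gc z none) ≠ 0 := (hS z hz).2
      rw [← hcc z _ _ (hgz z none)] at h2
      exact h2 (h1 none)
    · simp only [if_true] at h1
      have h2 : MvPolynomial.constantCoeff (gc z none) = 0 ∧ ∃ j,
            MvPolynomial.constantCoeff (gc z (some j)) ≠ 0 := (hS z hz).2
      obtain ⟨j, hj⟩ := h2.2
      rw [← hcc z _ _ (hgz z (some j))] at hj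
      exact hj (h1 (some j))
  have hdegI := fun j => coeff_resI (fam t a h' g j) (fam t a (hc 0) (gc 0) j) (fam t a hI gI j) m
    (fam_chart t a mh mg (MvPolynomial.aeval (chart 0)) (MvPolynomial.X 0) h' (hc 0) g (gc 0)
      (hhc 0) (hgc 0) j)
    (fam_chart t a mh mg (MvPolynomial.aeval chartI) (MvPolynomial.X 1) h' hI g gI hhI hgI j)
  have hP00 : ∀ j, res0 (fam t a (hc 0) (gc 0) j) = C (lam j ^ a) * P := by
    intro j
    rw [hfam, map_zero, add_zero, comp_X]
  have hP01 : res0 (fam t a (hc 0) (gc 0) j1) = P := by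
    rw [hfam1, map_zero, add_zero, comp_X]
  have hdeg := hdegI j1
  rw [hP01] at hdeg
  have hbr := Pool.Agent.W574.MO.bracketM P hPne m a0 n0 a1 n1 hdeg.1 hm hn0 hn1 S h0S hPS (by
      intro h
      by_cases ha1 : 0 < a1
      · have h1 := hJ2' ha1
        have h2 := hJ1.2
        have h3 : (n1 - 1) * AA = (n1 - 1) * a0 + (n1 - 1) * a1 + (n1 - 1) * m := by
          rw [hAA]; ring
        have h4 : (n1 - 1) * a1 + a1 = a1 * n1 := by
          have : n1 = (n1 - 1) + 1 := by omega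
          conv_rhs => rw [this]
          ring
        have h5 : n * (a1 + P.rootMultiplicity 0)
            = a1 * n0 + a1 * n1 + n * P.rootMultiplicity 0 := by
          rw [hn]; ring
        have h6 : 0 ≤ n * P.rootMultiplicity 0 := Nat.zero_le _
        show (n1 - 1) * AA < n * (a1 + P.rootMultiplicity 0)
        omega
      · have h1 : a1 = 0 := by omega
        have h2 := hz1 h1
        rw [h2, Nat.sub_self, zero_mul]
        exact Nat.mul_pos (by omega) h) hz1 (by
      intro h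
      by_cases ha0 : 0 < a0
      · have h1 := hJ2 ha0
        have h2 := hJ1.1
        have h3 : (n0 - 1) * AA = (n0 - 1) * a0 + (n0 - 1) * a1 + (n0 - 1) * m := by
          rw [hAA]; ring
        have h4 : (n0 - 1) * a0 + a0 = a0 * n0 := by
          have : n0 = (n0 - 1) + 1 := by omega
          conv_rhs => rw [this]
          ring
        have h5 : n * (a0 + (m - P.natDegree))
            = a0 * n0 + a0 * n1 + n * (m - P.natDegree) := by
          rw [hn]; ring
        have h6 : 0 ≤ n * (m - P.natDegree) := Nat.zero_le _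
        show (n0 - 1) * AA < n * (a0 + (m - P.natDegree))
        omega
      · have h1 : a0 = 0 := by omega
        have h2 := hz0 h1
        rw [h2, Nat.sub_self, zero_mul]
        exact Nat.mul_pos (by omega) h) hz0 β hβ A hAne s0 hs hAeq
  refine ⟨fun z => P.rootMultiplicity z, m - P.natDegree, ?_, ?_, hbr.1, hbr.2.1,
    hbr.2.2.1, hbr.2.2.2⟩
  · intro z
    have h1 := ord_comp P hPne z
    constructor
    · intro j k hk
      rw [hfam, coeff_C_mul, h1.1 k hk, mul_zero]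
    · refine ⟨j1, ?_⟩
      rw [hfam1]
      exact h1.2
  · constructor
    · intro j k hk
      have h1 := (hdegI j).2.2 k (by omega)
      rw [h1, hP00, coeff_C_mul, coeff_eq_zero_of_natDegree_lt (by omega), mul_zero]
    · refine ⟨j1, ?_⟩
      rw [hdeg.2.2 _ (by omega)]
      have h3 : m - (m - P.natDegree) = P.natDegree := by
        have := hdeg.1
        omega
      rw [h3]
      exact leadingCoeff_ne_zero.2 hPne

end Blow

end Pool.Agent.N103.V
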