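import Pool.Agent.N103.V.Ev
import Pool.Agent.N103.Codim1
import Pool.Agent.N103.Geo

set_option autoImplicit false
set_option linter.unusedSectionVars false
set_option linter.unusedVariables false
set_option linter.unusedSimpArgs false

/-! # Crossings of two reduced components at `s = -1` -/

namespace Pool.Agent.N103.V

open Pool.Agent.W574.SM Pool.Agent.N103

open MvPolynomial

variable {κ : Type} [Fintype κ] [DecidableEq κ]

/-- the derivations in the coordinates of the resolution -/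
theorem res_data (L : Type) [Field L] [Algebra ℂ L] [Algebra (MvPolynomial (Fin 2 ⊕ κ) ℂ) L]
    [IsScalarTower ℂ (MvPolynomial (Fin 2 ⊕ κ) ℂ) L]
    [IsFractionRing (MvPolynomial (Fin 2 ⊕ κ) ℂ) L] (c : κ → ℂ) (ξ : Fin 2 → MP)
    (hJ0 : (rename Sum.inl (jac ξ) : MvPolynomial (Fin 2 ⊕ κ) ℂ) ≠ 0) :
    ∃ D : Fin 2 ⊕ κ → Derivation ℂ L L,
      (∀ i x, D i (algebraMap (MvPolynomial (Fin 2 ⊕ κ) ℂ) L (Xi c ξ x))
        = algebraMap (MvPolynomial (Fin 2 ⊕ κ) ℂ) L (Xi c ξ (pderiv i x))) ∧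
      ∀ i x, ∃ y, D i (algebraMap (MvPolynomial (Fin 2 ⊕ κ) ℂ) L x) *
        algebraMap (MvPolynomial (Fin 2 ⊕ κ) ℂ) L (rename Sum.inl (jac ξ))
          = algebraMap (MvPolynomial (Fin 2 ⊕ κ) ℂ) L y := by
  set al := algebraMap (MvPolynomial (Fin 2 ⊕ κ) ℂ) L with hal
  have hinj : Function.Injective al := IsFractionRing.injective _ L
  have halg : ∀ z : ℂ, algebraMap ℂ L z = al (C z) := by
    intro z
    rw [IsScalarTower.algebraMap_apply ℂ (MvPolynomial (Fin 2 ⊕ κ) ℂ) L]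
    rfl
  have hder : ∀ t : Fin 2 ⊕ κ, ∃ E : Derivation ℂ L L, ∀ x, E (al x) = al (pderiv t x) := fun t =>
    exists_locDer (B := L) (nonZeroDivisors (MvPolynomial (Fin 2 ⊕ κ) ℂ)) (pderiv t)
  choose pd hpd using hder
  set J : MvPolynomial (Fin 2 ⊕ κ) ℂ := rename Sum.inl (jac ξ) with hJd
  have halJ : al J ≠ 0 := by
    rw [Ne, map_eq_zero_iff al hinj]
    exact hJ0
  let A : Fin 2 → MvPolynomial (Fin 2 ⊕ κ) ℂ := fun i =>
    if i = 0 then rename Sum.inl (pderiv 1 (ξ 1)) else - rename Sum.inl (pderiv 1 (ξ 0))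
  let B : Fin 2 → MvPolynomial (Fin 2 ⊕ κ) ℂ := fun i =>
    if i = 0 then - rename Sum.inl (pderiv 0 (ξ 1)) else rename Sum.inl (pderiv 0 (ξ 0))
  let D : Fin 2 ⊕ κ → Derivation ℂ L L :=
    Sum.elim (fun i => (al J)⁻¹ • (al (A i) • pd (Sum.inl 0) + al (B i) • pd (Sum.inl 1)))
      (fun j => pd (Sum.inr j))
  have hDx : ∀ (i : Fin 2) (x : L), D (Sum.inl i) x
      = (al J)⁻¹ * (al (A i) * pd (Sum.inl 0) x + al (B i) * pd (Sum.inl 1) x) := fun i x => rfl
  have hDy : ∀ (j : κ) (x : L), D (Sum.inr j) x = pd (Sum.inr j) x := fun j x => rfl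
  have hinl : Function.Injective (Sum.inl : Fin 2 → Fin 2 ⊕ κ) := Sum.inl_injective
  have hJe : J = rename Sum.inl (pderiv 0 (ξ 0)) * rename Sum.inl (pderiv 1 (ξ 1))
      - rename Sum.inl (pderiv 0 (ξ 1)) * rename Sum.inl (pderiv 1 (ξ 0)) := by
    rw [hJd, jac, Matrix.det_fin_two]
    simp only [Matrix.of_apply, map_sub, map_mul]
  have hpx : ∀ (s i : Fin 2), pd (Sum.inl s) (al (rename Sum.inl (ξ i)))
      = al (rename Sum.inl (pderiv s (ξ i))) := by
    intro s i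
    rw [hpd, pderiv_rename hinl]
  refine ⟨D, ?_, ?_⟩
  · intro i x
    induction x using MvPolynomial.induction_on with
    | C a =>
      have h1 : al (Xi c ξ (C a)) = algebraMap ℂ L a := by
        rw [halg]
        congr 1
        exact (Xi c ξ).commutes a
      rw [h1, Derivation.map_algebraMap, pderiv_C, map_zero, map_zero]
    | add p q hp hq => rw [map_add, map_add, map_add, hp, hq, map_add, map_add, map_add]
    | mul_X x k hx =>
      have h : D i (al (Xi c ξ (X k))) = al (Xi c ξ (pderiv i (X k))) := by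
        rcases i with i | j <;> rcases k with k | l
        · rw [Xi_x, hDx, hpx, hpx, pderiv_X]
          have hi : i = 0 ∨ i = 1 := by omega
          have hk' : k = 0 ∨ k = 1 := by omega
          rcases hi with rfl | rfl <;> rcases hk' with rfl | rfl
          · rw [Pi.single_eq_same, map_one, map_one, inv_mul_eq_iff_eq_mul₀ halJ, mul_one, hJe]
            simp only [A, B, if_true, map_sub, map_mul, map_neg]
            ring
          · rw [Pi.single_eq_of_ne (by simp), map_zero, map_zero, inv_mul_eq_iff_eq_mul₀ halJ,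
              mul_zero]
            simp only [A, B, if_true, map_sub, map_mul, map_neg]
            ring
          · rw [Pi.single_eq_of_ne (by simp), map_zero, map_zero, inv_mul_eq_iff_eq_mul₀ halJ,
              mul_zero]
            simp only [A, B, if_neg one_ne_zero, map_sub, map_mul, map_neg]
            ring
          · rw [Pi.single_eq_same, map_one, map_one, inv_mul_eq_iff_eq_mul₀ halJ, mul_one, hJe]
            simp only [A, B, if_neg one_ne_zero, map_sub, map_mul, map_neg]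
            ring
        · rw [Xi_y, hDx, hpd, hpd, map_add (pderiv (Sum.inl 0)), pderiv_C,
            pderiv_X_of_ne (by simp), map_add (pderiv (Sum.inl 1)), pderiv_C,
            pderiv_X_of_ne (by simp), pderiv_X_of_ne (by simp)]
          simp
        · rw [Xi_x, hDy, hpd, pderiv_inr_rename, pderiv_X_of_ne (by simp), map_zero, map_zero,
            map_zero]
        · rw [Xi_y, hDy, hpd, map_add, pderiv_C, add_zero, pderiv_X]
          by_cases hlj : l = j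
          · rw [hlj, Pi.single_eq_same, map_one, map_one, map_one]
          · rw [Pi.single_eq_of_ne (fun h' => hlj (Sum.inr_injective h')), map_zero, map_zero,
              map_zero]
      rw [map_mul, map_mul, Derivation.leibniz, hx, Derivation.leibniz, smul_eq_mul, smul_eq_mul,
        smul_eq_mul, smul_eq_mul, map_add, map_mul, map_mul, map_add, map_mul, map_mul, h]
  · intro i x
    rcases i with i | j
    · refine ⟨A i * pderiv (Sum.inl 0) x + B i * pderiv (Sum.inl 1) x, ?_⟩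
      rw [hDx, hpd, hpd, map_add, map_mul, map_mul, mul_comm, mul_inv_cancel_left₀ halJ]
    · exact ⟨pderiv (Sum.inr j) x * J, by rw [hDy, hpd, map_mul]⟩

section Loc

variable {R L : Type} [CommRing R] [Field L] [Algebra ℂ R] [Algebra ℂ L] [Algebra R L]
  [IsScalarTower ℂ R L]

/-- the fractions with denominators in `S` -/
def Lo (L : Type) [Field L] [Algebra ℂ L] [Algebra R L] [IsScalarTower ℂ R L] (S : Submonoid R) :
    Subalgebra ℂ L where
  carrier := {x | ∃ n : R, ∃ d ∈ S, x * algebraMap R L d = algebraMap R L n}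
  mul_mem' := by
    rintro x y ⟨n1, d1, h1, e1⟩ ⟨n2, d2, h2, e2⟩
    refine ⟨n1 * n2, d1 * d2, S.mul_mem h1 h2, ?_⟩
    rw [map_mul, map_mul, ← e1, ← e2]
    ring
  add_mem' := by
    rintro x y ⟨n1, d1, h1, e1⟩ ⟨n2, d2, h2, e2⟩
    refine ⟨n1 * d2 + n2 * d1, d1 * d2, S.mul_mem h1 h2, ?_⟩
    rw [map_add, map_mul, map_mul, map_mul, ← e1, ← e2]
    ring
  algebraMap_mem' := by
    intro z
    refine ⟨algebraMap ℂ R z, 1, S.one_mem, ?_⟩
    rw [map_one, mul_one, ← IsScalarTower.algebraMap_apply]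

theorem mem_Lo {S : Submonoid R} {x : L} :
    x ∈ Lo L S ↔ ∃ n : R, ∃ d ∈ S, x * algebraMap R L d = algebraMap R L n := Iff.rfl

theorem al_mem_Lo (S : Submonoid R) (n : R) : algebraMap R L n ∈ Lo L S :=
  ⟨n, 1, S.one_mem, by rw [map_one, mul_one]⟩

theorem inv_mem_Lo (S : Submonoid R) {d : R} (hd : d ∈ S) (h0 : algebraMap R L d ≠ 0) :
    (algebraMap R L d)⁻¹ ∈ Lo L S :=
  ⟨1, d, hd, by rw [map_one, inv_mul_cancel₀ h0]⟩

theorem der_mem_Lo (S : Submonoid R) (h0 : ∀ d ∈ S, algebraMap R L d ≠ 0) {J : R} (hJ : J ∈ S)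
    (D : Derivation ℂ L L)
    (hD : ∀ x : R, ∃ y : R, D (algebraMap R L x) * algebraMap R L J = algebraMap R L y) {x : L}
    (hx : x ∈ Lo L S) : D x ∈ Lo L S := by
  obtain ⟨n, d, hd, e⟩ := hx
  obtain ⟨n', hn'⟩ := hD n
  obtain ⟨d', hd'⟩ := hD d
  have e2 := congrArg D e
  rw [Derivation.leibniz, smul_eq_mul, smul_eq_mul] at e2
  refine ⟨n' * d - n * d', d * d * J, S.mul_mem (S.mul_mem hd hd) hJ, ?_⟩
  simp only [map_mul, map_sub]
  rw [← hn', ← hd', ← e]
  rw [← e] at e2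
  linear_combination (algebraMap R L d * algebraMap R L J) * e2

end Loc

/-- **Crossings.** If two reduced components of `F` meet at a point where `H` does not vanish, then
the evaluated functional equation does not hold at `-1`. -/
theorem cross_aux (L : Type) [Field L] [Algebra ℂ L] [Algebra (MvPolynomial (Fin 2 ⊕ κ) ℂ) L] [IsScalarTower ℂ (MvPolynomial (Fin 2 ⊕ κ) ℂ) L]
    [IsFractionRing (MvPolynomial (Fin 2 ⊕ κ) ℂ) L] (F H : (MvPolynomial (Fin 2 ⊕ κ) ℂ)) (c : κ → ℂ) (ξ : Fin 2 → MP)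
    (p1 p2 k : (MvPolynomial (Fin 2 ⊕ κ) ℂ)) (hp1 : Prime p1) (hp2 : Prime p2) (h12 : ¬ p1 ∣ p2)
    (h21 : ¬ p2 ∣ p1) (K : Type) [CommRing K] [IsDomain K]
    (ev : (MvPolynomial (Fin 2 ⊕ κ) ℂ) →+* K) (e1 : ev p1 = 0) (e2 : ev p2 = 0) (ek : ev k ≠ 0)
    (eJ : ev (rename Sum.inl (jac ξ)) ≠ 0) (eH : ev (Xi c ξ H) ≠ 0)
    (hFp : Xi c ξ F = p1 * p2 * k) (hE : Ev H F (-1)) : False := by
  classical
  set al := algebraMap (MvPolynomial (Fin 2 ⊕ κ) ℂ) L with hal
  have hinj : Function.Injective al := IsFractionRing.injective _ L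
  have hJ0 : (rename Sum.inl (jac ξ) : (MvPolynomial (Fin 2 ⊕ κ) ℂ)) ≠ 0 := fun h => eJ (by rw [h, map_zero])
  obtain ⟨D, hD1, hD2⟩ := res_data L c ξ hJ0
  -- the multiplicative sets
  have hS : ∀ p : (MvPolynomial (Fin 2 ⊕ κ) ℂ), Prime p → ∃ S : Submonoid (MvPolynomial (Fin 2 ⊕ κ) ℂ), (∀ d : (MvPolynomial (Fin 2 ⊕ κ) ℂ), ev d ≠ 0 → d ∈ S) ∧ p ∈ S ∧
      (∀ d ∈ S, al d ≠ 0) ∧ ∀ d ∈ S, ∃ m : ℕ, ∃ d' : (MvPolynomial (Fin 2 ⊕ κ) ℂ), ev d' ≠ 0 ∧ d = d' * p ^ m := by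
    intro p hp
    refine ⟨{ carrier := {d | ∃ m : ℕ, ∃ d' : (MvPolynomial (Fin 2 ⊕ κ) ℂ), ev d' ≠ 0 ∧ d = d' * p ^ m}
              mul_mem' := ?_
              one_mem' := ⟨0, 1, by rw [map_one]; exact one_ne_zero, by rw [pow_zero, mul_one]⟩ },
      ?_, ?_, ?_, ?_⟩
    · rintro x y ⟨m1, d1, h1, rfl⟩ ⟨m2, d2, h2, rfl⟩
      refine ⟨m1 + m2, d1 * d2, ?_, by ring⟩
      rw [map_mul]
      exact mul_ne_zero h1 h2
    · intro d hd
      exact ⟨0, d, hd, by rw [pow_zero, mul_one]⟩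
    · exact ⟨1, 1, by rw [map_one]; exact one_ne_zero, by rw [pow_one, one_mul]⟩
    · rintro d ⟨m, d', h1, rfl⟩
      rw [Ne, map_eq_zero_iff al hinj]
      refine mul_ne_zero (fun h => h1 (by rw [h, map_zero])) (pow_ne_zero _ hp.ne_zero)
    · exact fun d hd => hd
  obtain ⟨S1, hS1, hpS1, hS1n, hS1d⟩ := hS p1 hp1
  obtain ⟨S2, hS2, hpS2, hS2n, hS2d⟩ := hS p2 hp2
  set φ : (MvPolynomial (Fin 2 ⊕ κ) ℂ) →ₐ[ℂ] L := (IsScalarTower.toAlgHom ℂ (MvPolynomial (Fin 2 ⊕ κ) ℂ) L).comp (Xi c ξ) with hφ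
  have hφa : ∀ x, φ x = al (Xi c ξ x) := fun x => rfl
  have hφF : φ F = al p1 * al p2 * al k := by rw [hφa, hFp, map_mul, map_mul]
  have a1 : al p1 ≠ 0 := hS1n _ hpS1
  have a2 : al p2 ≠ 0 := hS2n _ hpS2
  have ak : al k ≠ 0 := hS1n _ (hS1 _ ek)
  have hφF0 : φ F ≠ 0 := by
    rw [hφF]
    exact mul_ne_zero (mul_ne_zero a1 a2) ak
  have hst1 : ∀ i, ∀ x ∈ Lo L S1, D i x ∈ Lo L S1 := fun i x hx =>
    der_mem_Lo S1 hS1n (hS1 _ eJ) (D i) (hD2 i) hx
  have hst2 : ∀ i, ∀ x ∈ Lo L S2, D i x ∈ Lo L S2 := fun i x hx =>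
    der_mem_Lo S2 hS2n (hS2 _ eJ) (D i) (hD2 i) hx
  let U : Submodule ℂ L :=
    { carrier := {x | ∃ y1 ∈ Lo L S1, ∃ y2 ∈ Lo L S2, x = al p1 * al p2 * (y1 + y2)}
      add_mem' := by
        rintro x y ⟨y1, h1, y2, h2, rfl⟩ ⟨z1, h3, z2, h4, rfl⟩
        exact ⟨y1 + z1, add_mem h1 h3, y2 + z2, add_mem h2 h4, by ring⟩
      zero_mem' := ⟨0, zero_mem _, 0, zero_mem _, by ring⟩
      smul_mem' := by
        rintro z x ⟨y1, h1, y2, h2, rfl⟩
        refine ⟨z • y1, (Lo L S1).smul_mem h1 z, z • y2, (Lo L S2).smul_mem h2 z, ?_⟩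
        rw [Algebra.smul_def, Algebra.smul_def, Algebra.smul_def]
        ring }
  have hmem := hE.mem φ D (φ F)⁻¹ (fun i p => hD1 i p) (mul_inv_cancel₀ hφF0) U
    (by
      rintro i x ⟨y1, h1, y2, h2, rfl⟩
      refine ⟨φ (X i) * y1, mul_mem (al_mem_Lo _ _) h1, φ (X i) * y2,
        mul_mem (al_mem_Lo _ _) h2, by ring⟩)
    (by
      rintro i x ⟨y1, h1, y2, h2, rfl⟩
      refine ⟨D i y1 - D i (al k) * (al k)⁻¹ * y1, ?_, D i y2 - D i (al k) * (al k)⁻¹ * y2, ?_, ?_⟩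
      · exact sub_mem (hst1 i _ h1) (mul_mem (mul_mem (hst1 i _ (al_mem_Lo _ _))
          (inv_mem_Lo _ (hS1 _ ek) ak)) h1)
      · exact sub_mem (hst2 i _ h2) (mul_mem (mul_mem (hst2 i _ (al_mem_Lo _ _))
          (inv_mem_Lo _ (hS2 _ ek) ak)) h2)
      · rw [nab_apply, hφF]
        simp only [Derivation.leibniz, smul_eq_mul, map_add, map_neg, map_one]
        field_simp
        ring)
    (by
      refine ⟨al k, al_mem_Lo _ _, 0, zero_mem _, ?_⟩
      rw [hφF]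
      ring)
    (Or.inr fun i => by
      have h0 : φ (pderiv i F) = D i (φ F) := (hD1 i F).symm
      rw [h0, hφF]
      refine ⟨D i (al p1) * (al p1)⁻¹ * al k + D i (al k), ?_, D i (al p2) * (al p2)⁻¹ * al k,
        ?_, ?_⟩
      · exact add_mem (mul_mem (mul_mem (hst1 i _ (al_mem_Lo _ _)) (inv_mem_Lo _ hpS1 a1))
          (al_mem_Lo _ _)) (hst1 i _ (al_mem_Lo _ _))
      · exact mul_mem (mul_mem (hst2 i _ (al_mem_Lo _ _)) (inv_mem_Lo _ hpS2 a2)) (al_mem_Lo _ _)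
      · simp only [Derivation.leibniz, smul_eq_mul]
        field_simp
        ring)
  obtain ⟨y1, ⟨n1, d1, hd1, f1⟩, y2, ⟨n2, d2, hd2, f2⟩, f3⟩ := hmem
  obtain ⟨m1, d1', g1, rfl⟩ := hS1d d1 hd1
  obtain ⟨m2, d2', g2, rfl⟩ := hS2d d2 hd2
  have f4 : Xi c ξ H * (d1' * d2' * p1 ^ m1 * p2 ^ m2)
      = n1 * p1 * d2' * p2 ^ (m2 + 1) + n2 * p2 * d1' * p1 ^ (m1 + 1) := by
    apply hinj
    rw [hφa] at f3
    simp only [map_mul, map_add, map_pow] at f1 f2 f3 ⊢
    rw [f3]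
    linear_combination (al p1 * al p2 * al d2' * al p2 ^ m2) * f1
      + (al p1 * al p2 * al d1' * al p1 ^ m1) * f2
  have f5 : p1 ^ m1 ∣ n1 * p1 * d2' := by
    have h1 : p1 ^ m1 ∣ n1 * p1 * d2' * p2 ^ (m2 + 1) := by
      have h2 : n1 * p1 * d2' * p2 ^ (m2 + 1)
          = p1 ^ m1 * (Xi c ξ H * (d1' * d2' * p2 ^ m2) - n2 * p2 * d1' * p1) := by
        linear_combination -f4
      exact ⟨_, h2⟩
    exact hp1.pow_dvd_of_dvd_mul_right m1 (fun h => h12 (hp1.dvd_of_dvd_pow h)) h1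
  have f6 : p2 ^ m2 ∣ n2 * p2 * d1' := by
    have h1 : p2 ^ m2 ∣ n2 * p2 * d1' * p1 ^ (m1 + 1) := by
      have h2 : n2 * p2 * d1' * p1 ^ (m1 + 1)
          = p2 ^ m2 * (Xi c ξ H * (d1' * d2' * p1 ^ m1) - n1 * p1 * d2' * p2) := by
        linear_combination -f4
      exact ⟨_, h2⟩
    exact hp2.pow_dvd_of_dvd_mul_right m2 (fun h => h21 (hp2.dvd_of_dvd_pow h)) h1
  obtain ⟨x1, hx1⟩ := f5
  obtain ⟨x2, hx2⟩ := f6
  have f7 : Xi c ξ H * (d1' * d2') = x1 * p2 + x2 * p1 := by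
    have h0 : p1 ^ m1 * p2 ^ m2 ≠ 0 :=
      mul_ne_zero (pow_ne_zero _ hp1.ne_zero) (pow_ne_zero _ hp2.ne_zero)
    apply mul_left_cancel₀ h0
    linear_combination f4 + p2 ^ (m2 + 1) * hx1 + p1 ^ (m1 + 1) * hx2
  have f8 := congrArg ev f7
  rw [map_mul, map_mul, map_add, map_mul, map_mul, e1, e2, mul_zero, mul_zero, add_zero] at f8
  exact mul_ne_zero eH (mul_ne_zero g1 g2) f8

/-- **The places.** -/
theorem exists_ev (q : MP) (h0 : constantCoeff q = 0) (h1 : constantCoeff (pderiv 1 q) ≠ 0)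
    (k : Option κ → MP) (hk0 : constantCoeff (k none) = 0) (j : κ)
    (hj : constantCoeff (k (some j)) ≠ 0) :
    ∃ (K : Type) (_ : CommRing K) (_ : IsDomain K) (ev : (MvPolynomial (Fin 2 ⊕ κ) ℂ) →+* K),
      ev (rename Sum.inl q) = 0 ∧ ev (lin k) = 0 ∧ ev (X (Sum.inl 0)) ≠ 0 ∧
      ∀ P, constantCoeff P ≠ 0 → ev P ≠ 0 := by
  classical
  have hq0 : q ≠ 0 := by
    rintro rfl
    rw [map_zero, map_zero] at h1
    exact h1 rfl
  obtain ⟨p, hp, hpc, q1, rfl⟩ : ∃ p, Prime p ∧ constantCoeff p = 0 ∧ p ∣ q := by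
    obtain ⟨f, hf1, hf2⟩ := UniqueFactorizationMonoid.exists_prime_factors q hq0
    obtain ⟨u, hu⟩ := hf2
    have h1 : constantCoeff f.prod = 0 := by
      have h2 := congrArg constantCoeff hu
      rw [map_mul, h0] at h2
      rcases mul_eq_zero.1 h2 with h3 | h3
      · exact h3
      · exact absurd h3 (IsUnit.map constantCoeff u.isUnit).ne_zero
    rw [map_multiset_prod, Multiset.prod_eq_zero_iff, Multiset.mem_map] at h1
    obtain ⟨p, hpf, hpc⟩ := h1
    refine ⟨p, hf1 p hpf, hpc, ?_⟩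
    rw [← hu]
    exact (Multiset.dvd_prod hpf).mul_right _
  rw [Derivation.leibniz, smul_eq_mul, smul_eq_mul, map_add, map_mul, map_mul, hpc, zero_mul,
    zero_add] at h1
  have hpt : constantCoeff (pderiv 1 p) ≠ 0 := right_ne_zero_of_mul h1
  have hX : ¬ p ∣ (X 0 : MP) := by
    intro hd
    exact not_dvd_of_cc hpc hpt (dvd_pderiv_of_dvd hp (X_ne_zero 0) hd 1
      (pderiv_X_of_ne (by decide)))
  -- the local ring
  let mm : Ideal MP := RingHom.ker (constantCoeff : MP →+* ℂ)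
  have hmm : ∀ x : MP, x ∈ mm ↔ constantCoeff x = 0 := fun x => RingHom.mem_ker
  have : mm.IsPrime := RingHom.ker_isPrime _
  let O := Localization.AtPrime mm
  let al : MP →+* O := algebraMap MP O
  have hunit : ∀ x : MP, constantCoeff x ≠ 0 → IsUnit (al x) := fun x hx =>
    IsLocalization.map_units O (⟨x, fun h => hx ((hmm x).1 h)⟩ : mm.primeCompl)
  let I0 : Ideal MP := Ideal.span {p}
  have hI0 : I0.IsPrime := (Ideal.span_singleton_prime hp.ne_zero).2 hp
  have hdis : Disjoint (mm.primeCompl : Set MP) (I0 : Set MP) := by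
    rw [Set.disjoint_left]
    intro x hx hx2
    apply hx
    show x ∈ mm
    rw [hmm]
    obtain ⟨y, rfl⟩ := Ideal.mem_span_singleton.1 hx2
    rw [map_mul, hpc, zero_mul]
  let I : Ideal O := I0.map al
  have hI : I.IsPrime := IsLocalization.isPrime_of_isPrime_disjoint mm.primeCompl O I0 hI0 hdis
  let mk : O →+* O ⧸ I := Ideal.Quotient.mk I
  let cc0 : O →+* ℂ := IsLocalization.lift (M := mm.primeCompl) (g := (constantCoeff : MP →+* ℂ))
    (fun y => isUnit_iff_ne_zero.2 fun h => y.2 ((hmm _).2 h))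
  have hcc0 : ∀ x, cc0 (al x) = constantCoeff x := fun x => IsLocalization.lift_eq _ x
  have hIk : ∀ x ∈ I, cc0 x = 0 := by
    have h2 : I ≤ RingHom.ker cc0 := by
      rw [Ideal.map_le_iff_le_comap, Ideal.span_singleton_le_iff_mem, Ideal.mem_comap,
        RingHom.mem_ker, hcc0, hpc]
    exact fun x hx => RingHom.mem_ker.1 (h2 hx)
  let cc1 : O ⧸ I →+* ℂ := Ideal.Quotient.lift I cc0 hIk
  have hcc1 : ∀ x, cc1 (mk (al x)) = constantCoeff x := fun x => hcc0 x
  obtain ⟨w, hw⟩ := (hunit _ hj).exists_right_inv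
  let ev : (MvPolynomial (Fin 2 ⊕ κ) ℂ) →+* O ⧸ I := eval₂Hom ((mk.comp al).comp C)
    (Sum.elim (fun i => mk (al (X i))) (fun l => if l = j then - mk (al (k none)) * mk w else 0))
  have ev1 : ∀ r : MP, ev (rename Sum.inl r) = mk (al r) := by
    intro r
    have h2 : ev.comp (rename Sum.inl : MP →ₐ[ℂ] (MvPolynomial (Fin 2 ⊕ κ) ℂ)).toRingHom = mk.comp al := by
      apply MvPolynomial.ringHom_ext
      · intro z
        show ev (rename Sum.inl (C z)) = mk (al (C z))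
        rw [rename_C]
        exact eval₂Hom_C _ _ z
      · intro i
        show ev (rename Sum.inl (X i)) = mk (al (X i))
        rw [rename_X]
        exact eval₂Hom_X' _ _ _
    exact congrArg (fun φ : MP →+* O ⧸ I => φ r) h2
  have evX : ∀ l : κ, ev (X (Sum.inr l)) = if l = j then - mk (al (k none)) * mk w else 0 :=
    fun l => eval₂Hom_X' _ _ _
  have hev : ∀ P : (MvPolynomial (Fin 2 ⊕ κ) ℂ), cc1 (ev P) = constantCoeff P := by
    intro P
    have h2 : cc1.comp ev = (constantCoeff : (MvPolynomial (Fin 2 ⊕ κ) ℂ) →+* ℂ) := by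
      apply MvPolynomial.ringHom_ext
      · intro z
        have h3 : ev (C z) = mk (al (C z)) := eval₂Hom_C _ _ z
        rw [RingHom.comp_apply, h3, hcc1, constantCoeff_C, constantCoeff_C]
      · intro i
        rw [RingHom.comp_apply, constantCoeff_X]
        rcases i with i | l
        · have h3 : ev (X (Sum.inl i)) = mk (al (X i)) := eval₂Hom_X' _ _ _
          rw [h3, hcc1, constantCoeff_X]
        · rw [evX]
          split_ifs with h
          · rw [map_mul, map_neg, hcc1, hk0, neg_zero, zero_mul]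
          · exact map_zero _
    exact congrArg (fun φ : (MvPolynomial (Fin 2 ⊕ κ) ℂ) →+* ℂ => φ P) h2
  refine ⟨O ⧸ I, inferInstance, Ideal.Quotient.isDomain I, ev, ?_, ?_, ?_, ?_⟩
  · rw [ev1, map_mul, map_mul]
    have h2 : mk (al p) = 0 := Ideal.Quotient.eq_zero_iff_mem.2
      (Ideal.mem_map_of_mem _ (Ideal.mem_span_singleton_self p))
    rw [h2, zero_mul]
  · rw [lin, map_add, map_sum, ev1, Finset.sum_eq_single j]
    · rw [map_mul, evX, if_pos rfl, ev1, mul_assoc, ← map_mul, mul_comm w, hw, map_one, mul_one,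
        add_neg_cancel]
    · intro l _ hl
      rw [map_mul, evX, if_neg hl, zero_mul]
    · intro h2
      exact absurd (Finset.mem_univ _) h2
  · have h2 : ev (X (Sum.inl 0)) = mk (al (X 0)) := eval₂Hom_X' _ _ _
    rw [h2]
    intro h3
    have h4 : al (X 0) ∈ I := Ideal.Quotient.eq_zero_iff_mem.1 h3
    obtain ⟨s, hs, h5⟩ := (IsLocalization.algebraMap_mem_map_algebraMap_iff mm.primeCompl O
      I0 (X 0)).1 h4
    have h6 : p ∣ s * X 0 := Ideal.mem_span_singleton.1 h5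
    rcases hp.dvd_or_dvd h6 with h7 | h7
    · exact not_dvd_of_cc hpc (fun h8 => hs ((hmm s).2 h8)) h7
    · exact hX h7
  · intro P hP h2
    apply hP
    rw [← hev, h2, map_zero]

theorem exists_pf {σ : Type} (q : MvPolynomial σ ℂ) (hq0 : q ≠ 0) (h0 : constantCoeff q = 0) :
    ∃ p, Prime p ∧ constantCoeff p = 0 ∧ p ∣ q := by
  obtain ⟨f, hf1, hf2⟩ := UniqueFactorizationMonoid.exists_prime_factors q hq0
  obtain ⟨u, hu⟩ := hf2
  have h1 : constantCoeff f.prod = 0 := by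
    have h2 := congrArg constantCoeff hu
    rw [map_mul, h0] at h2
    rcases mul_eq_zero.1 h2 with h3 | h3
    · exact h3
    · exact absurd h3 (IsUnit.map constantCoeff u.isUnit).ne_zero
  rw [map_multiset_prod, Multiset.prod_eq_zero_iff, Multiset.mem_map] at h1
  obtain ⟨p, hpf, hpc⟩ := h1
  refine ⟨p, hf1 p hpf, hpc, ?_⟩
  rw [← hu]
  exact (Multiset.dvd_prod hpf).mul_right _

theorem exists_pf2 {σ : Type} (q : MvPolynomial σ ℂ) (t : σ) (h0 : constantCoeff q = 0)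
    (ht : constantCoeff (pderiv t q) ≠ 0) :
    ∃ p q1, Prime p ∧ constantCoeff p = 0 ∧ constantCoeff (pderiv t p) ≠ 0 ∧
      constantCoeff q1 ≠ 0 ∧ q = p * q1 := by
  have hq0 : q ≠ 0 := by
    rintro rfl
    rw [map_zero, map_zero] at ht
    exact ht rfl
  obtain ⟨p, hp, hpc, q1, rfl⟩ := exists_pf q hq0 h0
  rw [Derivation.leibniz, smul_eq_mul, smul_eq_mul, map_add, map_mul, map_mul, hpc, zero_mul,
    zero_add] at ht
  exact ⟨p, q1, hp, hpc, right_ne_zero_of_mul ht, left_ne_zero_of_mul ht, rfl⟩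

section Leaf

variable {h : MP} {f : Option κ → MP} {a : ℕ} {c : κ → ℂ} {Pt : Fin 2 → ℂ}
  {h' : MP} {g : Option κ → MP} {a0 n0 : ℕ} {H : MvPolynomial (Fin 2 ⊕ κ) ℂ}

/-- A reduced curve and the reduced hypersurface `g₀ + ∑ y_j g_j = 0` do not meet. -/
theorem cross_leaf (hH : MvPolynomial.eval (Sum.elim Pt c) H ≠ 0) (ha : a = 1)
    (G : GeomD h f a c Pt h' g a0 n0 0 1) (mh mg : ℕ) (hm : mh + a * mg = 1)
    (hE : Ev H (FF h f a) (-1)) (q kh : MP)
    (k : Option κ → MP) (hh : h' = q ^ mh * kh) (hg : ∀ j, g j = q ^ mg * k j)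
    (h0 : MvPolynomial.constantCoeff q = 0)
    (h1 : MvPolynomial.constantCoeff (MvPolynomial.pderiv 1 q) ≠ 0)
    (hkh : MvPolynomial.constantCoeff kh ≠ 0) (hk0 : constantCoeff (k none) = 0) (j : κ)
    (hj : constantCoeff (k (some j)) ≠ 0) : False := by
  subst ha
  rw [one_mul] at hm
  have hinl : Function.Injective (Sum.inl : Fin 2 → Fin 2 ⊕ κ) := Sum.inl_injective
  obtain ⟨K, _, _, ev, e1, e2, e3, e4⟩ := exists_ev q h0 h1 k hk0 j hj
  obtain ⟨p1, q1, hp1, hc1, ht1, hq1, f1⟩ := exists_pf2 (rename Sum.inl q : (MvPolynomial (Fin 2 ⊕ κ) ℂ)) (Sum.inl 1)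
    (by rw [constantCoeff_rename]; exact h0)
    (by rw [pderiv_rename hinl, constantCoeff_rename]; exact h1)
  obtain ⟨p2, q2, hp2, hc2, ht2, hq2, f2⟩ := exists_pf2 (lin k : (MvPolynomial (Fin 2 ⊕ κ) ℂ)) (Sum.inr j)
    (by rw [cc_lin]; exact hk0) (by rw [pderiv_lin, constantCoeff_rename]; exact hj)
  have hq0 : (rename Sum.inl q : (MvPolynomial (Fin 2 ⊕ κ) ℂ)) ≠ 0 := by
    intro h4
    have h5 : q = 0 := rename_injective _ hinl (by rw [h4, map_zero])
    rw [h5, map_zero, map_zero] at h1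
    exact h1 rfl
  have h21 : ¬ p2 ∣ p1 := by
    intro hd
    have h3 : p2 ∣ rename Sum.inl q := by rw [f1]; exact hd.mul_right _
    exact not_dvd_of_cc hc2 ht2 (dvd_pderiv_of_dvd hp2 hq0 h3 (Sum.inr j) (pderiv_inr_rename j q))
  have h12 : ¬ p1 ∣ p2 := fun hd => h21 ((hp1.dvd_prime_iff_associated hp2).1 hd).symm.dvd
  rw [f1, map_mul] at e1
  rw [f2, map_mul] at e2
  have g1 := (mul_eq_zero.1 e1).resolve_right (e4 _ hq1)
  have g2 := (mul_eq_zero.1 e2).resolve_right (e4 _ hq2)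
  refine cross_aux (FractionRing (MvPolynomial (Fin 2 ⊕ κ) ℂ)) (FF h f 1) H c G.ξ p1 p2
    (X (Sum.inl 0) ^ a0 * rename Sum.inl (G.Wh * G.Wf * kh) * (q1 * q2)) hp1 hp2 h12 h21 K ev g1 g2
    ?_ ?_ (e4 _ ?_) ?_ hE
  · rw [map_mul, map_mul, map_pow]
    refine mul_ne_zero (mul_ne_zero (pow_ne_zero _ e3) (e4 _ ?_)) (e4 _ ?_)
    · rw [constantCoeff_rename, map_mul, map_mul]
      exact mul_ne_zero (mul_ne_zero G.hWh G.hWf) hkh
    · rw [map_mul]
      exact mul_ne_zero hq1 hq2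
  · rw [G.eJ, map_mul, map_mul, map_mul, map_mul, map_pow, map_pow, rename_X, map_pow,
      Nat.sub_self, pow_zero, map_one, mul_one]
    refine mul_ne_zero (pow_ne_zero _ e3) (e4 _ ?_)
    rw [constantCoeff_rename]
    exact G.hW'
  · rw [cc_Xi c G.ξ Pt G.eP]
    exact hH
  · have h2 : lin g = rename Sum.inl (q ^ mg) * lin k := by
      rw [← lin_mul]
      exact congrArg lin (funext hg)
    have h3 : (rename Sum.inl (G.Wh * G.Wf ^ 1 * h') : (MvPolynomial (Fin 2 ⊕ κ) ℂ))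
        = rename Sum.inl (G.Wh * G.Wf ^ 1 * (q ^ mh * kh)) := by rw [← hh]
    have h4 : (rename Sum.inl q : (MvPolynomial (Fin 2 ⊕ κ) ℂ)) ^ mh * rename Sum.inl q ^ mg = p1 * q1 := by
      rw [← pow_add, hm, pow_one, f1]
    rw [Xi_FF G, h2, h3, f2]
    simp only [map_mul, map_pow, pow_one, pow_zero, mul_one]
    linear_combination (X (Sum.inl 0) ^ a0 * rename Sum.inl G.Wh * rename Sum.inl G.Wf *
      rename Sum.inl kh * p2 * q2) * h4

end Leaf

end Pool.Agent.N103.V
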