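import Pool.Agent.N103.Eng1

set_option autoImplicit false
set_option linter.unusedSectionVars false
set_option linter.unusedVariables false

/-! # Functional equations at one complex number -/

namespace Pool.Agent.N103.V

open MvPolynomial Pool.Agent.N103

variable {σ : Type}

/-- `H F ^ s` is in the module over the Weyl algebra which is generated by `F ^ (s + 1)` and the
`(∂_i F) F ^ s`. -/
def Ev (H F : MvPolynomial σ ℂ) (s : ℂ) : Prop :=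
  ∀ (L : Type) [CommRing L] [Algebra ℂ L] (φ : MvPolynomial σ ℂ →ₐ[ℂ] L)
    (D : σ → Derivation ℂ L L) (Gi : L), (∀ i p, D i (φ p) = φ (pderiv i p)) → φ F * Gi = 1 →
    ∀ U : Submodule ℂ L, (∀ i, ∀ x ∈ U, φ (X i) * x ∈ U) →
    (∀ i, ∀ x ∈ U, nab φ D F Gi s i x ∈ U) → φ F ∈ U → (∀ i, φ (pderiv i F) ∈ U) → φ H ∈ U

theorem Ev_of_heq {H F : MvPolynomial σ ℂ} {b : Polynomial ℂ} (hF : F ≠ 0) (hb : HEq H F b)
    {s : ℂ} (hs : b.eval s ≠ 0) : Ev H F s := by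
  intro L _ _ φ D Gi hD hG U h1 h2 h3 _
  have h := mem_of_stable φ D F Gi s hD hG hF H b hb U h1 h2 h3
  have h4 := U.smul_mem (b.eval s)⁻¹ h
  rwa [← Algebra.smul_def, smul_smul, inv_mul_cancel₀ hs, one_smul] at h4

theorem extra {H F : MvPolynomial σ ℂ} {s : ℂ} (hs : s ≠ -1) {L : Type} [CommRing L] [Algebra ℂ L]
    (φ : MvPolynomial σ ℂ →ₐ[ℂ] L) (D : σ → Derivation ℂ L L) (Gi : L)
    (hD : ∀ i p, D i (φ p) = φ (pderiv i p)) (hG : φ F * Gi = 1) (U : Submodule ℂ L)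
    (h2 : ∀ i, ∀ x ∈ U, nab φ D F Gi s i x ∈ U) (h3 : φ F ∈ U) (i : σ) :
    φ (pderiv i F) ∈ U := by
  have h := h2 i _ h3
  have h4 : nab φ D F Gi s i (φ F) = (1 + s) • φ (pderiv i F) := by
    rw [nab_apply, hD, Algebra.smul_def, map_add, map_one]
    linear_combination (algebraMap ℂ L s * φ (pderiv i F)) * hG
  rw [h4] at h
  have h5 := U.smul_mem (1 + s)⁻¹ h
  have h6 : (1 + s) ≠ 0 := fun h0 => hs (by linear_combination h0)
  rwa [smul_smul, inv_mul_cancel₀ h6, one_smul] at h5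

theorem Ev.mem {H F : MvPolynomial σ ℂ} {s : ℂ} (hE : Ev H F s) {L : Type} [CommRing L]
    [Algebra ℂ L] (φ : MvPolynomial σ ℂ →ₐ[ℂ] L) (D : σ → Derivation ℂ L L) (Gi : L)
    (hD : ∀ i p, D i (φ p) = φ (pderiv i p)) (hG : φ F * Gi = 1) (U : Submodule ℂ L)
    (h1 : ∀ i, ∀ x ∈ U, φ (X i) * x ∈ U) (h2 : ∀ i, ∀ x ∈ U, nab φ D F Gi s i x ∈ U)
    (h3 : φ F ∈ U) (h4 : s ≠ -1 ∨ ∀ i, φ (pderiv i F) ∈ U) : φ H ∈ U := by
  refine hE L φ D Gi hD hG U h1 h2 h3 fun i => ?_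
  rcases h4 with h4 | h4
  · exact extra (H := H) h4 φ D Gi hD hG U h2 h3 i
  · exact h4 i

end Pool.Agent.N103.V
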