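import Pool.Agent.N103.Eng2
import Pool.Agent.N103.V.Ev

set_option autoImplicit false
set_option linter.unusedSectionVars false
set_option linter.unusedVariables false

/-! # The engine for `Ev` -/

namespace Pool.Agent.N103.V

attribute [-instance] HahnSeries.powerSeriesAlgebra

open Pool.Agent.W574.SM HahnSeries Pool.Agent.N103

theorem Ge_neg' {B : Type} [CommRing B] [IsDomain B] {d : ℤ} {x : HahnSeries ℤ B} (hx : Ge d x) :
    Ge d (-x) := fun g hg => by rw [HahnSeries.coeff_neg, hx g hg, neg_zero]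

section Engine

variable {κ : Type} [DecidableEq κ] {B : Type} [CommRing B] [IsDomain B] [Algebra ℂ B]
  (x0 : B) (δ : Derivation ℂ B B) (ε : κ → Derivation ℂ B B) (Y : κ → B) (ξ : Fin 2 → MP)

theorem engine2 (hx : δ x0 = 1) (hε : ∀ j, ε j x0 = 0) (hδY : ∀ j, δ (Y j) = 0)
    (hεY : ∀ j k, ε j (Y k) = if k = j then 1 else 0)
    (hcomm : ∀ j x, δ (ε j x) = ε j (δ x))
    (F H : MvPolynomial (Fin 2 ⊕ κ) ℂ)
    (n : ℕ) (hn : 1 ≤ n) (Jp : MP) (hJ : jac ξ = MvPolynomial.X 0 ^ (n - 1) * Jp)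
    (hJu : IsUnit (Polynomial.aeval x0 (res0 Jp)))
    (A : ℕ) (hA : 1 ≤ A) (w : HahnSeries ℤ B) (hw : Ge 0 w)
    (hwF : phi x0 Y ξ F = single (A : ℤ) 1 * w) (Q Qi : B) (hwQ : w.coeff 0 = Q)
    (hQ : Q * Qi = 1) (hE : Ev H F (-(n : ℂ) / A))
    (hord : ∀ i, Ge 1 (hd δ 0 (emb x0 (ξ i)))) :
    ∃ r : B, δ r + algebraMap ℂ B (-(n : ℂ) / A) * (δ Q * Qi) * r
      = Polynomial.aeval x0 (res0 Jp) * (phi x0 Y ξ H).coeff 0 := by
  set s0 : ℂ := -(n : ℂ) / A with hs0
  set φ := phi x0 Y ξ with hφ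
  have hAc : (A : ℂ) ≠ 0 := Nat.cast_ne_zero.2 (by omega)
  -- the Jacobian
  have hJh : Jh x0 δ ξ = single (n : ℤ) 1 * emb x0 Jp := by
    obtain ⟨k, rfl⟩ : ∃ k, n = k + 1 := ⟨n - 1, by omega⟩
    rw [Jh_eq x0 δ ξ hx, hJ, map_mul, map_pow, emb_X0, single_pow, one_pow, ← mul_assoc,
      single_mul_single, one_mul, nsmul_eq_mul, mul_one]
    congr 3
    push_cast
    ring
  have hJGe : Ge (n : ℤ) (Jh x0 δ ξ) := by
    rw [hJh]
    simpa using (Ge_single (n : ℤ) (1 : B)).mul (Ge_emb x0 Jp)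
  have hJco : (Jh x0 δ ξ).coeff n = Polynomial.aeval x0 (res0 Jp) := by
    have := coeff_mul_Ge (Ge_single (n : ℤ) (1 : B)) (Ge_emb x0 Jp)
    rw [add_zero, coeff_single_same, one_mul, coeff_emb] at this
    rw [hJh, this]
  obtain ⟨Ji, hJi, _⟩ := exists_inv hJGe (by rw [hJco]; exact hJu)
  -- the inverse of `w`
  obtain ⟨wi, hwi, hwiGe⟩ := exists_inv hw (by rw [hwQ]; exact IsUnit.of_mul_eq_one Qi hQ)
  have hAA : (single (A : ℤ) (1 : B)) * single (-(A : ℤ)) 1 = 1 := by
    rw [single_mul_single, one_mul, add_neg_cancel]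
    rfl
  set Gi : HahnSeries ℤ B := single (-(A : ℤ)) 1 * wi with hGi
  have hGi1 : φ F * Gi = 1 := by
    rw [hwF, hGi]
    linear_combination w * wi * hAA + hwi
  -- the root
  have hCQ : (C Q * C Qi : HahnSeries ℤ B) = 1 := by rw [← map_mul, hQ, map_one C]
  have hw1 : Ge 0 (w * C Qi) := by simpa using hw.mul (Ge_C Qi)
  have hw1c : (w * C Qi).coeff 0 = 1 := by
    have := coeff_mul_Ge hw (Ge_C Qi)
    rw [add_zero, coeff_C0, hwQ, hQ] at this
    exact this
  obtain ⟨V, hVGe, hV1, hVA⟩ := exists_root (w * C Qi) hw1 hw1c A (by omega)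
  obtain ⟨Vi, hVi, hViGe⟩ := exists_inv hVGe (by rw [hV1]; exact isUnit_one)
  rw [neg_zero] at hViGe
  have hVi1 : Vi.coeff 0 = 1 := by
    have := coeff_mul_Ge hVGe hViGe
    rw [add_zero, hVi, coeff_one, if_pos rfl, hV1, one_mul] at this
    exact this.symm
  set Vn : HahnSeries ℤ B := Vi ^ n with hVn
  have hVnGe : Ge 0 Vn := hViGe.pow n
  have hVn1 : Vn.coeff 0 = 1 := by rw [hVn, coeff_pow_Ge hViGe, hVi1, one_pow]
  -- logarithmic derivatives
  have hdVn : ∀ d : Derivation ℂ (HahnSeries ℤ B) (HahnSeries ℤ B),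
      d Vn = -(n : HahnSeries ℤ B) * (d V * Vi) * Vn := by
    intro d
    have h1 : d Vi = - (d V * Vi * Vi) := by
      have h2 := congrArg d hVi
      rw [Derivation.leibniz, Derivation.map_one_eq_zero, smul_eq_mul, smul_eq_mul] at h2
      linear_combination Vi * h2 - d Vi * hVi
    rw [hVn]
    clear_value Vn
    have : ∀ m : ℕ, d (Vi ^ m) = -(m : HahnSeries ℤ B) * (d V * Vi) * Vi ^ m := by
      intro m
      induction m with
      | zero => simp
      | succ m ih =>
        rw [pow_succ, Derivation.leibniz, ih, h1, smul_eq_mul, smul_eq_mul]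
        push_cast
        ring
    exact this n
  have hdw : ∀ d : Derivation ℂ (HahnSeries ℤ B) (HahnSeries ℤ B),
      (A : HahnSeries ℤ B) * (d V * Vi) = d w * wi - d (C Q) * C Qi := by
    intro d
    have h1 : w = V ^ A * C Q := by rw [hVA]; linear_combination (-w) * hCQ
    have h3 : d (V ^ A) = (A : HahnSeries ℤ B) * (d V * Vi) * V ^ A := by
      rw [Derivation.leibniz_pow, smul_eq_mul, nsmul_eq_mul]
      obtain ⟨k, hk⟩ : ∃ k, A = k + 1 := ⟨A - 1, by omega⟩
      rw [hk, Nat.add_sub_cancel, pow_succ]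
      linear_combination (-((k + 1 : ℕ) : HahnSeries ℤ B) * V ^ k * d V) * hVi
    have h2 : d w = (A : HahnSeries ℤ B) * (d V * Vi) * w + d (C Q) * V ^ A := by
      conv_lhs => rw [h1]
      rw [Derivation.leibniz, h3, smul_eq_mul, smul_eq_mul]
      linear_combination (-((A : HahnSeries ℤ B) * (d V * Vi))) * h1
    rw [h2]
    have h5 : V ^ A * wi = C Qi := by
      rw [hVA]
      linear_combination C Qi * hwi
    linear_combination (-(A : HahnSeries ℤ B) * (d V * Vi)) * hwi - d (C Q) * h5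
  have hsA : algebraMap ℂ (HahnSeries ℤ B) s0 * (A : HahnSeries ℤ B)
      = -(n : HahnSeries ℤ B) := by
    have h1 : (A : HahnSeries ℤ B) = algebraMap ℂ (HahnSeries ℤ B) (A : ℂ) := by
      rw [map_natCast]
    rw [h1, ← map_mul, hs0, div_mul_cancel₀ _ hAc, map_neg, map_natCast]
  -- the key identity
  have hkey : ∀ (δ' : Derivation ℂ B B) (k : ℤ), hd δ' k Vn
      = (algebraMap ℂ (HahnSeries ℤ B) s0 * (hd δ' k (φ F) * Gi)
        + (k : HahnSeries ℤ B) * (n : HahnSeries ℤ B)
        - algebraMap ℂ (HahnSeries ℤ B) s0 * (C (δ' Q * Qi))) * Vn := by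
    intro δ' k
    have h1 : hd δ' k (φ F) * Gi = ((k * A : ℤ) : HahnSeries ℤ B) + hd δ' k w * wi := by
      rw [hwF, Derivation.leibniz, hd_single, smul_eq_mul, smul_eq_mul, hGi]
      linear_combination (hd δ' k w * wi + ((k * A : ℤ) : HahnSeries ℤ B) * w * wi) * hAA
        + ((k * A : ℤ) : HahnSeries ℤ B) * hwi
    have h2 := hdw (hd δ' k)
    have h3 := hdVn (hd δ' k)
    rw [hd_C] at h2
    rw [h3, h1, map_mul C]
    push_cast
    linear_combination (-(hd δ' k V * Vi) * Vn) * hsA + (algebraMap ℂ (HahnSeries ℤ B) s0 * Vn) * h2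
      + (- (k : HahnSeries ℤ B)) * Vn * hsA
  -- the subspace
  let U : Submodule ℂ (HahnSeries ℤ B) :=
    { carrier := {x | ∀ p, ∃ r : B, (Jh x0 δ ξ * φ p * x * Vn).coeff n
        = δ r + algebraMap ℂ B s0 * (δ Q * Qi) * r}
      add_mem' := by
        intro x y hx hy p
        obtain ⟨r1, h1⟩ := hx p
        obtain ⟨r2, h2⟩ := hy p
        refine ⟨r1 + r2, ?_⟩
        rw [mul_add, add_mul, coeff_add, h1, h2, map_add]
        ring
      zero_mem' := by
        intro p
        refine ⟨0, ?_⟩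
        rw [mul_zero, zero_mul, coeff_zero, map_zero, mul_zero, add_zero]
      smul_mem' := by
        intro c x hx p
        obtain ⟨r, h⟩ := hx p
        refine ⟨c • r, ?_⟩
        rw [mul_smul_comm, smul_mul_assoc, coeff_smul, h, Derivation.map_smul, mul_smul_comm,
          smul_add] }
  have hmem := hE.mem φ (DL x0 δ ε ξ Ji) Gi
    (DL_phi x0 δ ε Y ξ hx hε hδY hεY Ji hJi) hGi1 U
    (by
      intro i x hx p
      obtain ⟨r, h⟩ := hx (p * MvPolynomial.X i)
      refine ⟨r, ?_⟩
      rw [← h, map_mul φ]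
      congr 2
      ring)
    (by
      intro i x hxU p
      rcases i with i | j
      · -- the directions `x_i`
        obtain ⟨r, h⟩ := hxU (MvPolynomial.pderiv (Sum.inl i) p)
        set a := al x0 δ ξ i * (φ p * x) * Vn with ha
        set c := be x0 ξ i * (φ p * x) * Vn with hc
        have hP := piola x0 δ ξ i
        have hDp : al x0 δ ξ i * hd (0 : Derivation ℂ B B) 1 (φ p) + be x0 ξ i * hd δ 0 (φ p)
            = Jh x0 δ ξ * φ (MvPolynomial.pderiv (Sum.inl i) p) := by
          rw [← DL_phi x0 δ ε Y ξ hx hε hδY hεY Ji hJi (Sum.inl i) p, DL_x]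
          linear_combination (-(al x0 δ ξ i * hd (0 : Derivation ℂ B B) 1 (φ p)
            + be x0 ξ i * hd δ 0 (φ p))) * hJi
        have heq : Jh x0 δ ξ * φ p * nab φ (DL x0 δ ε ξ Ji) F Gi s0 (Sum.inl i) x * Vn
            = (hd (0 : Derivation ℂ B B) 1 a - (n : HahnSeries ℤ B) * a)
              + (hd δ 0 c + algebraMap ℂ (HahnSeries ℤ B) s0 * C (δ Q * Qi) * c)
              - Jh x0 δ ξ * φ (MvPolynomial.pderiv (Sum.inl i) p) * x * Vn := by
          have k1 := hkey 0 1
          have k2 := hkey δ 0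
          rw [nab_apply, DL_x, DL_x, ha, hc]
          rw [Derivation.leibniz _ _ Vn, Derivation.leibniz _ _ (φ p * x),
            Derivation.leibniz _ (φ p) x, Derivation.leibniz _ _ Vn,
            Derivation.leibniz _ _ (φ p * x), Derivation.leibniz _ (φ p) x, k1, k2]
          simp only [smul_eq_mul, Derivation.coe_zero, Pi.zero_apply, zero_mul, map_zero,
            mul_zero, sub_zero, Int.cast_one, Int.cast_zero, one_mul, add_zero]
          linear_combination (φ p * (al x0 δ ξ i * hd (0 : Derivation ℂ B B) 1 x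
            + be x0 ξ i * hd δ 0 x + algebraMap ℂ (HahnSeries ℤ B) s0 *
              ((al x0 δ ξ i * hd (0 : Derivation ℂ B B) 1 (φ F) + be x0 ξ i * hd δ 0 (φ F)) * Gi)
                * x) * Vn) * hJi - (φ p * x * Vn) * hP - (x * Vn) * hDp
        refine ⟨c.coeff n - r, ?_⟩
        have ec : (hd (0 : Derivation ℂ B B) 1 a - (n : HahnSeries ℤ B) * a).coeff n = 0 := by
          have h1 : (n : HahnSeries ℤ B) * a = ((n : ℕ) : B) • a := by
            rw [← C_mul_eq_smul, map_natCast]
          rw [coeff_sub, coeff_hd, h1, coeff_smul, Derivation.coe_zero, Pi.zero_apply, smul_eq_mul,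
            one_mul, zero_add, Int.cast_natCast, sub_self]
        have ed : (hd δ 0 c + algebraMap ℂ (HahnSeries ℤ B) s0 * C (δ Q * Qi) * c).coeff n
            = δ (c.coeff n) + algebraMap ℂ B s0 * (δ Q * Qi) * c.coeff n := by
          rw [coeff_add, coeff_hd, algMap_eq, ← map_mul C, C_mul_eq_smul, coeff_smul, smul_eq_mul,
            zero_mul, Int.cast_zero, zero_mul, add_zero]
        rw [heq, coeff_sub, coeff_add, ec, ed, h, zero_add, map_sub]
        ring
      · -- the directions `y_j`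
        obtain ⟨r, h⟩ := hxU p
        obtain ⟨r', h'⟩ := hxU (MvPolynomial.pderiv (Sum.inr j) p)
        set c := Jh x0 δ ξ * φ p * x * Vn with hc
        have hDp : hd (ε j) 0 (φ p) = φ (MvPolynomial.pderiv (Sum.inr j) p) := by
          rw [← DL_phi x0 δ ε Y ξ hx hε hδY hεY Ji hJi (Sum.inr j) p, DL_y]
        have hJ0 : hd (ε j) 0 (Jh x0 δ ξ) = 0 := by
          rw [Jh_eq x0 δ ξ hx, Derivation.leibniz, hd_emb_e x0 (ε j) (hε j), hd_single, zero_mul,
            Int.cast_zero, zero_mul, smul_zero, smul_zero, add_zero]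
        have heq : Jh x0 δ ξ * φ p * nab φ (DL x0 δ ε ξ Ji) F Gi s0 (Sum.inr j) x * Vn
            = (hd (ε j) 0 c + algebraMap ℂ (HahnSeries ℤ B) s0 * C (ε j Q * Qi) * c)
              - Jh x0 δ ξ * φ (MvPolynomial.pderiv (Sum.inr j) p) * x * Vn := by
          have k2 := hkey (ε j) 0
          rw [nab_apply, DL_y, DL_y, hc]
          rw [Derivation.leibniz _ _ Vn, Derivation.leibniz _ _ x,
            Derivation.leibniz _ _ (φ p), k2, hJ0, hDp]
          simp only [smul_eq_mul, zero_mul, mul_zero, sub_zero, Int.cast_zero, add_zero]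
          ring
        have ed : (hd (ε j) 0 c + algebraMap ℂ (HahnSeries ℤ B) s0 * C (ε j Q * Qi) * c).coeff n
            = ε j (c.coeff n) + algebraMap ℂ B s0 * (ε j Q * Qi) * c.coeff n := by
          rw [coeff_add, coeff_hd, algMap_eq, ← map_mul C, C_mul_eq_smul, coeff_smul, smul_eq_mul,
            zero_mul, Int.cast_zero, zero_mul, add_zero]
        refine ⟨ε j r + algebraMap ℂ B s0 * (ε j Q * Qi) * r - r', ?_⟩
        rw [heq, coeff_sub, ed, h, h']
        have hQi : ∀ d : Derivation ℂ B B, d Qi = - (d Q * Qi * Qi) := by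
          intro d
          have h2 := congrArg d hQ
          rw [Derivation.leibniz, Derivation.map_one_eq_zero, smul_eq_mul, smul_eq_mul] at h2
          linear_combination Qi * h2 - d Qi * hQ
        simp only [map_add, map_sub, Derivation.leibniz, smul_eq_mul, Derivation.map_algebraMap,
          mul_zero, add_zero, hQi, hcomm]
        ring)
    (by
      intro p
      refine ⟨0, ?_⟩
      rw [map_zero, mul_zero, add_zero]
      have h1 : Ge ((n : ℤ) + A) (Jh x0 δ ξ * φ p * φ F * Vn) := by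
        have h2 : Ge (A : ℤ) (φ F) := by
          rw [hwF]
          simpa using (Ge_single (A : ℤ) (1 : B)).mul hw
        have h3 := ((hJGe.mul (Ge_phi x0 Y ξ p)).mul h2).mul hVnGe
        simpa using h3
      exact h1 n (by omega))
    (by
      by_cases hs1 : s0 = -1
      · right
        have hnA : (n : ℤ) = A := by
          have h1 : -(n : ℂ) = -1 * A := by
            rw [← hs1, hs0, div_mul_cancel₀ _ hAc]
          have h2 : (n : ℂ) = A := by linear_combination -h1
          exact_mod_cast h2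
        have hFA : Ge (A : ℤ) (φ F) := by
          rw [hwF]
          simpa using (Ge_single (A : ℤ) (1 : B)).mul hw
        intro i p
        refine ⟨0, ?_⟩
        rw [map_zero, mul_zero, add_zero]
        rw [← DL_phi x0 δ ε Y ξ hx hε hδY hεY Ji hJi i F]
        rcases i with i | j
        · have hal : Ge 1 (al x0 δ ξ i) := by
            rw [al]
            split_ifs
            · exact hord 1
            · exact Ge_neg' (hord 0)
          have hbe : Ge 1 (be x0 ξ i) := by
            rw [be]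
            split_ifs
            · rw [hd_emb_u]
              refine Ge_neg' ?_
              simpa using (Ge_single (1 : ℤ) (1 : B)).mul (Ge_emb x0 (MvPolynomial.pderiv 0 (ξ 1)))
            · rw [hd_emb_u]
              simpa using (Ge_single (1 : ℤ) (1 : B)).mul (Ge_emb x0 (MvPolynomial.pderiv 0 (ξ 0)))
          have h1 : Jh x0 δ ξ * φ p * DL x0 δ ε ξ Ji (Sum.inl i) (φ F) * Vn
              = φ p * (al x0 δ ξ i * hd (0 : Derivation ℂ B B) 1 (φ F)
                + be x0 ξ i * hd δ 0 (φ F)) * Vn := by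
            rw [DL_x]
            linear_combination (φ p * (al x0 δ ξ i * hd (0 : Derivation ℂ B B) 1 (φ F)
                + be x0 ξ i * hd δ 0 (φ F)) * Vn) * hJi
          have h2 : Ge (1 + (A : ℤ)) (φ p * (al x0 δ ξ i * hd (0 : Derivation ℂ B B) 1 (φ F)
                + be x0 ξ i * hd δ 0 (φ F)) * Vn) := by
            have h3 := ((Ge_phi x0 Y ξ p).mul ((hal.mul (hFA.hd (0 : Derivation ℂ B B) 1)).add
              (hbe.mul (hFA.hd δ 0)))).mul hVnGe
            simpa using h3
          rw [h1]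
          exact h2 n (by omega)
        · have h2 : Ge ((n : ℤ) + A) (Jh x0 δ ξ * φ p * DL x0 δ ε ξ Ji (Sum.inr j) (φ F) * Vn) := by
            have h3 := ((hJGe.mul (Ge_phi x0 Y ξ p)).mul (hFA.hd (ε j) 0)).mul hVnGe
            rw [DL_y]
            simpa using h3
          exact h2 n (by omega)
      · left
        exact hs1)
  obtain ⟨r, hr⟩ := hmem 1
  have h1 : (Jh x0 δ ξ * φ 1 * φ H * Vn).coeff n
      = Polynomial.aeval x0 (res0 Jp) * (φ H).coeff 0 := by
    have h2 : Jh x0 δ ξ * φ 1 * φ H * Vn = Jh x0 δ ξ * (φ H * Vn) := by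
      rw [map_one φ]
      ring
    have h3 := coeff_mul_Ge hJGe ((Ge_phi x0 Y ξ H).mul hVnGe)
    have h4 := coeff_mul_Ge (Ge_phi x0 Y ξ H) hVnGe
    rw [add_zero] at h3 h4
    rw [add_zero, h4, hJco, hVn1, mul_one] at h3
    rw [h2, h3]
  rw [h1] at hr
  exact ⟨r, hr.symm⟩

end Engine

end Pool.Agent.N103.V
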