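import Pool.Agent.N103.V.GoodC
import Pool.Agent.Y229.PS.Unit
import Pool.Agent.Y229.RE.Glob

set_option autoImplicit false
set_option linter.unusedSectionVars false
set_option linter.unusedVariables false
set_option linter.unusedSimpArgs false

/-! # Germs which are iterated suspensions in suitable formal coordinates -/

namespace Pool.Agent.N103.V

open Pool.Agent.W574.SM Pool.Agent.N103 Pool.Agent.H628R4.TP
open Pool.Agent.Y229.PS (IsFormalBFunction coordB formal_of_unit local_of_formal formal_of_local)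
open Pool.Agent.Y229.GL (IsCoord)
open Pool.Agent.Y229.RE (trans trans_local)

open Polynomial

variable {N : ℕ}

/-- The formal power series `f` becomes the polynomial `F` (in variables `σ`, as many as those of `f`) in
suitable formal coordinates `φ` at the origin, and up to a factor `u` which is a unit:
`f(φ) = u F`. -/
def BecomesAt (f : MvPowerSeries (Fin N) ℂ) {σ : Type} (F : MvPolynomial σ ℂ) : Prop :=
  ∃ (ε : σ ≃ Fin N) (φ : Fin N → MvPowerSeries (Fin N) ℂ) (u : MvPowerSeries (Fin N) ℂ),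
    IsCoord φ ∧ (∀ i, MvPowerSeries.constantCoeff (φ i) = 0) ∧ IsUnit u ∧
    MvPowerSeries.subst φ f = u * (MvPolynomial.rename ε F : MvPowerSeries (Fin N) ℂ)

/-- renaming of the variables -/
theorem ev_rename {σ τ : Type} (ε : σ ≃ τ) {H : MvPolynomial τ ℂ} {F : MvPolynomial σ ℂ} {s : ℂ}
    (hE : Ev H (MvPolynomial.rename ε F) s) : Ev (MvPolynomial.rename ε.symm H) F s := by
  intro L _ _ φ D Gi hD hG U h1 h2 h3 h4
  have hren : ∀ p : MvPolynomial σ ℂ, MvPolynomial.rename ε.symm (MvPolynomial.rename ε p) = p := by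
    intro p
    rw [MvPolynomial.rename_rename]
    have : (ε.symm : τ → σ) ∘ ε = id := by
      funext i
      simp
    rw [this, MvPolynomial.rename_id]
    rfl
  have hpd : ∀ (i : τ) (p : MvPolynomial τ ℂ),
      MvPolynomial.pderiv (ε.symm i) (MvPolynomial.rename ε.symm p)
        = MvPolynomial.rename ε.symm (MvPolynomial.pderiv i p) := fun i p =>
    MvPolynomial.pderiv_rename ε.symm.injective i p
  have hpd2 : ∀ (i : σ) (p : MvPolynomial σ ℂ),
      MvPolynomial.pderiv (ε i) (MvPolynomial.rename ε p)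
        = MvPolynomial.rename ε (MvPolynomial.pderiv i p) := fun i p =>
    MvPolynomial.pderiv_rename ε.injective i p
  refine hE L (φ.comp (MvPolynomial.rename ε.symm)) (fun i => D (ε.symm i)) Gi ?_ ?_ U ?_ ?_ ?_ ?_
  · intro i p
    show D (ε.symm i) (φ (MvPolynomial.rename ε.symm p)) = φ (MvPolynomial.rename ε.symm _)
    rw [hD, hpd]
  · show φ (MvPolynomial.rename ε.symm (MvPolynomial.rename ε F)) * Gi = 1
    rw [hren, hG]
  · intro i x hx
    show φ (MvPolynomial.rename ε.symm (MvPolynomial.X i)) * x ∈ U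
    rw [MvPolynomial.rename_X]
    exact h1 _ x hx
  · intro i x hx
    have h5 := h2 (ε.symm i) x hx
    rw [nab_apply] at h5 ⊢
    show D (ε.symm i) x + algebraMap ℂ L s *
      (D (ε.symm i) (φ (MvPolynomial.rename ε.symm (MvPolynomial.rename ε F))) * Gi) * x ∈ U
    rw [hren]
    exact h5
  · show φ (MvPolynomial.rename ε.symm (MvPolynomial.rename ε F)) ∈ U
    rw [hren]
    exact h3
  · intro i
    show φ (MvPolynomial.rename ε.symm (MvPolynomial.pderiv i (MvPolynomial.rename ε F))) ∈ U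
    have h5 := hpd2 (ε.symm i) F
    rw [Equiv.apply_symm_apply] at h5
    rw [h5, hren]
    exact h4 _

/-- the zeta functions of a germ -/
theorem germ_reg {f : MvPowerSeries (Fin N) ℂ} {σ : Type} {F : MvPolynomial σ ℂ}
    {Z : ℕ → RatFunc ℂ} (hZ : SusZeta σ F 0 Z) (hf : BecomesAt f F) {b : ℂ[X]}
    (hb : IsFormalBFunction f b) {e : ℕ} (he : 1 ≤ e) {s : ℂ} (hs : b.eval s ≠ 0) :
    Z e ∈ Reg s := by
  have hG := sus_good hZ
  obtain ⟨ε, φ, u, hφ, hφ0, hu, h3⟩ := hf
  obtain ⟨u, rfl⟩ := hu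
  have h4 : IsLocalBFunction (MvPolynomial.rename ε F) b := by
    refine local_of_formal (formal_of_unit (Units.inv_mul u) ?_)
    rw [← h3]
    exact coordB hφ hφ0 hb
  have hinj := MvPolynomial.rename_injective ε ε.injective (R := ℂ)
  have hne : MvPolynomial.rename ε F ≠ 0 := by
    intro h5
    exact hG.ne (hinj (by rw [h5, map_zero]))
  obtain ⟨H, hH, hHb⟩ := heq_of_local _ hne b h4
  have hH2 : MvPolynomial.eval (0 : σ → ℂ) (MvPolynomial.rename ε.symm H) ≠ 0 := by
    rw [MvPolynomial.eval_rename]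
    have : ((0 : σ → ℂ) ∘ ε.symm) = 0 := rfl
    rw [this, MvPolynomial.eval_zero]
    exact hH
  refine hG.all he hH2 (ev_rename ε (Ev_of_heq hne hHb hs)) ?_
  rintro rfl
  refine hs (root_minus_one (p := 0) hne ?_ ?_ hHb)
  · rw [MvPolynomial.eval_rename]
    exact hG.zero
  · rw [MvPolynomial.eval_zero]
    exact hH

/-- **The local theorem.** -/
theorem germ_local (f : MvPowerSeries (Fin N) ℂ) {σ : Type} (F : MvPolynomial σ ℂ)
    (hf : BecomesAt f F) (Z : ℕ → RatFunc ℂ) (hZ : SusZeta σ F 0 Z) (b : ℂ[X])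
    (hb : IsFormalBFunction f b) (e : ℕ) (he : 1 ≤ e) (s : ℂ)
    (hs : (Z e).denom.eval s = 0) : b.eval s = 0 := by
  by_contra hne
  exact Reg_denom s _ (germ_reg hZ hf hb he hne) hs

/-- **The global theorem.** -/
theorem germ_global (f : MvPolynomial (Fin N) ℂ) (b : ℂ[X]) (hb : IsBFunction f b) (e : ℕ)
    (he : 1 ≤ e) {ι : Type} [Fintype ι] (χ : ι → ℤ) (p : ι → Fin N → ℂ) (σ : ι → Type)
    (F : ∀ i, MvPolynomial (σ i) ℂ)
    (hF : ∀ i, BecomesAt (trans (p i) f : MvPowerSeries (Fin N) ℂ) (F i))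
    (Z : ι → ℕ → RatFunc ℂ) (hZ : ∀ i, SusZeta (σ i) (F i) 0 (Z i)) (χ0 : ℤ) (s : ℂ)
    (hs : ((χ0 : RatFunc ℂ) + ∑ i, (χ i : RatFunc ℂ) * Z i e).denom.eval s = 0) :
    b.eval s = 0 := by
  by_contra hne
  refine Reg_denom s _ ?_ hs
  refine (Reg s).add_mem (intCast_mem _ _) (Subring.sum_mem _ fun i _ => ?_)
  exact (Reg s).mul_mem (intCast_mem _ _)
    (germ_reg (hZ i) (hF i) (formal_of_local (trans_local (p i) hb)) he hne)

end Pool.Agent.N103.V
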