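import Mathlib

set_option autoImplicit false
set_option linter.unusedSectionVars false
set_option linter.unusedVariables false

/-! # The Beta integrals `∫ z ^ (d l) (z ^ d + 1) ^ (e - m) dz` -/

namespace Pool.Agent.N103.V

/-- `x (x + 1) ⋯ (x + n - 1)` -/
noncomputable def poc (x : ℂ) (n : ℕ) : ℂ := ∏ i ∈ Finset.range n, (x + i)

theorem poc_zero (x : ℂ) : poc x 0 = 1 := by simp [poc]

theorem poc_succ (x : ℂ) (n : ℕ) : poc x (n + 1) = poc x n * (x + n) := by
  rw [poc, Finset.prod_range_succ, ← poc]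

/-- `Γ(x + m - l) / Γ(x)` (zero where it is infinite) -/
noncomputable def del (x : ℂ) (l m : ℕ) : ℂ :=
  if l ≤ m then poc x (m - l) else (∏ i ∈ Finset.range (l - m), (x - (i + 1)))⁻¹

theorem del_succ_succ (x : ℂ) (l m : ℕ) : del x (l + 1) (m + 1) = del x l m := by
  unfold del
  by_cases h : l ≤ m
  · rw [if_pos (by omega), if_pos h, Nat.add_sub_add_right]
  · rw [if_neg (by omega), if_neg h, Nat.add_sub_add_right]

theorem del_right (x : ℂ) (l m : ℕ) (h : l ≤ m ∨ x + m - l ≠ 0) :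
    del x l (m + 1) = (x + m - l) * del x l m := by
  unfold del
  by_cases h1 : l ≤ m
  · rw [if_pos (by omega), if_pos h1, show m + 1 - l = (m - l) + 1 by omega, poc_succ,
      Nat.cast_sub h1]
    ring
  · have h2 : x + m - l ≠ 0 := h.resolve_left h1
    obtain ⟨k, rfl⟩ : ∃ k, l = m + 1 + k := ⟨l - (m + 1), by omega⟩
    have h3 : x - ((k : ℂ) + 1) ≠ 0 := by
      intro h0
      apply h2
      push_cast
      linear_combination h0
    rw [if_neg h1, show m + 1 + k - m = k + 1 by omega, Finset.prod_range_succ]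
    by_cases hk : k = 0
    · subst hk
      rw [if_pos (by omega), Finset.prod_range_zero, Nat.add_zero, Nat.sub_self, poc_zero, one_mul]
      push_cast at h3 ⊢
      rw [eq_comm, mul_inv_eq_one₀ (by simpa using h3)]
      ring
    · rw [if_neg (by omega), show m + 1 + k - (m + 1) = k by omega, mul_inv]
      push_cast
      have e : x + m - (m + 1 + k) = x - ((k : ℂ) + 1) := by ring
      rw [e]
      field_simp

theorem del_fail (x : ℂ) (l m : ℕ) (h : m < l) (hx : x + m - l = 0) : del x l m = 0 := by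
  unfold del
  rw [if_neg (by omega), inv_eq_zero, Finset.prod_eq_zero_iff]
  refine ⟨l - m - 1, Finset.mem_range.2 (by omega), ?_⟩
  rw [Nat.cast_sub (by omega), Nat.cast_sub (by omega), Nat.cast_one]
  linear_combination hx

/-- `∫ z ^ (d l) (z ^ d + 1) ^ (e - m) dz / ∫ (z ^ d + 1) ^ e dz` -/
noncomputable def gam (d : ℕ) (e : ℂ) (l m : ℕ) : ℂ :=
  poc (1 / d) l * del (-(e + 1 / d)) l m / poc (-e) m

theorem poc_ne {e : ℂ} (he : ∀ n : ℕ, e ≠ n) (m : ℕ) : poc (-e) m ≠ 0 := by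
  rw [poc, Finset.prod_ne_zero_iff]
  intro i _ h
  exact he i (by linear_combination -h)

theorem gam_zero (d : ℕ) (e : ℂ) : gam d e 0 0 = 1 := by
  simp [gam, poc, del]

theorem gam_fail (d : ℕ) (e : ℂ) (l m : ℕ) (h : m < l) (hx : -(e + 1 / d) + m - l = 0) :
    gam d e l m = 0 := by
  rw [gam, del_fail _ _ _ h hx, mul_zero, zero_div]

theorem gam_one {d : ℕ} (hd : d ≠ 0) {e : ℂ} (he : ∀ n : ℕ, e ≠ n) (l m : ℕ)
    (h : l ≤ m ∨ -(e + 1 / d) + m - l ≠ 0) :
    gam d e (l + 1) (m + 1) + gam d e l (m + 1) = gam d e l m := by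
  have hdc : (d : ℂ) ≠ 0 := Nat.cast_ne_zero.2 hd
  have h1 := poc_ne he m
  have h2 : -e + (m : ℂ) ≠ 0 := fun h0 => he m (by linear_combination -h0)
  unfold gam
  rw [del_succ_succ, del_right _ _ _ h, poc_succ, poc_succ]
  field_simp
  ring

theorem gam_two {d : ℕ} (hd : d ≠ 0) {e : ℂ} (he : ∀ n : ℕ, e ≠ n) (l m : ℕ) :
    d * (e - m) * gam d e (l + 1) (m + 1) = -(d * l + 1) * gam d e l m := by
  have hdc : (d : ℂ) ≠ 0 := Nat.cast_ne_zero.2 hd
  have h1 := poc_ne he m
  have h2 : -e + (m : ℂ) ≠ 0 := fun h0 => he m (by linear_combination -h0)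
  unfold gam
  rw [del_succ_succ, poc_succ, poc_succ]
  field_simp
  ring

theorem gam_three {d : ℕ} (hd : d ≠ 0) {e : ℂ} (he : ∀ n : ℕ, e ≠ n) (l m : ℕ)
    (h : l ≤ m ∨ -(e + 1 / d) + m - l ≠ 0) :
    (e - m) * gam d e l (m + 1) = (l - m + (e + 1 / d)) * gam d e l m := by
  have hdc : (d : ℂ) ≠ 0 := Nat.cast_ne_zero.2 hd
  have h1 := poc_ne he m
  have h2 : -e + (m : ℂ) ≠ 0 := fun h0 => he m (by linear_combination -h0)
  unfold gam
  rw [del_right _ _ _ h, poc_succ]
  field_simp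
  ring

end Pool.Agent.N103.V
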