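import Pool.Agent.N103.V.Susp

set_option autoImplicit false
set_option linter.unusedSectionVars false
set_option linter.unusedVariables false
set_option linter.unusedSimpArgs false

/-! # The functional equations of `z ^ d + G(x)` and of `G`: the theorem -/

namespace Pool.Agent.N103.V

open MvPolynomial Pool.Agent.N103

section Zero

variable {σ : Type} {L : Type} [CommRing L] [Algebra ℂ L] {φ : MvPolynomial σ ℂ →ₐ[ℂ] L}
  {Gi : L} {d : ℕ} {G : MvPolynomial σ ℂ} {e : ℂ} {U : Submodule ℂ L}

theorem Jpos (h1 : ∀ i, ∀ x ∈ U, φ (X i) * x ∈ U) (h3 : φ G ∈ U) (hd : 2 ≤ d)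
    (q : MvPolynomial σ ℂ) (k : ℕ) (hk : 1 ≤ k) : φ q * Jm φ Gi d G e 0 k ∈ U := by
  by_cases hdk : d ∣ k
  · obtain ⟨l, rfl⟩ := hdk
    have hl : 1 ≤ l := by
      rcases Nat.eq_zero_or_pos l with h | h
      · subst h; omega
      · exact h
    rw [Jm_mul hd, pow_zero, mul_one, mul_left_comm]
    exact algU _ _ (powU h1 h3 q l hl)
  · rw [Jm_ndvd _ _ hdk, mul_zero]
    exact U.zero_mem

theorem J00 (hd : 2 ≤ d) : Jm φ Gi d G e 0 0 = 1 := by
  have h := Jm_mul (φ := φ) (Gi := Gi) (G := G) (e := e) hd 0 0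
  rw [mul_zero, gam_zero, map_one, pow_zero, pow_zero, mul_one, mul_one] at h
  exact h

theorem kf (h1 : ∀ i, ∀ x ∈ U, φ (X i) * x ∈ U) (h3 : φ G ∈ U) (hd : 2 ≤ d)
    (w : MvPolynomial (Option σ) ℂ) : If φ (Jm φ Gi d G e 0) (Fd d G * w) ∈ U := by
  induction w using opt_ind with
  | hadd p r hp hr => rw [mul_add, If_add]; exact U.add_mem hp hr
  | hmon k q =>
    have e1 : Fd d G * (rename some q * X none ^ k)
        = rename some q * X none ^ (k + d) + rename some (G * q) * X none ^ k := by
      rw [Fd, map_mul]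
      ring
    rw [e1, If_add, If_mon, If_mon]
    refine U.add_mem (Jpos h1 h3 hd q _ (by omega)) ?_
    by_cases hk : k = 0
    · subst hk
      rw [J00 hd, mul_one, mul_comm G q, map_mul]
      exact mulU h1 q _ h3
    · exact Jpos h1 h3 hd _ _ (by omega)

theorem kzero (h1 : ∀ i, ∀ x ∈ U, φ (X i) * x ∈ U) (h3 : φ G ∈ U) (hd : 2 ≤ d)
    (H : MvPolynomial (Option σ) ℂ) : If φ (Jm φ Gi d G e 0) H - φ (cz H) ∈ U := by
  induction H using opt_ind with
  | hadd p r hp hr =>
    rw [If_add, cz_add, map_add, add_sub_add_comm]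
    exact U.add_mem hp hr
  | hmon k q =>
    rw [If_mon, cz_mon]
    by_cases hk : k = 0
    · subst hk
      rw [J00 hd, mul_one, if_pos rfl, sub_self]
      exact U.zero_mem
    · rw [if_neg hk, map_zero, sub_zero]
      exact Jpos h1 h3 hd _ _ (by omega)

theorem pderiv_some_zpow (i : σ) (k : ℕ) (p : MvPolynomial (Option σ) ℂ) :
    pderiv (some i) (X none ^ k * p) = X none ^ k * pderiv (some i) p := by
  rw [Derivation.leibniz, Derivation.leibniz_pow, pderiv_X_of_ne (by simp), smul_zero, smul_zero,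
    smul_zero, add_zero, smul_eq_mul]

theorem pderiv_none_zpow (k : ℕ) (p : MvPolynomial (Option σ) ℂ) :
    pderiv none (X none ^ k * p) = X none ^ k * pderiv none p
      + C (k : ℂ) * (X none ^ (k - 1) * p) := by
  rw [Derivation.leibniz, Derivation.leibniz_pow, pderiv_X_self, smul_eq_mul, smul_eq_mul,
    smul_eq_mul, nsmul_eq_mul, mul_one]
  have : C (k : ℂ) = ((k : ℕ) : MvPolynomial (Option σ) ℂ) := by simp
  rw [this]
  ring

theorem pderiv_none_Fd (hd : 2 ≤ d) : pderiv none (Fd d G)
    = ((d : ℕ) : MvPolynomial (Option σ) ℂ) * X none ^ (d - 1) := by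
  have h1 := pderiv_none_mon (σ := σ) d 1
  have h2 := pderiv_none_mon (σ := σ) 0 G
  rw [map_one, one_mul, mul_one, map_natCast] at h1
  rw [pow_zero, mul_one, Nat.cast_zero, zero_mul, map_zero, zero_mul] at h2
  rw [Fd, map_add, h1, h2, add_zero]

theorem pderiv_some_Fd (i : σ) : pderiv (some i) (Fd d G) = rename some (pderiv i G) := by
  have h1 := pderiv_some_mon (σ := σ) i d 1
  have h2 := pderiv_some_mon (σ := σ) i 0 G
  rw [map_one, one_mul, Derivation.map_one_eq_zero, map_zero, zero_mul] at h1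
  rw [pow_zero, mul_one, mul_one] at h2
  rw [Fd, map_add, h1, h2, zero_add]

theorem Fd_ne (hd : 2 ≤ d) : Fd d G ≠ 0 := by
  intro h
  have h1 := congrArg (fun p => (optionEquivLeft ℂ σ p).coeff d) h
  simp only [Fd, map_add, map_pow, optionEquivLeft_X_none, oel_rename, map_zero,
    Polynomial.coeff_add, Polynomial.coeff_X_pow, if_true, Polynomial.coeff_C, Polynomial.coeff_zero]
    at h1
  rw [if_neg (by omega), add_zero] at h1
  exact one_ne_zero h1

end Zero

/-- **Suspensions.** If `H b(s) F ^ s = P(s) F ^ (s + 1)` for `F = z ^ d + G(x)`, with `b(e) ≠ 0`,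
then `H(x, 0) G ^ (e + 1 / d)` is in the module generated by `G ^ (e + 1 / d + 1)` and the
`∂_i G G ^ (e + 1 / d)`. -/
theorem susp {σ : Type} {d : ℕ} (hd : 2 ≤ d) {G : MvPolynomial σ ℂ} {e : ℂ}
    (he : ∀ n : ℕ, e ≠ n) {H : MvPolynomial (Option σ) ℂ} (hE : Ev H (Fd d G) e) :
    Ev (cz H) G (e + 1 / d) := by
  classical
  intro L _ _ φ D Gi hD hG U h1 h2 h3 h4
  have hF := Fd_ne (σ := σ) (G := G) hd
  have hM : Submonoid.powers (Fd d G) ≤ nonZeroDivisors (MvPolynomial (Option σ) ℂ) :=
    powers_le_nonZeroDivisors_of_noZeroDivisors hF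
  have hinj : Function.Injective (algebraMap (MvPolynomial (Option σ) ℂ)
      (Localization.Away (Fd d G))) := IsLocalization.injective _ hM
  set al := algebraMap (MvPolynomial (Option σ) ℂ) (Localization.Away (Fd d G)) with hal
  have hder : ∀ i : Option σ, ∃ E : Derivation ℂ (Localization.Away (Fd d G))
      (Localization.Away (Fd d G)), ∀ x, E (al x) = al (pderiv i x) := fun i =>
    exists_locDer (B := Localization.Away (Fd d G)) (Submonoid.powers (Fd d G)) (pderiv i)
  choose δ hδ using hder
  have hu : IsUnit (al (Fd d G)) := IsLocalization.map_units (Localization.Away (Fd d G))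
    (⟨Fd d G, Submonoid.mem_powers _⟩ : Submonoid.powers (Fd d G))
  obtain ⟨FI, hFI⟩ := hu.exists_right_inv
  set ψ : MvPolynomial (Option σ) ℂ →ₐ[ℂ] Localization.Away (Fd d G) :=
    IsScalarTower.toAlgHom ℂ (MvPolynomial (Option σ) ℂ) (Localization.Away (Fd d G)) with hψ
  have hψa : ∀ x, ψ x = al x := fun x => rfl
  have halC : ∀ c : ℂ, algebraMap ℂ (Localization.Away (Fd d G)) c = al (C c) := fun c =>
    (ψ.commutes c).symm
  let UB : Submodule ℂ (Localization.Away (Fd d G)) :=
    { carrier := {y | ∃ (m : ℕ) (p : MvPolynomial (Option σ) ℂ), y * al (Fd d G) ^ m = al p ∧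
        ∀ k : ℕ, If φ (Jm φ Gi d G e m) (X none ^ k * p) ∈ U}
      add_mem' := by
        rintro x y ⟨m1, p1, e1, u1⟩ ⟨m2, p2, e2, u2⟩
        refine ⟨m1 + m2, Fd d G ^ m2 * p1 + Fd d G ^ m1 * p2, ?_, fun k => ?_⟩
        · rw [map_add, map_mul, map_mul, map_pow, map_pow, ← e1, ← e2, pow_add]
          ring
        · have c1 := compat_pow hd he hG h1 h3 m1 m2 (X none ^ k * p1)
          have c2 := compat_pow hd he hG h1 h3 m2 m1 (X none ^ k * p2)
          rw [add_comm m2 m1] at c2
          have c3 := U.add_mem (U.add_mem c1 (u1 k)) (U.add_mem c2 (u2 k))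
          have e3 : (X none ^ k * (Fd d G ^ m2 * p1 + Fd d G ^ m1 * p2)
              : MvPolynomial (Option σ) ℂ)
              = Fd d G ^ m2 * (X none ^ k * p1) + Fd d G ^ m1 * (X none ^ k * p2) := by ring
          rw [e3, If_add]
          convert c3 using 1
          ring
      zero_mem' := ⟨0, 0, by simp, fun k => by rw [mul_zero, If_zero]; exact U.zero_mem⟩
      smul_mem' := by
        rintro c x ⟨m, p, e1, u1⟩
        refine ⟨m, C c * p, ?_, fun k => ?_⟩
        · rw [Algebra.smul_def, halC, map_mul, ← e1]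
          ring
        · rw [mul_left_comm, If_C]
          exact algU _ _ (u1 k) }
  -- the numerator of the derivative
  have hnum : ∀ (i : Option σ) (y : Localization.Away (Fd d G)) (m : ℕ)
      (p : MvPolynomial (Option σ) ℂ), y * al (Fd d G) ^ m = al p →
      nab ψ δ (Fd d G) FI e i y * al (Fd d G) ^ (m + 1)
        = al (Fd d G * pderiv i p + C (e - m) * pderiv i (Fd d G) * p) := by
    intro i y m p hy
    have d1 := congrArg (δ i) hy
    rw [Derivation.leibniz, Derivation.leibniz_pow, hδ, hδ, smul_eq_mul, smul_eq_mul, smul_eq_mul,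
      nsmul_eq_mul] at d1
    have d2 : al (Fd d G) * ((m : Localization.Away (Fd d G)) * al (Fd d G) ^ (m - 1))
        = m * al (Fd d G) ^ m := by
      rcases m with _ | m
      · simp
      · rw [Nat.add_sub_cancel, pow_succ]; ring
    have d3 : al (C (e - m)) = algebraMap ℂ (Localization.Away (Fd d G)) e - m := by
      rw [← halC, map_sub, map_natCast]
    rw [nab_apply, hψa, hδ, map_add, map_mul, map_mul, map_mul, d3, pow_succ]
    linear_combination al (Fd d G) * d1 - y * al (pderiv i (Fd d G)) * d2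
      + (algebraMap ℂ (Localization.Away (Fd d G)) e * al (pderiv i (Fd d G)) * y
          * al (Fd d G) ^ m) * hFI
      + ((algebraMap ℂ (Localization.Away (Fd d G)) e - m) * al (pderiv i (Fd d G))) * hy
  have hmem := hE (Localization.Away (Fd d G)) ψ δ FI (fun i p => hδ i p) hFI UB
    (by
      rintro i x ⟨m, p, e1, u1⟩
      refine ⟨m, X i * p, ?_, fun k => ?_⟩
      · rw [hψa, map_mul, ← e1]
        ring
      · rcases i with _ | i
        · have e2 : (X none ^ k * (X none * p) : MvPolynomial (Option σ) ℂ)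
              = X none ^ (k + 1) * p := by ring
          rw [e2]
          exact u1 (k + 1)
        · have e2 : (X none ^ k * (X (some i) * p) : MvPolynomial (Option σ) ℂ)
              = rename some (X i) * (X none ^ k * p) := by rw [rename_X]; ring
          rw [e2, If_rename]
          exact h1 i _ (u1 k))
    (by
      rintro i x ⟨m, p, e1, u1⟩
      refine ⟨m + 1, _, hnum i x m p e1, fun k => ?_⟩
      rcases i with _ | i
      · have h5 := kz hd he hG h1 h3 m (X none ^ k * p)
        rw [pderiv_none_zpow] at h5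
        have h6 := compat hd he hG h1 h3 m (C (k : ℂ) * (X none ^ (k - 1) * p))
        have h7 : If φ (Jm φ Gi d G e m) (C (k : ℂ) * (X none ^ (k - 1) * p)) ∈ U := by
          rw [If_C]
          exact algU _ _ (u1 _)
        have h8 := U.sub_mem h5 (U.add_mem h6 h7)
        rw [sub_add_cancel, ← If_sub] at h8
        convert h8 using 2
        rw [pderiv_none_Fd hd]
        ring
      · have h5 := kx D hD hd he hG h1 h3 h4 m i (X none ^ k * p)
        have h6 := U.add_mem h5 (h2 i _ (u1 k))
        rw [sub_add_cancel, pderiv_some_zpow] at h6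
        convert h6 using 2
        rw [pderiv_some_Fd]
        ring)
    (by
      refine ⟨0, Fd d G, by rw [pow_zero, mul_one]; rfl, fun k => ?_⟩
      rw [mul_comm]
      exact kf h1 h3 hd _)
    (by
      intro i
      refine ⟨0, pderiv i (Fd d G), by rw [pow_zero, mul_one]; rfl, fun k => ?_⟩
      rcases i with _ | i
      · rw [pderiv_none_Fd hd]
        have e2 : (X none ^ k * (((d : ℕ) : MvPolynomial (Option σ) ℂ) * X none ^ (d - 1)))
            = rename some ((d : ℕ) : MvPolynomial σ ℂ) * X none ^ (k + (d - 1)) := by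
          rw [map_natCast]
          ring
        rw [e2, If_mon]
        exact Jpos h1 h3 hd _ _ (by omega)
      · rw [pderiv_some_Fd, mul_comm, If_mon]
        by_cases hk : k = 0
        · subst hk
          rw [J00 hd, mul_one]
          exact h4 i
        · exact Jpos h1 h3 hd _ _ (by omega))
  obtain ⟨m, p, e1, u1⟩ := hmem
  rw [hψa, ← map_pow, ← map_mul] at e1
  have e2 := hinj e1
  have h5 := u1 0
  rw [pow_zero, one_mul, ← e2, mul_comm] at h5
  have h6 := compat_pow hd he hG h1 h3 0 m H
  rw [zero_add] at h6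
  have h7 := kzero (Gi := Gi) (e := e) h1 h3 hd H
  have h8 := U.sub_mem (U.sub_mem h5 h6) h7
  rwa [sub_sub_cancel, sub_sub_cancel] at h8

end Pool.Agent.N103.V
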