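import Pool.Agent.N103.V.Pairs
import Pool.Agent.N103.V.Simple
import Pool.Agent.N103.V.SuspB
import Pool.Agent.N103.Main

set_option autoImplicit false
set_option linter.unusedSectionVars false
set_option linter.unusedVariables false
set_option linter.unusedSimpArgs false

/-! # The properties of the zeta functions: smooth points, and `h (f₀ + ∑ y_j f_j) ^ a` -/

namespace Pool.Agent.N103.V

open Pool.Agent.W574.SM Pool.Agent.N103

open Polynomial

/-- the properties of the zeta functions -/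
structure Good {σ : Type} (F : MvPolynomial σ ℂ) (p : σ → ℂ) (Z : ℕ → RatFunc ℂ) : Prop where
  ne : F ≠ 0
  zero : MvPolynomial.eval p F = 0
  re : ∀ e, 1 ≤ e → ∀ s : ℂ, 0 ≤ s.re → Z e ∈ Reg s
  one : ∃ r ∈ Reg 0, Z 1 = 1 + RatFunc.X * r
  high : ∀ e, 2 ≤ e → ∀ (H : MvPolynomial σ ℂ) (s : ℂ), MvPolynomial.eval p H ≠ 0 → Ev H F s →
    Z e ∈ Reg s
  low : ∀ (H : MvPolynomial σ ℂ) (s : ℂ), MvPolynomial.eval p H ≠ 0 → Ev H F s →
    (RatFunc.X + 1) * Z 1 ∈ Reg s

theorem X1_eq : algebraMap ℂ[X] (RatFunc ℂ) (X + 1) = RatFunc.X + 1 := by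
  rw [map_add, RatFunc.algebraMap_X, map_one]

theorem X1_mem (s : ℂ) : (RatFunc.X + 1 : RatFunc ℂ) ∈ Reg s := by
  rw [← X1_eq]
  exact al_mem s _

theorem X1_ne : (RatFunc.X + 1 : RatFunc ℂ) ≠ 0 := by
  rw [← X1_eq]
  apply RatFunc.algebraMap_ne_zero
  exact (monic_X_add_C (1 : ℂ)).ne_zero

theorem X1_inv {s : ℂ} (hs : s ≠ -1) : (1 / (RatFunc.X + 1) : RatFunc ℂ) ∈ Reg s := by
  rw [one_div, ← X1_eq]
  apply inv_mem
  rw [eval_add, eval_X, eval_one]
  intro h
  apply hs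
  linear_combination h

theorem of_X1 {s : ℂ} (hs : s ≠ -1) {x : RatFunc ℂ} (h : (RatFunc.X + 1) * x ∈ Reg s) :
    x ∈ Reg s := by
  rw [← X1_eq] at h
  refine of_mul ?_ h
  rw [eval_add, eval_X, eval_one]
  intro h
  apply hs
  linear_combination h

theorem Good.all {σ : Type} {F : MvPolynomial σ ℂ} {p : σ → ℂ} {Z : ℕ → RatFunc ℂ}
    (hG : Good F p Z) {e : ℕ} (he : 1 ≤ e) {H : MvPolynomial σ ℂ} {s : ℂ}
    (hH : MvPolynomial.eval p H ≠ 0) (hE : Ev H F s) (hs : s ≠ -1) : Z e ∈ Reg s := by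
  by_cases h : e = 1
  · rw [h]
    exact of_X1 hs (hG.low H s hH hE)
  · exact hG.high e (by omega) H s hH hE

theorem re_ne {s : ℂ} (hs : 0 ≤ s.re) : s ≠ -1 := by
  rintro rfl
  rw [Complex.neg_re, Complex.one_re] at hs
  linarith

theorem good_smooth {σ : Type} (F : MvPolynomial σ ℂ) (p : σ → ℂ)
    (h0 : MvPolynomial.eval p F = 0) (i : σ)
    (h1 : MvPolynomial.eval p (MvPolynomial.pderiv i F) ≠ 0) :
    Good F p (fun e => if e = 1 then 1 / (RatFunc.X + 1) else 0) where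
  ne := by
    rintro rfl
    rw [map_zero, map_zero] at h1
    exact h1 rfl
  zero := h0
  re := by
    intro e _ s hs
    split_ifs
    · exact X1_inv (re_ne hs)
    · exact (Reg s).zero_mem
  one := by
    refine ⟨-(1 / (RatFunc.X + 1)), (Reg 0).neg_mem (X1_inv (by norm_num)), ?_⟩
    rw [if_pos rfl]
    have := X1_ne
    field_simp
    ring
  high := by
    intro e he H s _ _
    rw [if_neg (by omega)]
    exact (Reg s).zero_mem
  low := by
    intro H s _ _
    rw [if_pos rfl, mul_one_div_cancel X1_ne]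
    exact (Reg s).one_mem

section Germ

variable {κ : Type}

/-- all poles come from the factors -/
theorem germ_mem {R : Type} [CommRing R] {Φ : ℕ → ℕ → R} {l : R} {D : Subring R} (hl : l ∈ D)
    (hΦ : ∀ a n, 1 ≤ n → Φ a n ∈ D) {a : ℕ} {h : MP} {g : Option κ → MP} {a0 n0 a1 n1 : ℕ} {Z : R}
    (hZ : GermZeta Φ l a h g a0 n0 a1 n1 Z) (hn0 : 1 ≤ n0) (hn1 : 1 ≤ n1) : Z ∈ D := by
  classical
  have htf : ∀ (a : ℕ) (t : Bool), typeFactor Φ a t ∈ D := by
    intro a t
    rcases t with _ | _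
    · exact D.one_mem
    · exact hΦ a 1 le_rfl
  induction hZ with
  | unit h g a0 n0 a1 n1 hh t ht =>
    exact D.mul_mem (D.mul_mem (hΦ _ _ hn0) (hΦ _ _ hn1)) (htf _ _)
  | curveV h g a0 n0 mh mg hm q kh k hh hg h0 h1 hkh t ht =>
    exact D.mul_mem (D.mul_mem (hΦ _ _ hn0) (hΦ _ _ le_rfl)) (htf _ _)
  | curveU h g a1 n1 mh mg hm q kh k hh hg h0 h1 hkh t ht =>
    exact D.mul_mem (D.mul_mem (hΦ _ _ hn1) (hΦ _ _ le_rfl)) (htf _ _)
  | blowup h g a0 n0 a1 n1 mh mg hm hc gc hI gI hhc hgc hhI hgI S h0S t hS Zc ZI hz0 hcS hZI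
      ih0 ihc ihI =>
    refine D.add_mem (D.add_mem (ihI hn0 (by omega)) ?_)
      (D.mul_mem (D.sub_mem hl (natCast_mem _ _)) (D.mul_mem (hΦ _ _ (by omega)) (htf _ _)))
    refine D.sum_mem fun c hcS => ?_
    by_cases h : c = 0
    · rw [h]
      exact ih0 (by omega) hn1
    · exact ihc c hcS h (by omega) le_rfl

/-- `x(0) = c` -/
def Val (x : RatFunc ℂ) (c : ℂ) : Prop := ∃ r ∈ Reg 0, x = RatFunc.C c + RatFunc.X * r

theorem C_mem' (s c : ℂ) : RatFunc.C c ∈ Reg s := Reg_C s c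

theorem Val.add {x y : RatFunc ℂ} {c c' : ℂ} (h : Val x c) (h' : Val y c') :
    Val (x + y) (c + c') := by
  obtain ⟨r, hr, rfl⟩ := h
  obtain ⟨r', hr', rfl⟩ := h'
  exact ⟨r + r', (Reg 0).add_mem hr hr', by rw [map_add]; ring⟩

theorem Val.mul {x y : RatFunc ℂ} {c c' : ℂ} (h : Val x c) (h' : Val y c') :
    Val (x * y) (c * c') := by
  obtain ⟨r, hr, rfl⟩ := h
  obtain ⟨r', hr', rfl⟩ := h'
  refine ⟨RatFunc.C c * r' + r * RatFunc.C c' + RatFunc.X * r * r', ?_, by rw [map_mul]; ring⟩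
  exact (Reg 0).add_mem ((Reg 0).add_mem ((Reg 0).mul_mem (C_mem' _ _) hr')
    ((Reg 0).mul_mem hr (C_mem' _ _))) ((Reg 0).mul_mem ((Reg 0).mul_mem (X_mem 0) hr) hr')

theorem Val_C (c : ℂ) : Val (RatFunc.C c) c := ⟨0, (Reg 0).zero_mem, by ring⟩

theorem Val.sum {ι : Type} (S : Finset ι) {x : ι → RatFunc ℂ} {c : ι → ℂ}
    (h : ∀ i ∈ S, Val (x i) (c i)) : Val (∑ i ∈ S, x i) (∑ i ∈ S, c i) := by
  classical
  induction S using Finset.induction_on with
  | empty => exact ⟨0, (Reg 0).zero_mem, by simp⟩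
  | insert i S hi ih =>
    rw [Finset.sum_insert hi, Finset.sum_insert hi]
    exact (h i (Finset.mem_insert_self i S)).add
      (ih fun j hj => h j (Finset.mem_insert_of_mem hj))

theorem Val_fac (a n : ℕ) (hn : 1 ≤ n) : Val (fac a n) (1 / n) := by
  have hnc : (n : ℂ) ≠ 0 := Nat.cast_ne_zero.2 (by omega)
  refine ⟨RatFunc.C (-((a : ℂ) / n)) * fac a n, (Reg 0).mul_mem (C_mem' _ _)
    (fac_mem a n 0 (by rw [mul_zero, add_zero]; exact hnc)), ?_⟩
  have h1 : (algebraMap ℂ[X] (RatFunc ℂ) (C (n : ℂ) + C (a : ℂ) * X)) ≠ 0 := by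
    apply RatFunc.algebraMap_ne_zero
    intro h
    have h2 := congrArg (fun p => coeff p 0) h
    simp at h2
    omega
  have hn' : (n : RatFunc ℂ) ≠ 0 := Nat.cast_ne_zero.2 (by omega)
  have h3 : algebraMap ℂ[X] (RatFunc ℂ) (C (n : ℂ) + C (a : ℂ) * X)
      = (n : RatFunc ℂ) + (a : RatFunc ℂ) * RatFunc.X := by
    rw [map_add, map_mul, RatFunc.algebraMap_X, RatFunc.algebraMap_C, RatFunc.algebraMap_C,
      map_natCast, map_natCast]
  rw [h3] at h1
  rw [fac, map_neg, map_div₀, map_div₀, map_one, map_natCast, map_natCast]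
  field_simp
  ring

/-- the value at `s = 0` -/
theorem germ_val {a : ℕ} {h : MP} {g : Option κ → MP} {a0 n0 a1 n1 : ℕ} {Z : RatFunc ℂ}
    (hZ : GermZeta fac 1 a h g a0 n0 a1 n1 Z) (hn0 : 1 ≤ n0) (hn1 : 1 ≤ n1) :
    Val Z (1 / (n0 * n1 : ℂ)) := by
  classical
  have htf : ∀ (a : ℕ) (t : Bool), Val (typeFactor fac a t) 1 := by
    intro a t
    rcases t with _ | _
    · have := Val_C 1
      rwa [map_one] at this
    · have := Val_fac a 1 le_rfl
      rwa [Nat.cast_one, div_one] at this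
  induction hZ with
  | unit h g a0 n0 a1 n1 hh t ht =>
    have := ((Val_fac a0 n0 hn0).mul (Val_fac a1 n1 hn1)).mul (htf a t)
    convert this using 1
    rw [mul_one, one_div_mul_one_div]
  | curveV h g a0 n0 mh mg hm q kh k hh hg h0 h1 hkh t ht =>
    have := ((Val_fac a0 n0 hn0).mul (Val_fac (mh + a * mg) 1 le_rfl)).mul (htf a t)
    convert this using 1
    rw [mul_one, one_div_mul_one_div]
  | curveU h g a1 n1 mh mg hm q kh k hh hg h0 h1 hkh t ht =>
    have := ((Val_fac a1 n1 hn1).mul (Val_fac (mh + a * mg) 1 le_rfl)).mul (htf a t)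
    convert this using 1
    rw [mul_one, one_div_mul_one_div, mul_comm]
  | blowup h g a0 n0 a1 n1 mh mg hm hc gc hI gI hhc hgc hhI hgI S h0S t hS Zc ZI hz0 hcS hZI
      ih0 ihc ihI =>
    have hc0 := ih0 (by omega) hn1
    have hcI := ihI hn0 (by omega)
    have hS1 : Val (∑ c ∈ S, Zc c) (∑ c ∈ S, if c = 0 then 1 / (((n0 + n1 : ℕ) : ℂ) * n1)
        else 1 / (((n0 + n1 : ℕ) : ℂ) * ((1 : ℕ) : ℂ))) := by
      refine Val.sum S fun c hc => ?_
      by_cases h : c = 0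
      · rw [if_pos h, h]
        exact hc0
      · rw [if_neg h]
        exact ihc c hc h (by omega) le_rfl
    have hE := Val_fac (a0 + a1 + (mh + a * mg)) (n0 + n1) (by omega)
    have hcard : Val (1 - (S.card : RatFunc ℂ)) (1 - (S.card : ℂ)) := by
      have := Val_C (1 - (S.card : ℂ))
      rwa [map_sub, map_one, map_natCast] at this
    have := (hcI.add hS1).add (hcard.mul (hE.mul (htf a t)))
    convert this using 1
    have hn0c : (n0 : ℂ) ≠ 0 := Nat.cast_ne_zero.2 (by omega)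
    have hn1c : (n1 : ℂ) ≠ 0 := Nat.cast_ne_zero.2 (by omega)
    have hnc : (n0 : ℂ) + n1 ≠ 0 := by
      have : ((n0 + n1 : ℕ) : ℂ) ≠ 0 := Nat.cast_ne_zero.2 (by omega)
      rwa [Nat.cast_add] at this
    have hsum : (∑ c ∈ S, if c = 0 then 1 / (((n0 + n1 : ℕ) : ℂ) * n1)
        else 1 / (((n0 + n1 : ℕ) : ℂ) * ((1 : ℕ) : ℂ)))
        = 1 / (((n0 + n1 : ℕ) : ℂ) * n1) + ((S.card : ℂ) - 1) * (1 / ((n0 + n1 : ℕ) : ℂ)) := by
      have h2 : ∀ c ∈ S, (if c = 0 then 1 / (((n0 + n1 : ℕ) : ℂ) * n1)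
          else 1 / (((n0 + n1 : ℕ) : ℂ) * ((1 : ℕ) : ℂ)))
          = (if c = 0 then 1 / (((n0 + n1 : ℕ) : ℂ) * n1) - 1 / ((n0 + n1 : ℕ) : ℂ) else 0)
            + 1 / ((n0 + n1 : ℕ) : ℂ) := by
        intro c _
        split_ifs
        · ring
        · rw [Nat.cast_one, mul_one, zero_add]
      rw [Finset.sum_congr rfl h2, Finset.sum_add_distrib, Finset.sum_ite_eq', if_pos h0S,
        Finset.sum_const, nsmul_eq_mul]
      ring
    rw [hsum]
    push_cast
    field_simp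
    ring

end Germ

section Lin

variable {κ : Type} [Fintype κ] [DecidableEq κ]

theorem tfac_eq (e : ℕ) : tfac e = facT e := by
  funext a n
  rfl

theorem fac_re (a n : ℕ) (hn : 1 ≤ n) (s : ℂ) (hs : 0 ≤ s.re) : fac a n ∈ Reg s := by
  refine fac_mem a n s fun h => ?_
  have h1 := congrArg Complex.re h
  rw [Complex.add_re, Complex.mul_re, Complex.natCast_re, Complex.natCast_re, Complex.natCast_im,
    zero_mul, sub_zero, Complex.zero_re] at h1
  have h2 : (1 : ℝ) ≤ n := by exact_mod_cast hn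
  have h3 : 0 ≤ (a : ℝ) * s.re := mul_nonneg (Nat.cast_nonneg a) hs
  linarith

theorem good_lin (h : MP) (f : Option κ → MP) (a : ℕ) (ha : 1 ≤ a) (hF : FF h f a ≠ 0)
    (P : Fin 2 → ℂ) (c : κ → ℂ) (h0 : MvPolynomial.eval (Sum.elim P c) (FF h f a) = 0)
    (Z : ℕ → RatFunc ℂ) (hZ : ∀ e, 1 ≤ e → PointZeta (tfac e) 1 h f a P c (Z e)) :
    Good (FF h f a) (Sum.elim P c) Z where
  ne := hF
  zero := h0
  re := by
    intro e he s hs
    have h1 := hZ e he
    refine germ_mem (Reg s).one_mem (fun a n hn => ?_) h1 le_rfl le_rfl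
    rw [tfac]
    split_ifs
    · exact fac_re a n hn s hs
    · exact (Reg s).zero_mem
  one := by
    have h1 := hZ 1 le_rfl
    rw [tfac_eq, facT_one] at h1
    obtain ⟨r, hr, e⟩ := germ_val h1 le_rfl le_rfl
    refine ⟨r, hr, ?_⟩
    rw [e]
    simp
  high := by
    intro e he H s hH hE
    have h1 := hZ e (by omega)
    rw [tfac_eq] at h1
    refine point_reg hF hH ha hE (zdata_tw e (by omega) s) ?_ h1
    by_cases hs : s = -1
    · right
      intro N hN
      rw [facT]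
      split_ifs with hd
      · refine fac_mem _ _ _ fun h2 => ?_
        have h3 := Nat.le_of_dvd (by omega) hd
        rw [hs] at h2
        push_cast at h2
        have h4 : (N : ℂ) = 1 := by linear_combination -h2
        have h5 : N = 1 := by exact_mod_cast h4
        omega
      · exact (Reg s).zero_mem
    · exact Or.inl hs
  low := by
    intro H s hH hE
    have h1 := hZ 1 le_rfl
    by_cases hs : s = -1
    · rw [hs] at hE ⊢
      rw [tfac_eq, facT_one] at h1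
      exact point_simple hF hH ha hE h1
    · rw [tfac_eq] at h1
      exact (Reg s).mul_mem (X1_mem s)
        (point_reg hF hH ha hE (zdata_tw 1 le_rfl s) (Or.inl hs) h1)

end Lin

end Pool.Agent.N103.V
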