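import Pool.Agent.N103.V.GoodA

set_option autoImplicit false
set_option linter.unusedSectionVars false
set_option linter.unusedVariables false
set_option linter.unusedSimpArgs false

/-! # The properties of the zeta functions: suspensions and powers -/

namespace Pool.Agent.N103.V

open Pool.Agent.W574.SM Pool.Agent.N103

open Polynomial

section Id

variable {K : Type} [Field K]

theorem id1 (x d q : K) (hd : d ≠ 0) (h : 1 + d * x ≠ 0) :
    (1 - (1 + (x + 1 / d) * q)) / (1 + d * x) = -(1 / d) * q := by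
  rw [div_eq_iff h]
  field_simp
  ring

theorem id2 (x d P : K) (hd : d ≠ 0) (h : 1 + d * x ≠ 0) :
    (1 - P) / (1 + d * x) - 1 / d * P
      = 1 / (1 + d * x) - (x + 1 / d + 1) * P * (1 / (1 + d * x)) := by
  field_simp
  ring

theorem id3 (x d P S : K) (hd : d ≠ 0) (h : 1 + d * x ≠ 0) (h1 : x + 1 ≠ 0) :
    (x + 1) * ((1 - P) / (1 + d * x) + P - x / (x + 1) / d * S)
      = ((x + 1) * ((1 - P) / (1 + d * x) + P) - x * (1 / d) * P) - x * (1 / d) * (S - P) := by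
  field_simp
  ring

theorem id4 (x d P : K) (hd : d ≠ 0) (h : 1 + d * x ≠ 0) :
    (x + 1) * ((1 - P) / (1 + d * x) + P) - x * (1 / d) * P
      = (x + 1) * (1 / (1 + d * x)) + x * (d - 1) * ((x + 1 / d + 1) * P) * (1 / (1 + d * x)) := by
  have h2 : (1 - P) / (1 + d * x) = (1 - P) * (1 + d * x)⁻¹ := div_eq_mul_inv _ _
  have h3 : (1 : K) / (1 + d * x) = (1 + d * x)⁻¹ := one_div _
  have h4 : (1 + d * x)⁻¹ * (1 + d * x) = 1 := inv_mul_cancel₀ h
  rw [h2, h3]
  generalize (1 + d * x)⁻¹ = y at *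
  field_simp
  linear_combination (-(P * (x * (d - 1) + d))) * h4

theorem id5 (x d P S : K) (hd : d ≠ 0) (h : 1 + d * x ≠ 0) (h1 : x + 1 ≠ 0) :
    (1 - P) / (1 + d * x) + P - x / (x + 1) / d * S
      = 1 + x * (-(1 - P) * (d * (1 / (1 + d * x))) - 1 / (x + 1) * (1 / d) * S) := by
  field_simp
  ring

end Id

section Susp

theorem eval_cz {σ : Type} (p : σ → ℂ) (H : MvPolynomial (Option σ) ℂ) :
    MvPolynomial.eval p (cz H) = MvPolynomial.eval (fun i : Option σ => i.elim 0 p) H := by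
  refine opt_ind (P := fun H => MvPolynomial.eval p (cz H)
    = MvPolynomial.eval (fun i : Option σ => i.elim 0 p) H) ?_ ?_ H
  · intro q r hq hr
    rw [cz_add, map_add, hq, hr, map_add]
  · intro k q
    rw [cz_mon, map_mul, map_pow, MvPolynomial.eval_X, MvPolynomial.eval_rename]
    have h1 : (fun i : Option σ => i.elim 0 p) ∘ some = p := rfl
    rw [h1]
    by_cases hk : k = 0
    · rw [if_pos hk, hk, pow_zero, mul_one]
    · rw [if_neg hk, map_zero]
      show 0 = _ * (0 : ℂ) ^ k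
      rw [zero_pow hk, mul_zero]

variable {d : ℕ}

theorem sbX (hd : 2 ≤ d) : sb 1 (1 / (d : ℂ)) (RatFunc.X) = RatFunc.X + 1 / (d : RatFunc ℂ) := by
  have h := sb_al one_ne_zero (1 / (d : ℂ)) X
  rw [RatFunc.algebraMap_X, X_comp, map_one, one_mul, map_add, RatFunc.algebraMap_X,
    RatFunc.algebraMap_C, map_div₀, map_one, map_natCast] at h
  exact h

theorem dX_mem (hd : 2 ≤ d) {s : ℂ} (hs : 1 + (d : ℂ) * s ≠ 0) :
    (1 / (1 + (d : RatFunc ℂ) * RatFunc.X) : RatFunc ℂ) ∈ Reg s := by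
  have h : algebraMap ℂ[X] (RatFunc ℂ) (1 + C (d : ℂ) * X) = 1 + (d : RatFunc ℂ) * RatFunc.X := by
    rw [map_add, map_mul, map_one, RatFunc.algebraMap_X, RatFunc.algebraMap_C, map_natCast]
  rw [one_div, ← h]
  apply inv_mem
  rw [eval_add, eval_mul, eval_C, eval_X, eval_one]
  exact hs

theorem dX_ne (d : ℕ) : (1 + (d : RatFunc ℂ) * RatFunc.X : RatFunc ℂ) ≠ 0 := by
  have h : algebraMap ℂ[X] (RatFunc ℂ) (1 + C (d : ℂ) * X) = 1 + (d : RatFunc ℂ) * RatFunc.X := by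
    rw [map_add, map_mul, map_one, RatFunc.algebraMap_X, RatFunc.algebraMap_C, map_natCast]
  rw [← h]
  apply RatFunc.algebraMap_ne_zero
  intro h2
  have h3 := congrArg (eval 0) h2
  simp at h3

theorem d_mem (hd : 2 ≤ d) (s : ℂ) : (1 / (d : RatFunc ℂ)) ∈ Reg s := by
  have := Reg_C s (1 / (d : ℂ))
  rwa [map_div₀, map_one, map_natCast] at this

/-- the term with `e ∣ d` -/
theorem Q_mem (hd : 2 ≤ d) {s : ℂ} {Z1 : RatFunc ℂ} (h1 : ∃ r ∈ Reg 0, Z1 = 1 + RatFunc.X * r)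
    (hs : 1 + (d : ℂ) * s = 0) :
    (1 - sb 1 (1 / d) Z1) / (1 + (d : RatFunc ℂ) * RatFunc.X) ∈ Reg s ∧ sb 1 (1 / d) Z1 ∈ Reg s := by
  obtain ⟨r, hr, rfl⟩ := h1
  have hdc : (d : ℂ) ≠ 0 := Nat.cast_ne_zero.2 (by omega)
  have hdr : (d : RatFunc ℂ) ≠ 0 := Nat.cast_ne_zero.2 (by omega)
  have hσ : (1 : ℂ) * s + 1 / d = 0 := by
    field_simp
    linear_combination hs
  have hr' : sb 1 (1 / (d : ℂ)) r ∈ Reg s := sb_mem _ (by rw [hσ]; exact hr)
  have e1 : sb 1 (1 / (d : ℂ)) (1 + RatFunc.X * r)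
      = 1 + (RatFunc.X + 1 / (d : RatFunc ℂ)) * sb 1 (1 / (d : ℂ)) r := by
    rw [sb_add one_ne_zero, sb_mul one_ne_zero, sb_one one_ne_zero, sbX hd]
  rw [e1]
  have e2 : (1 - (1 + (RatFunc.X + 1 / (d : RatFunc ℂ)) * sb 1 (1 / (d : ℂ)) r))
      / (1 + (d : RatFunc ℂ) * RatFunc.X) = - (1 / (d : RatFunc ℂ)) * sb 1 (1 / (d : ℂ)) r := by
    exact id1 _ _ _ hdr (dX_ne d)
  rw [e2]
  refine ⟨(Reg s).mul_mem ((Reg s).neg_mem (d_mem hd s)) hr', ?_⟩
  exact (Reg s).add_mem (Reg s).one_mem ((Reg s).mul_mem ((Reg s).add_mem (X_mem s) (d_mem hd s)) hr')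

variable {σ : Type} {G : MvPolynomial σ ℂ} {p : σ → ℂ} {Z : ℕ → RatFunc ℂ}

theorem re_sb (hd : 2 ≤ d) (hG : Good G p Z) {s : ℂ} (hs : 0 ≤ s.re) (m : ℕ) (hm : 1 ≤ m) :
    sb 1 (1 / d) (Z m) ∈ Reg s := by
  refine sb_mem _ (hG.re m hm _ ?_)
  have h1 : ((1 : ℂ) / d).re = 1 / d := by
    rw [one_div, ← Complex.ofReal_natCast, ← Complex.ofReal_inv, Complex.ofReal_re, one_div]
  rw [one_mul, Complex.add_re, h1]
  positivity

theorem re_dX (hd : 2 ≤ d) {s : ℂ} (hs : 0 ≤ s.re) : 1 + (d : ℂ) * s ≠ 0 := by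
  intro h
  have h1 := congrArg Complex.re h
  rw [Complex.add_re, Complex.mul_re, Complex.natCast_re, Complex.natCast_im, zero_mul, sub_zero,
    Complex.zero_re, Complex.one_re] at h1
  have h2 : 0 ≤ (d : ℝ) * s.re := mul_nonneg (Nat.cast_nonneg d) hs
  linarith

theorem susp_re (hd : 2 ≤ d) (hG : Good G p Z) {e : ℕ} (he : 1 ≤ e) {s : ℂ} (hs : 0 ≤ s.re) :
    suspZ d Z e ∈ Reg s := by
  have h1 := fun m (hm : 1 ≤ m) => re_sb hd hG hs m hm
  rw [suspZ]
  refine (Reg s).sub_mem ((Reg s).add_mem ?_ (h1 e he)) ((Reg s).mul_mem ?_ ?_)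
  · split_ifs
    · rw [div_eq_mul_one_div]
      exact (Reg s).mul_mem ((Reg s).sub_mem (Reg s).one_mem (h1 1 le_rfl)) (dX_mem hd (re_dX hd hs))
    · exact (Reg s).zero_mem
  · rw [div_eq_mul_one_div]
    refine (Reg s).mul_mem ?_ (d_mem hd s)
    split_ifs
    · rw [div_eq_mul_one_div]
      exact (Reg s).mul_mem (X_mem s) (X1_inv (re_ne hs))
    · exact (Reg s).one_mem
  · exact Subring.sum_mem _ fun i _ => Subring.sum_mem _ fun j _ => h1 _ (lcm_pos _ _)

/-- the properties at `s`, which is not a natural number -/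
theorem susp_pole (hd : 2 ≤ d) (hG : Good G p Z) (H : MvPolynomial (Option σ) ℂ) (s : ℂ)
    (hH : MvPolynomial.eval (fun i : Option σ => i.elim 0 p) H ≠ 0) (hE : Ev H (Fd d G) s)
    (hs : ∀ n : ℕ, s ≠ n) :
    (∀ e, 2 ≤ e → suspZ d Z e ∈ Reg s) ∧ (RatFunc.X + 1) * suspZ d Z 1 ∈ Reg s := by
  have hdc : (d : ℂ) ≠ 0 := Nat.cast_ne_zero.2 (by omega)
  have hdr : (d : RatFunc ℂ) ≠ 0 := Nat.cast_ne_zero.2 (by omega)
  have hE' := susp hd hs hE
  have hH' : MvPolynomial.eval p (cz H) ≠ 0 := by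
    rw [eval_cz]
    exact hH
  have hσ : (1 : ℂ) * s + 1 / d = s + 1 / d := by rw [one_mul]
  have hhigh : ∀ m, 2 ≤ m → sb 1 (1 / (d : ℂ)) (Z m) ∈ Reg s := fun m hm =>
    sb_mem _ (by rw [hσ]; exact hG.high m hm _ _ hH' hE')
  have hlow : (RatFunc.X + 1 / (d : RatFunc ℂ) + 1) * sb 1 (1 / (d : ℂ)) (Z 1) ∈ Reg s := by
    have h1 := hG.low _ _ hH' hE'
    rw [← hσ] at h1
    have h2 := sb_mem _ h1
    rwa [sb_mul one_ne_zero, sb_add one_ne_zero, sb_one one_ne_zero, sbX hd] at h2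
  set P := sb 1 (1 / (d : ℂ)) (Z 1) with hP
  have hdX := dX_ne d
  -- the two cases
  have hkey : (1 + (d : ℂ) * s ≠ 0 ∧ (1 / (1 + (d : RatFunc ℂ) * RatFunc.X) : RatFunc ℂ) ∈ Reg s) ∨
      ((1 - P) / (1 + (d : RatFunc ℂ) * RatFunc.X) ∈ Reg s ∧ P ∈ Reg s) := by
    by_cases h1 : 1 + (d : ℂ) * s = 0
    · right
      exact Q_mem hd hG.one h1
    · left
      exact ⟨h1, dX_mem hd h1⟩
  constructor
  · intro e he
    have hsplit := sum_split (d := d) (e := e) (by omega) (by omega) (Reg s)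
      (fun m => sb 1 (1 / (d : ℂ)) (Z m)) hhigh
    set S := ∑ i ∈ Finset.range d, ∑ j ∈ Finset.range d,
      sb 1 (1 / (d : ℂ)) (Z (Nat.lcm ((1 : ℚ) / e + (i : ℚ) / d).den ((j : ℚ) / d).den)) with hS
    rw [suspZ, if_neg (show ¬ e = 1 by omega), ← hS, ← hP]
    by_cases hed : e ∣ d
    · rw [if_pos hed] at hsplit ⊢
      have hT : (1 - P) / (1 + (d : RatFunc ℂ) * RatFunc.X) - 1 / (d : RatFunc ℂ) * P ∈ Reg s := by
        rcases hkey with ⟨_, h1⟩ | ⟨h1, h2⟩
        · have e1 : (1 - P) / (1 + (d : RatFunc ℂ) * RatFunc.X) - 1 / (d : RatFunc ℂ) * P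
              = 1 / (1 + (d : RatFunc ℂ) * RatFunc.X)
                - (RatFunc.X + 1 / (d : RatFunc ℂ) + 1) * P *
                  (1 / (1 + (d : RatFunc ℂ) * RatFunc.X)) := id2 _ _ _ hdr hdX
          rw [e1]
          exact (Reg s).sub_mem h1 ((Reg s).mul_mem hlow h1)
        · exact (Reg s).sub_mem h1 ((Reg s).mul_mem (d_mem hd s) h2)
      have e2 : (1 - P) / (1 + (d : RatFunc ℂ) * RatFunc.X) + sb 1 (1 / (d : ℂ)) (Z e)
          - 1 / (d : RatFunc ℂ) * S
          = ((1 - P) / (1 + (d : RatFunc ℂ) * RatFunc.X) - 1 / (d : RatFunc ℂ) * P)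
            + sb 1 (1 / (d : ℂ)) (Z e) - 1 / (d : RatFunc ℂ) * (S - P) := by
        ring
      rw [e2]
      exact (Reg s).sub_mem ((Reg s).add_mem hT (hhigh e he)) ((Reg s).mul_mem (d_mem hd s) hsplit)
    · rw [if_neg hed] at hsplit ⊢
      rw [sub_zero] at hsplit
      rw [zero_add]
      exact (Reg s).sub_mem (hhigh e he) ((Reg s).mul_mem (d_mem hd s) hsplit)
  · have hsplit := sum_split (d := d) (e := 1) (by omega) le_rfl (Reg s)
      (fun m => sb 1 (1 / (d : ℂ)) (Z m)) hhigh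
    set S := ∑ i ∈ Finset.range d, ∑ j ∈ Finset.range d,
      sb 1 (1 / (d : ℂ)) (Z (Nat.lcm ((1 : ℚ) / (1 : ℕ) + (i : ℚ) / d).den ((j : ℚ) / d).den))
      with hS
    rw [suspZ, if_pos rfl, if_pos (one_dvd d), ← hS, ← hP]
    rw [if_pos (one_dvd d)] at hsplit
    have hX1 := X1_ne
    have e2 : (RatFunc.X + 1) * ((1 - P) / (1 + (d : RatFunc ℂ) * RatFunc.X) + P
        - RatFunc.X / (RatFunc.X + 1) / (d : RatFunc ℂ) * S)
        = ((RatFunc.X + 1) * ((1 - P) / (1 + (d : RatFunc ℂ) * RatFunc.X) + P)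
            - RatFunc.X * (1 / (d : RatFunc ℂ)) * P)
          - RatFunc.X * (1 / (d : RatFunc ℂ)) * (S - P) := id3 _ _ _ _ hdr hdX hX1
    rw [e2]
    refine (Reg s).sub_mem ?_ ((Reg s).mul_mem ((Reg s).mul_mem (X_mem s) (d_mem hd s)) hsplit)
    rcases hkey with ⟨_, h1⟩ | ⟨h1, h2⟩
    · have e3 : (RatFunc.X + 1) * ((1 - P) / (1 + (d : RatFunc ℂ) * RatFunc.X) + P)
            - RatFunc.X * (1 / (d : RatFunc ℂ)) * P
          = (RatFunc.X + 1) * (1 / (1 + (d : RatFunc ℂ) * RatFunc.X))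
            + RatFunc.X * ((d : RatFunc ℂ) - 1) * ((RatFunc.X + 1 / (d : RatFunc ℂ) + 1) * P) *
              (1 / (1 + (d : RatFunc ℂ) * RatFunc.X)) := id4 _ _ _ hdr hdX
      rw [e3]
      refine (Reg s).add_mem ((Reg s).mul_mem (X1_mem s) h1) ((Reg s).mul_mem ((Reg s).mul_mem
        ((Reg s).mul_mem (X_mem s) ((Reg s).sub_mem (natCast_mem _ _) (Reg s).one_mem)) hlow) h1)
    · exact (Reg s).sub_mem ((Reg s).mul_mem (X1_mem s) ((Reg s).add_mem h1 h2))
        ((Reg s).mul_mem ((Reg s).mul_mem (X_mem s) (d_mem hd s)) h2)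

theorem good_susp (hd : 2 ≤ d) (hG : Good G p Z) :
    Good (Fd d G) (fun i : Option σ => i.elim 0 p) (suspZ d Z) where
  ne := Fd_ne hd
  zero := by
    rw [Fd, map_add, map_pow, MvPolynomial.eval_X, MvPolynomial.eval_rename]
    have h1 : (fun i : Option σ => i.elim 0 p) ∘ some = p := rfl
    rw [h1, hG.zero, add_zero]
    exact zero_pow (by omega)
  re := fun e he s hs => susp_re hd hG he hs
  one := by
    have h0 : (0 : ℝ) ≤ (0 : ℂ).re := le_of_eq Complex.zero_re.symm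
    have h1 := fun m (hm : 1 ≤ m) => re_sb hd hG h0 m hm
    have hS : (∑ i ∈ Finset.range d, ∑ j ∈ Finset.range d,
      sb 1 (1 / (d : ℂ)) (Z (Nat.lcm ((1 : ℚ) / (1 : ℕ) + (i : ℚ) / d).den ((j : ℚ) / d).den)))
        ∈ Reg 0 :=
      Subring.sum_mem _ fun i _ => Subring.sum_mem _ fun j _ => h1 _ (lcm_pos _ _)
    set S := ∑ i ∈ Finset.range d, ∑ j ∈ Finset.range d,
      sb 1 (1 / (d : ℂ)) (Z (Nat.lcm ((1 : ℚ) / (1 : ℕ) + (i : ℚ) / d).den ((j : ℚ) / d).den))
      with hSd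
    have hP := h1 1 le_rfl
    rw [suspZ, if_pos rfl, if_pos (one_dvd d), ← hSd]
    set P := sb 1 (1 / (d : ℂ)) (Z 1) with hPd
    have hd0 : (d : RatFunc ℂ) ≠ 0 := Nat.cast_ne_zero.2 (by omega)
    have hdX := dX_ne d
    have hX1 := X1_ne
    refine ⟨-(1 - P) * ((d : RatFunc ℂ) * (1 / (1 + (d : RatFunc ℂ) * RatFunc.X)))
      - 1 / (RatFunc.X + 1) * (1 / (d : RatFunc ℂ)) * S, ?_, ?_⟩
    · refine (Reg 0).sub_mem ((Reg 0).mul_mem ((Reg 0).neg_mem ((Reg 0).sub_mem (Reg 0).one_mem hP))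
        ((Reg 0).mul_mem (natCast_mem _ _) (dX_mem hd (re_dX hd h0)))) ((Reg 0).mul_mem
        ((Reg 0).mul_mem (X1_inv (re_ne h0)) (d_mem hd 0)) hS)
    · exact id5 _ _ _ _ hd0 hdX hX1
  high := by
    intro e he H s hH hE
    by_cases hs : ∃ n : ℕ, s = n
    · obtain ⟨n, rfl⟩ := hs
      exact susp_re hd hG (by omega) (by rw [Complex.natCast_re]; positivity)
    · push Not at hs
      exact (susp_pole hd hG H s hH hE hs).1 e he
  low := by
    intro H s hH hE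
    by_cases hs : ∃ n : ℕ, s = n
    · obtain ⟨n, rfl⟩ := hs
      exact (Reg _).mul_mem (X1_mem _)
        (susp_re hd hG le_rfl (by rw [Complex.natCast_re]; positivity))
    · push Not at hs
      exact (susp_pole hd hG H s hH hE hs).2

end Susp

section Pow

variable {σ : Type} {G : MvPolynomial σ ℂ} {p : σ → ℂ} {Z : ℕ → RatFunc ℂ}

theorem ev_pow {k : ℕ} (hk : 1 ≤ k) {H : MvPolynomial σ ℂ} {s : ℂ} (hE : Ev H (G ^ k) s) :
    Ev H G (k * s) := by
  intro L _ _ φ D Gi hD hG U h1 h2 h3 h4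
  obtain ⟨m, rfl⟩ : ∃ m, k = m + 1 := ⟨k - 1, by omega⟩
  refine hE L φ D (Gi ^ (m + 1)) hD (by rw [map_pow, ← mul_pow, hG, one_pow]) U h1 ?_ ?_ ?_
  · intro i x hx
    have h5 := h2 i x hx
    have h6 : nab φ D (G ^ (m + 1)) (Gi ^ (m + 1)) s i x = nab φ D G Gi ((m + 1 : ℕ) * s) i x := by
      rw [nab_apply, nab_apply, map_pow, Derivation.leibniz_pow, Nat.add_sub_cancel, smul_eq_mul,
        nsmul_eq_mul, map_mul, map_natCast]
      have h7 : φ G ^ m * Gi ^ m = 1 := by rw [← mul_pow, hG, one_pow]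
      linear_combination (algebraMap ℂ L s * ((m + 1 : ℕ) : L) * D i (φ G) * Gi * x) * h7
    rw [h6]
    exact h5
  · rw [map_pow, pow_succ, ← map_pow]
    exact mulU h1 _ _ h3
  · intro i
    rw [Derivation.leibniz_pow, Nat.add_sub_cancel, smul_eq_mul, map_nsmul, map_mul]
    exact U.smul_of_tower_mem (m + 1) (mulU h1 _ _ (h4 i))

/-- the root `-1 / k` of `G ^ k` -/
theorem pow_contra {k : ℕ} (hk : 2 ≤ k) (hG0 : G ≠ 0) (hG : MvPolynomial.eval p G = 0)
    {H : MvPolynomial σ ℂ} (hH : MvPolynomial.eval p H ≠ 0) (hE : Ev H (G ^ k) (-1 / (k : ℂ))) :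
    False := by
  classical
  have hM : Submonoid.powers G ≤ nonZeroDivisors (MvPolynomial σ ℂ) :=
    powers_le_nonZeroDivisors_of_noZeroDivisors hG0
  have hinj : Function.Injective (algebraMap (MvPolynomial σ ℂ) (Localization.Away G)) :=
    IsLocalization.injective _ hM
  set jj := algebraMap (MvPolynomial σ ℂ) (Localization.Away G) with hal
  have hder : ∀ i : σ, ∃ E : Derivation ℂ (Localization.Away G)
      (Localization.Away G), ∀ x, E (jj x) = jj (MvPolynomial.pderiv i x) := fun i =>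
    exists_locDer (B := Localization.Away G) (Submonoid.powers G) (MvPolynomial.pderiv i)
  choose D hD using hder
  obtain ⟨Gi, hGi⟩ := (IsLocalization.Away.algebraMap_isUnit (S := Localization.Away G) G).exists_right_inv
  have hGi' : jj G * Gi = 1 := hGi
  set φ : MvPolynomial σ ℂ →ₐ[ℂ] Localization.Away G :=
    IsScalarTower.toAlgHom ℂ (MvPolynomial σ ℂ) (Localization.Away G) with hφ
  have hφa : ∀ x, φ x = jj x := fun x => rfl
  have halg : ∀ z : ℂ, algebraMap ℂ (Localization.Away G) z = jj (MvPolynomial.C z) := by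
    intro z
    rw [IsScalarTower.algebraMap_apply ℂ (MvPolynomial σ ℂ) (Localization.Away G)]
    rfl
  obtain ⟨m, rfl⟩ : ∃ m, k = m + 2 := ⟨k - 2, by omega⟩
  have hkc : ((m + 2 : ℕ) : ℂ) ≠ 0 := Nat.cast_ne_zero.2 (by omega)
  have hsk : algebraMap ℂ (Localization.Away G) (-1 / ((m + 2 : ℕ) : ℂ))
      * ((m + 2 : ℕ) : Localization.Away G) = -1 := by
    have h1 : ((m + 2 : ℕ) : Localization.Away G)
        = algebraMap ℂ (Localization.Away G) ((m + 2 : ℕ) : ℂ) := by rw [map_natCast]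
    rw [h1, ← map_mul, div_mul_cancel₀ _ hkc, map_neg, map_one]
  have hne : (-1 / ((m + 2 : ℕ) : ℂ)) ≠ -1 := by
    intro h0
    rw [div_eq_iff hkc] at h0
    have h1 : ((m + 2 : ℕ) : ℂ) = 1 := by linear_combination h0
    have h2 : m + 2 = 1 := by exact_mod_cast h1
    omega
  let U : Submodule ℂ (Localization.Away G) :=
    { carrier := {x | ∃ n, x = jj G * jj n}
      add_mem' := by
        rintro x y ⟨n1, rfl⟩ ⟨n2, rfl⟩
        exact ⟨n1 + n2, by rw [map_add]; ring⟩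
      zero_mem' := ⟨0, by rw [map_zero, mul_zero]⟩
      smul_mem' := by
        rintro z x ⟨n1, rfl⟩
        refine ⟨MvPolynomial.C z * n1, ?_⟩
        rw [Algebra.smul_def, halg, map_mul]
        ring }
  have hmem := hE.mem φ D (Gi ^ (m + 2)) (fun i x => hD i x)
    (by rw [map_pow, ← mul_pow, hφa, hGi', one_pow]) U
    (by
      rintro i x ⟨n, rfl⟩
      exact ⟨MvPolynomial.X i * n, by rw [hφa, map_mul]; ring⟩)
    (by
      rintro i x ⟨n, rfl⟩
      refine ⟨MvPolynomial.pderiv i n, ?_⟩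
      rw [nab_apply, map_pow, hφa, Derivation.leibniz, Derivation.leibniz_pow, smul_eq_mul,
        smul_eq_mul, smul_eq_mul, nsmul_eq_mul, hD i n]
      have h7 : jj G ^ (m + 2) * Gi ^ (m + 2) = 1 := by rw [← mul_pow, hGi', one_pow]
      have h8 : m + 2 - 1 = m + 1 := by omega
      rw [h8]
      linear_combination (algebraMap ℂ (Localization.Away G) (-1 / ((m + 2 : ℕ) : ℂ))
        * ((m + 2 : ℕ) : Localization.Away G) * D i (jj G) * jj n) * h7
        + (D i (jj G) * jj n) * hsk)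
    (by
      refine ⟨G ^ (m + 1), ?_⟩
      rw [map_pow, hφa, map_pow]
      ring)
    (Or.inl hne)
  obtain ⟨n, hn⟩ := hmem
  rw [hφa, ← map_mul] at hn
  have h9 := hinj hn
  apply hH
  rw [h9, map_mul, hG, zero_mul]

theorem good_pow {k : ℕ} (hk : 1 ≤ k) (hG : Good G p Z) :
    Good (G ^ k) p (fun e => sb k 0 (Z (e / Nat.gcd e k))) where
  ne := pow_ne_zero _ hG.ne
  zero := by rw [map_pow, hG.zero, zero_pow (by omega)]
  re := by
    intro e he s hs
    refine sb_mem _ (hG.re _ ?_ _ ?_)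
    · exact Nat.div_pos (Nat.le_of_dvd (by omega) (Nat.gcd_dvd_left e k))
        (Nat.gcd_pos_of_pos_left _ (by omega))
    · rw [add_zero, Complex.mul_re, Complex.natCast_re, Complex.natCast_im, zero_mul, sub_zero]
      exact mul_nonneg (Nat.cast_nonneg k) hs
  one := by
    have hkc : (k : ℂ) ≠ 0 := Nat.cast_ne_zero.2 (by omega)
    obtain ⟨r, hr, e⟩ := hG.one
    refine ⟨(k : RatFunc ℂ) * sb k 0 r, (Reg 0).mul_mem (natCast_mem _ _)
      (sb_mem _ (by rw [mul_zero, add_zero]; exact hr)), ?_⟩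
    have h1 := sb_al hkc 0 X
    rw [RatFunc.algebraMap_X, X_comp, map_add, map_mul, RatFunc.algebraMap_X,
      RatFunc.algebraMap_C, RatFunc.algebraMap_C, map_zero, add_zero, map_natCast] at h1
    simp only [Nat.gcd_one_left, Nat.div_one]
    rw [e, sb_add hkc, sb_mul hkc, sb_one hkc, h1]
    ring
  high := by
    intro e he H s hH hE
    have hkc : (k : ℂ) ≠ 0 := Nat.cast_ne_zero.2 (by omega)
    have h1 : 1 ≤ e / Nat.gcd e k := Nat.div_pos (Nat.le_of_dvd (by omega) (Nat.gcd_dvd_left e k))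
        (Nat.gcd_pos_of_pos_left _ (by omega))
    refine sb_mem _ ?_
    rw [add_zero]
    by_cases h2 : 2 ≤ e / Nat.gcd e k
    · exact hG.high _ h2 H _ hH (ev_pow hk hE)
    · by_cases h3 : (k : ℂ) * s = -1
      · exfalso
        have h4 : e / Nat.gcd e k = 1 := by omega
        have h5 : Nat.gcd e k = e := by
          have h6 := Nat.div_mul_cancel (Nat.gcd_dvd_left e k)
          rw [h4, one_mul] at h6
          exact h6
        have h6 : e ∣ k := h5 ▸ Nat.gcd_dvd_right e k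
        have h7 := Nat.le_of_dvd (by omega) h6
        refine pow_contra (k := k) (by omega) hG.ne hG.zero hH ?_
        rw [← h3, mul_div_cancel_left₀ _ hkc]
        exact hE
      · exact hG.all h1 hH (ev_pow hk hE) h3
  low := by
    intro H s hH hE
    have hkc : (k : ℂ) ≠ 0 := Nat.cast_ne_zero.2 (by omega)
    simp only [Nat.gcd_one_left, Nat.div_one]
    by_cases hk1 : k = 1
    · subst hk1
      have h2 := hG.low H _ hH (ev_pow hk hE)
      have h3 : ((1 : ℕ) : ℂ) * s = ((1 : ℕ) : ℂ) * s + 0 := by rw [add_zero]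
      rw [h3] at h2
      have h4 := sb_mem _ h2
      have h1 := sb_al hkc 0 (X + 1)
      rw [X1_eq] at h1
      rw [sb_mul hkc, h1] at h4
      simpa using h4
    · refine (Reg s).mul_mem (X1_mem s) (sb_mem _ ?_)
      rw [add_zero]
      refine hG.all le_rfl hH (ev_pow hk hE) fun h3 => ?_
      refine pow_contra (k := k) (by omega) hG.ne hG.zero hH ?_
      rw [← h3, mul_div_cancel_left₀ _ hkc]
      exact hE

end Pow

end Pool.Agent.N103.V
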