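import Pool.Agent.N103.V.GoodB

set_option autoImplicit false
set_option linter.unusedSectionVars false
set_option linter.unusedVariables false
set_option linter.unusedSimpArgs false

/-! # The theorems on iterated suspensions -/

namespace Pool.Agent.N103.V

open Pool.Agent.W574.SM Pool.Agent.N103 Pool.Agent.H628R4.TP

open Polynomial

theorem sus_good {σ : Type} {F : MvPolynomial σ ℂ} {p : σ → ℂ} {Z : ℕ → RatFunc ℂ}
    (hZ : SusZeta σ F p Z) : Good F p Z := by
  induction hZ with
  | smooth F p h0 i h1 => exact good_smooth F p h0 i h1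
  | lin h f a ha hF P c h0 Z hZ => exact good_lin h f a ha hF P c h0 Z hZ
  | susp d hd G p Z hG ih => exact good_susp hd ih
  | pow k hk G p Z hG ih => exact good_pow hk ih

/-- the root `-1` -/
theorem root_minus_one {σ : Type} {F H : MvPolynomial σ ℂ} {p : σ → ℂ} {b : ℂ[X]} (hF0 : F ≠ 0)
    (hF : MvPolynomial.eval p F = 0) (hH : MvPolynomial.eval p H ≠ 0) (hb : HEq H F b) :
    b.eval (-1) = 0 := by
  classical
  by_contra hne
  have hM : Submonoid.powers F ≤ nonZeroDivisors (MvPolynomial σ ℂ) :=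
    powers_le_nonZeroDivisors_of_noZeroDivisors hF0
  have hinj : Function.Injective (algebraMap (MvPolynomial σ ℂ) (Localization.Away F)) :=
    IsLocalization.injective _ hM
  set jj := algebraMap (MvPolynomial σ ℂ) (Localization.Away F) with hal
  have hder : ∀ i : σ, ∃ E : Derivation ℂ (Localization.Away F)
      (Localization.Away F), ∀ x, E (jj x) = jj (MvPolynomial.pderiv i x) := fun i =>
    exists_locDer (B := Localization.Away F) (Submonoid.powers F) (MvPolynomial.pderiv i)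
  choose D hD using hder
  obtain ⟨Gi, hGi⟩ := (IsLocalization.Away.algebraMap_isUnit (S := Localization.Away F) F).exists_right_inv
  have hGi' : jj F * Gi = 1 := hGi
  set φ : MvPolynomial σ ℂ →ₐ[ℂ] Localization.Away F :=
    IsScalarTower.toAlgHom ℂ (MvPolynomial σ ℂ) (Localization.Away F) with hφ
  have hφa : ∀ x, φ x = jj x := fun x => rfl
  have halg : ∀ z : ℂ, algebraMap ℂ (Localization.Away F) z = jj (MvPolynomial.C z) := by
    intro z
    rw [IsScalarTower.algebraMap_apply ℂ (MvPolynomial σ ℂ) (Localization.Away F)]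
    rfl
  let U : Submodule ℂ (Localization.Away F) :=
    { carrier := {x | ∃ n, x = jj F * jj n}
      add_mem' := by
        rintro x y ⟨n1, rfl⟩ ⟨n2, rfl⟩
        exact ⟨n1 + n2, by rw [map_add]; ring⟩
      zero_mem' := ⟨0, by rw [map_zero, mul_zero]⟩
      smul_mem' := by
        rintro z x ⟨n1, rfl⟩
        refine ⟨MvPolynomial.C z * n1, ?_⟩
        rw [Algebra.smul_def, halg, map_mul]
        ring }
  have hmem := mem_of_stable φ D F Gi (-1) (fun i x => hD i x) hGi' hF0 H b hb U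
    (by
      rintro i x ⟨n, rfl⟩
      exact ⟨MvPolynomial.X i * n, by rw [hφa, map_mul]; ring⟩)
    (by
      rintro i x ⟨n, rfl⟩
      refine ⟨MvPolynomial.pderiv i n, ?_⟩
      rw [nab_apply, hφa, Derivation.leibniz, smul_eq_mul, smul_eq_mul, hD i n, map_neg, map_one]
      linear_combination (- D i (jj F) * jj n) * hGi')
    ⟨1, by rw [map_one, mul_one]; rfl⟩
  obtain ⟨n, hn⟩ := hmem
  have h1 : jj (MvPolynomial.C (b.eval (-1)) * H) = jj (F * n) := by
    rw [map_mul, map_mul, ← halg, ← hn]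
    rfl
  have h2 := congrArg (MvPolynomial.eval p) (hinj h1)
  rw [map_mul, map_mul, MvPolynomial.eval_C, hF, zero_mul] at h2
  exact mul_ne_zero hne hH h2

theorem pole_root {σ : Type} {F H : MvPolynomial σ ℂ} {p : σ → ℂ} {Z : ℕ → RatFunc ℂ}
    (hZ : SusZeta σ F p Z) {b : ℂ[X]} (hb : HEq H F b) (hH : MvPolynomial.eval p H ≠ 0)
    {e : ℕ} (he : 1 ≤ e) {s : ℂ} (hs : b.eval s ≠ 0) : Z e ∈ Reg s := by
  have hG := sus_good hZ
  refine hG.all he hH (Ev_of_heq hG.ne hb hs) ?_
  rintro rfl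
  exact hs (root_minus_one hG.ne hG.zero hH hb)

/-- **The local theorem.** -/
theorem sus_local {σ : Type} [Finite σ] (F : MvPolynomial σ ℂ) (Z : ℕ → RatFunc ℂ)
    (hZ : SusZeta σ F 0 Z) (b : ℂ[X]) (hb : IsLocalBFunction F b) (e : ℕ) (he : 1 ≤ e) (s : ℂ)
    (hs : (Z e).denom.eval s = 0) : b.eval s = 0 := by
  by_contra hne
  obtain ⟨H, hH, hHb⟩ := heq_of_local F (sus_good hZ).ne b hb
  exact Reg_denom s _ (pole_root hZ hHb (by rw [MvPolynomial.eval_zero]; exact hH) he hne) hs

/-- **The global theorem.** -/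
theorem sus_global {σ : Type} (F : MvPolynomial σ ℂ) (b : ℂ[X]) (hb : IsBFunction F b) (e : ℕ)
    (he : 1 ≤ e) {ι : Type} [Fintype ι] (χ : ι → ℤ) (p : ι → σ → ℂ) (Z : ι → ℕ → RatFunc ℂ)
    (hZ : ∀ i, SusZeta σ F (p i) (Z i)) (χ0 : ℤ) (s : ℂ)
    (hs : ((χ0 : RatFunc ℂ) + ∑ i, (χ i : RatFunc ℂ) * Z i e).denom.eval s = 0) :
    b.eval s = 0 := by
  by_contra hne
  refine Reg_denom s _ ?_ hs
  refine (Reg s).add_mem (intCast_mem _ _) (Subring.sum_mem _ fun i _ => ?_)
  exact (Reg s).mul_mem (intCast_mem _ _)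
    (pole_root (hZ i) (heq_of_bfun F b hb) (by rw [map_one]; exact one_ne_zero) he hne)

end Pool.Agent.N103.V
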