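import Pool.Agent.N103.V.Leaf
import Pool.Agent.N103.NodeA

set_option autoImplicit false
set_option linter.unusedSectionVars false
set_option linter.unusedVariables false
set_option linter.unusedSimpArgs false

/-! # The poles of the contribution of a point -/

namespace Pool.Agent.N103.V

open Pool.Agent.W574.SM Pool.Agent.N103

open Polynomial

section Node

variable {κ : Type} [Fintype κ] [DecidableEq κ]

variable (h : MP) (f : Option κ → MP) (a : ℕ) (c : κ → ℂ) (Pt : Fin 2 → ℂ)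

/-- the induction hypothesis at a node -/
structure InvE (tp : Prop) (s0 : ℂ) (h' : MP) (g : Option κ → MP) (a0 n0 a1 n1 : ℕ) : Prop where
  geom : Nonempty (GeomD h f a c Pt h' g a0 n0 a1 n1)
  hn0 : 1 ≤ n0
  hn1 : 1 ≤ n1
  hz0 : a0 = 0 → n0 = 1
  hz1 : a1 = 0 → n1 = 1
  hJ1 : ∀ mh mg, IsMult (fun _ : Unit => h') mh → IsMult g mg →
    (n0 - 1) * (mh + a * mg) ≤ a0 ∧ (n1 - 1) * (mh + a * mg) ≤ a1
  hJ2 : 0 < a0 → (n0 - 1) * a1 < a0 * n1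
  hJ2' : 0 < a1 → (n1 - 1) * a0 < a1 * n0
  hH0 : (n0 : ℂ) + a0 * s0 = 0 → ∀ μ, Ord0 (fam (t0 g) a h' g) μ →
    (n1 : ℂ) + s0 * ((a1 + μ : ℕ) : ℂ) ≠ 0
  hH1 : (n1 : ℂ) + a1 * s0 = 0 → ∀ μ, Ord1 (fam (t1 g) a h' g) μ →
    (n0 : ℂ) + s0 * ((a0 + μ : ℕ) : ℂ) ≠ 0
  hT0 : (n0 : ℂ) + a0 * s0 = 0 → t0 g = true → tp
  hT1 : (n1 : ℂ) + a1 * s0 = 0 → t1 g = true → tp

variable {R : Type} [CommRing R]

variable {h f a c Pt}

theorem tfm {D : Subring R} {Φ : ℕ → ℕ → R} (t : Bool) (ht : t = true → Φ a 1 ∈ D) :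
    typeFactor Φ a t ∈ D := by
  rcases t with _ | _
  · exact D.one_mem
  · exact ht rfl

variable {H : MvPolynomial (Fin 2 ⊕ κ) ℂ} {s0 : ℂ} {D : Subring R} {Φ : ℕ → ℕ → R} {l : R}

theorem mem_of_mult {N : ℕ} (hN : 1 ≤ N) (hD : ZData D s0 Φ l)
    (hS : s0 ≠ -1 ∨ ∀ N : ℕ, 1 ≤ N → Φ N 1 ∈ D) (h : 2 ≤ N → s0 = -1 / (N : ℂ) → False) :
    Φ N 1 ∈ D := by
  by_cases h1 : (1 : ℂ) + N * s0 = 0
  · have hNc : (N : ℂ) ≠ 0 := Nat.cast_ne_zero.2 (by omega)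
    have h2 : s0 = -1 / (N : ℂ) := by
      rw [eq_div_iff hNc]
      linear_combination h1
    by_cases h3 : 2 ≤ N
    · exact (h h3 h2).elim
    · have h4 : N = 1 := by omega
      rcases hS with hS | hS
      · exfalso
        apply hS
        rw [h2, h4]
        norm_num
      · exact hS N hN
  · exact hD.reg N 1 le_rfl (by rw [Nat.cast_one]; exact h1)

/-- the type at a point -/
theorem type_D (hF : FF h f a ≠ 0) (hH : MvPolynomial.eval (Sum.elim Pt c) H ≠ 0) (ha : 1 ≤ a)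
    (hE : Ev H (FF h f a) s0) (hD : ZData D s0 Φ l)
    (hS : s0 ≠ -1 ∨ ∀ N : ℕ, 1 ≤ N → Φ N 1 ∈ D)
    {h' : MP} {g : Option κ → MP} {a0 n0 a1 n1 : ℕ}
    (G : GeomD h f a c Pt h' g a0 n0 a1 n1) (x : MP) (hx : x ≠ 0) (hh' : h' ≠ 0)
    (k : Option κ → MP) (hg : ∀ j, g j = x * k j) {t : Bool} (ht : HasType k t) :
    t = true → Φ a 1 ∈ D := by
  rintro rfl
  have h1 : MvPolynomial.constantCoeff (k none) = 0 ∧ ∃ j,
      MvPolynomial.constantCoeff (k (some j)) ≠ 0 := ht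
  obtain ⟨h2, j, hj⟩ := h1
  exact mem_of_mult ha hD hS fun h3 h4 =>
    typeH_ne hF hH h3 (by rw [← h4]; exact hE) G x hx hh' k hg h2 j hj

/-- the leaf `unit` -/
theorem good_unit (hF : FF h f a ≠ 0)
    (hH : MvPolynomial.eval (Sum.elim Pt c) H ≠ 0) (ha : 1 ≤ a) (hE : Ev H (FF h f a) s0)
    (hD : ZData D s0 Φ l) (hS : s0 ≠ -1 ∨ ∀ N : ℕ, 1 ≤ N → Φ N 1 ∈ D) {h' : MP} {g : Option κ → MP} {a0 n0 a1 n1 : ℕ}
    (inv : InvE h f a c Pt (Φ a 1 ∈ D) s0 h' g a0 n0 a1 n1) (hh : MvPolynomial.constantCoeff h' ≠ 0) (t : Bool)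
    (ht : HasType g t) :
    GoodA a D s0 Φ h' g a0 n0 a1 n1 (Φ a0 n0 * Φ a1 n1 * typeFactor Φ a t) := by
  obtain ⟨G⟩ := inv.geom
  have hh' : h' ≠ 0 := fun h => hh (by rw [h, map_zero])
  have htf : typeFactor Φ a t ∈ D := tfm t
    (type_D hF hH ha hE hD hS G 1 one_ne_zero hh' g (fun j => (one_mul _).symm) ht)
  by_cases hA0 : (n0 : ℂ) + a0 * s0 = 0
  · obtain ⟨hA1, hc⟩ := leaf_unit hF hH ha G inv.hn0 inv.hn1 inv.hz0 inv.hz1 inv.hJ2' s0 hE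
      inv.hH0 hA0 hh t ht Φ hD.one
    refine ⟨Φ a1 n1 * typeFactor Φ a t, D.mul_mem (hD.reg a1 n1 inv.hn1 hA1) htf, 0, D.zero_mem,
      fun _ => hc, fun h => absurd h hA1, ?_⟩
    have : Φ a0 n0 * Φ a1 n1 * typeFactor Φ a t - Φ a1 n1 * typeFactor Φ a t * Φ a0 n0
        - 0 * Φ a1 n1 = 0 := by ring
    rw [this]
    exact D.zero_mem
  · by_cases hA1 : (n1 : ℂ) + a1 * s0 = 0
    · obtain ⟨_, hc⟩ := leaf_unit hF hH ha G.swap inv.hn1 inv.hn0 inv.hz1 inv.hz0 inv.hJ2 s0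
        hE (fun hA μ hμ => by
          rw [t0_sw] at hμ
          exact inv.hH1 hA μ (Ord_sw' hμ)) hA1 (by rwa [cc_sw]) t (HasType_sw ht) Φ hD.one
      refine ⟨0, D.zero_mem, Φ a0 n0 * typeFactor Φ a t,
        D.mul_mem (hD.reg a0 n0 inv.hn0 hA0) htf, fun h => absurd h hA0, fun _ μ hμ => ?_, ?_⟩
      · have h1 := hc μ (by rw [t0_sw]; exact Ord_sw hμ)
        rw [t0_sw] at h1
        exact h1
      · have : Φ a0 n0 * Φ a1 n1 * typeFactor Φ a t - 0 * Φ a0 n0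
            - Φ a0 n0 * typeFactor Φ a t * Φ a1 n1 = 0 := by ring
        rw [this]
        exact D.zero_mem
    · refine ⟨0, D.zero_mem, 0, D.zero_mem, fun h => absurd h hA0, fun h => absurd h hA1, ?_⟩
      rw [zero_mul, zero_mul, sub_zero, sub_zero]
      exact D.mul_mem (D.mul_mem (hD.reg a0 n0 inv.hn0 hA0) (hD.reg a1 n1 inv.hn1 hA1)) htf

/-- the leaf `curveV` -/
theorem good_curveV (hF : FF h f a ≠ 0)
    (hH : MvPolynomial.eval (Sum.elim Pt c) H ≠ 0) (ha : 1 ≤ a) (hE : Ev H (FF h f a) s0)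
    (hD : ZData D s0 Φ l) (hS : s0 ≠ -1 ∨ ∀ N : ℕ, 1 ≤ N → Φ N 1 ∈ D) {h' : MP} {g : Option κ → MP} {a0 n0 : ℕ}
    (inv : InvE h f a c Pt (Φ a 1 ∈ D) s0 h' g a0 n0 0 1) (mh mg : ℕ) (hm : 1 ≤ mh + a * mg) (q kh : MP)
    (k : Option κ → MP) (hh : h' = q ^ mh * kh) (hg : ∀ j, g j = q ^ mg * k j)
    (h0 : MvPolynomial.constantCoeff q = 0)
    (h1 : MvPolynomial.constantCoeff (MvPolynomial.pderiv 1 q) ≠ 0)
    (hkh : MvPolynomial.constantCoeff kh ≠ 0) (t : Bool) (ht : HasType k t) :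
    GoodA a D s0 Φ h' g a0 n0 0 1 (Φ a0 n0 * Φ (mh + a * mg) 1 * typeFactor Φ a t) := by
  obtain ⟨G⟩ := inv.geom
  have hq : q ≠ 0 := by
    rintro rfl
    rw [map_zero, map_zero] at h1
    exact h1 rfl
  have hkh0 : kh ≠ 0 := fun h => hkh (by rw [h, map_zero])
  have hh' : h' ≠ 0 := by rw [hh]; exact mul_ne_zero (pow_ne_zero _ hq) hkh0
  have htf : typeFactor Φ a t ∈ D := tfm t
    (type_D hF hH ha hE hD hS G (q ^ mg) (pow_ne_zero _ hq) hh' k hg ht)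
  obtain ⟨j, hj⟩ := HasType_some ht
  have hfm : Φ (mh + a * mg) 1 ∈ D := mem_of_mult hm hD hS fun h3 h4 =>
    curve_ne hF hH G mh mg h3 (by rw [← h4]; exact hE) q kh k hh hg h0 h1 hkh j hj
  have hA1 : ((1 : ℕ) : ℂ) + ((0 : ℕ) : ℂ) * s0 ≠ 0 := by simp
  by_cases hA0 : (n0 : ℂ) + a0 * s0 = 0
  · have hc := leaf_curve hF hH ha G inv.hn0 inv.hz0 s0 hE hA0 mh mg hm q kh k hh hg h0 h1 hkh
      t ht Φ
    refine ⟨Φ (mh + a * mg) 1 * typeFactor Φ a t, D.mul_mem hfm htf, 0, D.zero_mem,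
      fun _ => hc, fun h => absurd h hA1, ?_⟩
    have : Φ a0 n0 * Φ (mh + a * mg) 1 * typeFactor Φ a t
        - Φ (mh + a * mg) 1 * typeFactor Φ a t * Φ a0 n0 - 0 * Φ 0 1 = 0 := by ring
    rw [this]
    exact D.zero_mem
  · refine ⟨0, D.zero_mem, 0, D.zero_mem, fun h => absurd h hA0, fun h => absurd h hA1, ?_⟩
    rw [zero_mul, zero_mul, sub_zero, sub_zero]
    exact D.mul_mem (D.mul_mem (hD.reg a0 n0 inv.hn0 hA0) hfm) htf

/-- the leaf `curveU` -/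
theorem good_curveU (hF : FF h f a ≠ 0)
    (hH : MvPolynomial.eval (Sum.elim Pt c) H ≠ 0) (ha : 1 ≤ a) (hE : Ev H (FF h f a) s0)
    (hD : ZData D s0 Φ l) (hS : s0 ≠ -1 ∨ ∀ N : ℕ, 1 ≤ N → Φ N 1 ∈ D) {h' : MP} {g : Option κ → MP} {a1 n1 : ℕ}
    (inv : InvE h f a c Pt (Φ a 1 ∈ D) s0 h' g 0 1 a1 n1) (mh mg : ℕ) (hm : 1 ≤ mh + a * mg) (q kh : MP)
    (k : Option κ → MP) (hh : h' = q ^ mh * kh) (hg : ∀ j, g j = q ^ mg * k j)
    (h0 : MvPolynomial.constantCoeff q = 0)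
    (h1 : MvPolynomial.constantCoeff (MvPolynomial.pderiv 0 q) ≠ 0)
    (hkh : MvPolynomial.constantCoeff kh ≠ 0) (t : Bool) (ht : HasType k t) :
    GoodA a D s0 Φ h' g 0 1 a1 n1 (Φ a1 n1 * Φ (mh + a * mg) 1 * typeFactor Φ a t) := by
  obtain ⟨G⟩ := inv.geom
  have hq : q ≠ 0 := by
    rintro rfl
    rw [map_zero, map_zero] at h1
    exact h1 rfl
  have hkh0 : kh ≠ 0 := fun h => hkh (by rw [h, map_zero])
  have hh' : h' ≠ 0 := by rw [hh]; exact mul_ne_zero (pow_ne_zero _ hq) hkh0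
  have htf : typeFactor Φ a t ∈ D := tfm t
    (type_D hF hH ha hE hD hS G (q ^ mg) (pow_ne_zero _ hq) hh' k hg ht)
  have hh2 : sw h' = sw q ^ mh * sw kh := by rw [hh, map_mul, map_pow]
  have hg2 : ∀ j, sw (g j) = sw q ^ mg * sw (k j) := fun j => by rw [hg, map_mul, map_pow]
  have h02 : MvPolynomial.constantCoeff (sw q) = 0 := by rwa [cc_sw]
  have h12 : MvPolynomial.constantCoeff (MvPolynomial.pderiv 1 (sw q)) ≠ 0 := by
    rw [(pderiv_sw q).2, cc_sw]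
    exact h1
  have hkh2 : MvPolynomial.constantCoeff (sw kh) ≠ 0 := by rwa [cc_sw]
  have ht2 := HasType_sw ht
  obtain ⟨j, hj⟩ := HasType_some ht2
  have hfm : Φ (mh + a * mg) 1 ∈ D := mem_of_mult hm hD hS fun h3 h4 =>
    curve_ne hF hH G.swap mh mg h3 (by rw [← h4]; exact hE) (sw q) (sw kh)
      (fun j => sw (k j)) hh2 hg2 h02 h12 hkh2 j hj
  have hA0 : ((1 : ℕ) : ℂ) + ((0 : ℕ) : ℂ) * s0 ≠ 0 := by simp
  by_cases hA1 : (n1 : ℂ) + a1 * s0 = 0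
  · have hc := leaf_curve hF hH ha G.swap inv.hn1 inv.hz1 s0 hE hA1 mh mg hm (sw q) (sw kh)
      (fun j => sw (k j)) hh2 hg2 h02 h12 hkh2 t ht2 Φ
    refine ⟨0, D.zero_mem, Φ (mh + a * mg) 1 * typeFactor Φ a t, D.mul_mem hfm htf,
      fun h => absurd h hA0, fun _ μ hμ => ?_, ?_⟩
    · have h3 := hc μ (by rw [t0_sw]; exact Ord_sw hμ)
      rw [t0_sw] at h3
      exact h3
    · have : Φ a1 n1 * Φ (mh + a * mg) 1 * typeFactor Φ a t - 0 * Φ 0 1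
        - Φ (mh + a * mg) 1 * typeFactor Φ a t * Φ a1 n1 = 0 := by ring
      rw [this]
      exact D.zero_mem
  · refine ⟨0, D.zero_mem, 0, D.zero_mem, fun h => absurd h hA0, fun h => absurd h hA1, ?_⟩
    rw [zero_mul, zero_mul, sub_zero, sub_zero]
    exact D.mul_mem (D.mul_mem (hD.reg a1 n1 inv.hn1 hA1) hfm) htf

end Node

end Pool.Agent.N103.V
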