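import Pool.Agent.N103.V.SZDefs

set_option autoImplicit false
set_option linter.unusedSectionVars false
set_option linter.unusedVariables false
set_option linter.unusedSimpArgs false

/-! # The pairs of trivial characters in the suspension formula -/

namespace Pool.Agent.N103.V

theorem den_one_iff (q : ℚ) : q.den = 1 ↔ ∃ n : ℤ, q = n := by
  constructor
  · intro h
    exact ⟨q.num, ((Rat.den_eq_one_iff q).1 h).symm⟩
  · rintro ⟨n, rfl⟩
    exact Rat.den_intCast n

theorem pair_one {d e i j : ℕ} (hd : 1 ≤ d) (he : 1 ≤ e) (hi : i < d) (hj : j < d) :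
    Nat.lcm ((1 : ℚ) / e + (i : ℚ) / d).den ((j : ℚ) / d).den = 1 ↔
      e ∣ d ∧ i = d - d / e ∧ j = 0 := by
  have hdq : (d : ℚ) ≠ 0 := Nat.cast_ne_zero.2 (by omega)
  have heq : (e : ℚ) ≠ 0 := Nat.cast_ne_zero.2 (by omega)
  have hl : ∀ m n : ℕ, Nat.lcm m n = 1 ↔ m = 1 ∧ n = 1 := by
    intro m n
    constructor
    · intro h
      exact ⟨Nat.dvd_one.1 (h ▸ Nat.dvd_lcm_left m n), Nat.dvd_one.1 (h ▸ Nat.dvd_lcm_right m n)⟩
    · rintro ⟨rfl, rfl⟩
      rfl
  rw [hl, den_one_iff, den_one_iff]
  constructor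
  · rintro ⟨⟨n, hn⟩, m, hm⟩
    have hj0 : j = 0 := by
      rw [div_eq_iff hdq] at hm
      have h1 : (j : ℤ) = m * d := by exact_mod_cast hm
      have h2 : m < 1 := by
        by_contra h3
        have h4 : (1 : ℤ) * d ≤ m * d := mul_le_mul_of_nonneg_right (by omega) (by omega)
        omega
      have h3 : 0 ≤ m := by
        by_contra h4
        have h5 : m * d < 0 := mul_neg_of_neg_of_pos (by omega) (by omega)
        omega
      have h4 : m = 0 := by omega
      rw [h4, zero_mul] at h1
      omega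
    have h1 : (d + e * i : ℤ) = n * (e * d) := by
      have h2 : (d : ℚ) + e * i = n * (e * d) := by
        rw [← hn]
        field_simp
      exact_mod_cast h2
    have hed : (e : ℤ) ∣ d := by
      have h2 : (d : ℤ) = e * (n * d - i) := by linear_combination h1
      exact ⟨_, h2⟩
    have hed' : e ∣ d := Int.natCast_dvd_natCast.1 hed
    obtain ⟨t, rfl⟩ := hed'
    have ht : 1 ≤ t := by
      by_contra h
      have : t = 0 := by omega
      rw [this, mul_zero] at hd
      omega
    have h2 : (t + i : ℤ) = n * (e * t) := by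
      have h3 : (e : ℤ) ≠ 0 := by omega
      apply mul_left_cancel₀ h3
      push_cast at h1
      linear_combination h1
    have hte : t ≤ e * t := Nat.le_mul_of_pos_left t (by omega)
    have hn1 : n = 1 := by
      have h3 : (0 : ℤ) < n * (e * t) := by omega
      have h4 : 0 < n := by
        by_contra h5
        have h6 : n * (e * t : ℤ) ≤ 0 := mul_nonpos_of_nonpos_of_nonneg (by omega) (by positivity)
        omega
      by_contra h5
      have h6 : (2 : ℤ) * (e * t) ≤ n * (e * t) :=
        mul_le_mul_of_nonneg_right (by omega) (by positivity)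
      have h7 : (i : ℤ) < e * t := by exact_mod_cast hi
      have h8 : (t : ℤ) ≤ e * t := by exact_mod_cast hte
      omega
    refine ⟨Dvd.intro _ rfl, ?_, hj0⟩
    rw [Nat.mul_div_cancel_left t (by omega)]
    rw [hn1, one_mul] at h2
    have h3 : t + i = e * t := by exact_mod_cast h2
    omega
  · rintro ⟨⟨t, rfl⟩, rfl, rfl⟩
    refine ⟨⟨1, ?_⟩, ⟨0, by simp⟩⟩
    rw [Nat.mul_div_cancel_left t (by omega), Nat.cast_sub (Nat.le_mul_of_pos_left t (by omega))]
    have ht : (t : ℚ) ≠ 0 := by
      intro h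
      apply hdq
      push_cast
      rw [h, mul_zero]
    push_cast
    field_simp
    ring

theorem lcm_pos (q q' : ℚ) : 1 ≤ Nat.lcm q.den q'.den :=
  Nat.lcm_pos q.den_pos q'.den_pos

theorem sum_split {d e : ℕ} (hd : 1 ≤ d) (he : 1 ≤ e) (D : Subring (RatFunc ℂ))
    (g : ℕ → RatFunc ℂ) (hg : ∀ m, 2 ≤ m → g m ∈ D) :
    (∑ i ∈ Finset.range d, ∑ j ∈ Finset.range d,
        g (Nat.lcm ((1 : ℚ) / e + (i : ℚ) / d).den ((j : ℚ) / d).den)) -
      (if e ∣ d then g 1 else 0) ∈ D := by
  classical
  have h1 : (∑ i ∈ Finset.range d, ∑ j ∈ Finset.range d,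
      (if Nat.lcm ((1 : ℚ) / e + (i : ℚ) / d).den ((j : ℚ) / d).den = 1 then g 1 else 0))
        = if e ∣ d then g 1 else 0 := by
    have h2 : ∀ i ∈ Finset.range d, ∀ j ∈ Finset.range d,
        (if Nat.lcm ((1 : ℚ) / e + (i : ℚ) / d).den ((j : ℚ) / d).den = 1 then g 1 else 0)
          = if i = d - d / e then (if j = 0 then (if e ∣ d then g 1 else 0) else 0) else 0 := by
      intro i hi j hj
      rw [Finset.mem_range] at hi hj
      rw [if_congr (pair_one hd he hi hj) rfl rfl]
      by_cases h3 : e ∣ d <;> by_cases h4 : i = d - d / e <;> by_cases h5 : j = 0 <;>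
        simp [h3, h4, h5]
    rw [Finset.sum_congr rfl fun i hi => Finset.sum_congr rfl fun j hj => h2 i hi j hj]
    by_cases h3 : e ∣ d
    · have h4 : 1 ≤ d / e := Nat.div_pos (Nat.le_of_dvd (by omega) h3) (by omega)
      have h5 : ∀ i ∈ Finset.range d, (∑ j ∈ Finset.range d,
          (if i = d - d / e then (if j = 0 then (if e ∣ d then g 1 else 0) else 0) else 0))
            = if i = d - d / e then g 1 else 0 := by
        intro i _
        by_cases h6 : i = d - d / e
        · simp only [if_pos h6, if_pos h3, Finset.sum_ite_eq', Finset.mem_range, if_pos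
            (show 0 < d by omega)]
        · simp only [if_neg h6, Finset.sum_const_zero]
      rw [Finset.sum_congr rfl h5, Finset.sum_ite_eq', if_pos (by rw [Finset.mem_range]; omega),
        if_pos h3]
    · simp [h3]
  rw [← h1, ← Finset.sum_sub_distrib]
  refine Subring.sum_mem _ fun i _ => ?_
  rw [← Finset.sum_sub_distrib]
  refine Subring.sum_mem _ fun j _ => ?_
  split_ifs with h2
  · rw [h2, sub_self]
    exact D.zero_mem
  · rw [sub_zero]
    apply hg
    have := lcm_pos ((1 : ℚ) / e + (i : ℚ) / d) ((j : ℚ) / d)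
    omega

end Pool.Agent.N103.V
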