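import Pool.Agent.W574.SM.Reg

set_option autoImplicit false
set_option linter.unusedSectionVars false
set_option linter.unusedVariables false
set_option linter.unusedSimpArgs false

/-! # Substitution of `a s + b` for `s` in a rational function -/

namespace Pool.Agent.N103.V

open Pool.Agent.W574.SM

open Polynomial

/-- `x(a s + b)`, for a rational function `x(s)` (and `a ≠ 0`) -/
noncomputable def sb (a b : ℂ) (x : RatFunc ℂ) : RatFunc ℂ :=
  algebraMap ℂ[X] (RatFunc ℂ) (x.num.comp (C a * X + C b)) /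
    algebraMap ℂ[X] (RatFunc ℂ) (x.denom.comp (C a * X + C b))

theorem comp_ne {a : ℂ} (ha : a ≠ 0) (b : ℂ) {q : ℂ[X]} (hq : q ≠ 0) :
    q.comp (C a * X + C b) ≠ 0 := by
  intro h
  rcases comp_eq_zero_iff.1 h with h1 | ⟨_, h1⟩
  · exact hq h1
  · have h2 := congrArg (fun p => coeff p 1) h1
    simp at h2
    exact ha h2

theorem sb_div {a : ℂ} (ha : a ≠ 0) (b : ℂ) (p q : ℂ[X]) (hq : q ≠ 0) :
    sb a b (algebraMap ℂ[X] (RatFunc ℂ) p / algebraMap ℂ[X] (RatFunc ℂ) q) = algebraMap ℂ[X] (RatFunc ℂ) (p.comp (C a * X + C b)) / algebraMap ℂ[X] (RatFunc ℂ) (q.comp (C a * X + C b)) := by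
  have h1 := RatFunc.num_div_denom (algebraMap ℂ[X] (RatFunc ℂ) p / algebraMap ℂ[X] (RatFunc ℂ) q)
  set x := algebraMap ℂ[X] (RatFunc ℂ) p / algebraMap ℂ[X] (RatFunc ℂ) q with hx
  have hd := RatFunc.denom_ne_zero x
  have h2 : x.num * q = p * x.denom := by
    apply RatFunc.algebraMap_injective
    rw [map_mul, map_mul]
    have h3 : algebraMap ℂ[X] (RatFunc ℂ) q ≠ 0 := RatFunc.algebraMap_ne_zero hq
    have h4 : algebraMap ℂ[X] (RatFunc ℂ) x.denom ≠ 0 := RatFunc.algebraMap_ne_zero hd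
    rw [hx, div_eq_div_iff h4 h3] at h1
    exact h1
  have h5 := congrArg (fun r => r.comp (C a * X + C b)) h2
  simp only [mul_comp] at h5
  rw [sb, div_eq_div_iff (RatFunc.algebraMap_ne_zero (comp_ne ha b hd))
    (RatFunc.algebraMap_ne_zero (comp_ne ha b hq)), ← map_mul, ← map_mul, h5]

theorem exists_frac (x : RatFunc ℂ) : ∃ p q : ℂ[X], q ≠ 0 ∧ x = algebraMap ℂ[X] (RatFunc ℂ) p / algebraMap ℂ[X] (RatFunc ℂ) q :=
  ⟨x.num, x.denom, RatFunc.denom_ne_zero x, (RatFunc.num_div_denom x).symm⟩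

theorem sb_al {a : ℂ} (ha : a ≠ 0) (b : ℂ) (p : ℂ[X]) :
    sb a b (algebraMap ℂ[X] (RatFunc ℂ) p) = algebraMap ℂ[X] (RatFunc ℂ) (p.comp (C a * X + C b)) := by
  have h := sb_div ha b p 1 one_ne_zero
  rwa [map_one, div_one, one_comp, map_one, div_one] at h

theorem sb_mul {a : ℂ} (ha : a ≠ 0) (b : ℂ) (x y : RatFunc ℂ) :
    sb a b (x * y) = sb a b x * sb a b y := by
  obtain ⟨p, q, hq, rfl⟩ := exists_frac x
  obtain ⟨p', q', hq', rfl⟩ := exists_frac y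
  rw [div_mul_div_comm, ← map_mul, ← map_mul, sb_div ha b _ _ (mul_ne_zero hq hq'),
    sb_div ha b _ _ hq, sb_div ha b _ _ hq', div_mul_div_comm, mul_comp, mul_comp, map_mul,
    map_mul]

theorem sb_add {a : ℂ} (ha : a ≠ 0) (b : ℂ) (x y : RatFunc ℂ) :
    sb a b (x + y) = sb a b x + sb a b y := by
  obtain ⟨p, q, hq, rfl⟩ := exists_frac x
  obtain ⟨p', q', hq', rfl⟩ := exists_frac y
  have h1 : algebraMap ℂ[X] (RatFunc ℂ) q ≠ 0 := RatFunc.algebraMap_ne_zero hq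
  have h2 : algebraMap ℂ[X] (RatFunc ℂ) q' ≠ 0 := RatFunc.algebraMap_ne_zero hq'
  have h3 : algebraMap ℂ[X] (RatFunc ℂ) (q.comp (C a * X + C b)) ≠ 0 := RatFunc.algebraMap_ne_zero (comp_ne ha b hq)
  have h4 : algebraMap ℂ[X] (RatFunc ℂ) (q'.comp (C a * X + C b)) ≠ 0 := RatFunc.algebraMap_ne_zero (comp_ne ha b hq')
  rw [div_add_div _ _ h1 h2, ← map_mul, ← map_mul, ← map_add, ← map_mul,
    sb_div ha b _ _ (mul_ne_zero hq hq'), sb_div ha b _ _ hq, sb_div ha b _ _ hq',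
    div_add_div _ _ h3 h4, ← map_mul, ← map_mul, ← map_add, ← map_mul, mul_comp, add_comp,
    mul_comp, mul_comp]

theorem sb_one {a : ℂ} (ha : a ≠ 0) (b : ℂ) : sb a b 1 = 1 := by
  have h := sb_al ha b 1
  rwa [map_one, one_comp, map_one] at h

theorem sb_mem {a : ℂ} (b : ℂ) {x : RatFunc ℂ} {s : ℂ} (hx : x ∈ Reg (a * s + b)) :
    sb a b x ∈ Reg s := by
  refine ⟨_, _, ?_, rfl⟩
  rw [eval_comp, eval_add, eval_mul, eval_C, eval_C, eval_X]
  exact Reg_denom _ _ hx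

/-- polynomials are regular -/
theorem al_mem (s : ℂ) (p : ℂ[X]) : algebraMap ℂ[X] (RatFunc ℂ) p ∈ Reg s := ⟨p, 1, by simp, by simp⟩

theorem inv_mem {s : ℂ} {q : ℂ[X]} (hq : q.eval s ≠ 0) : (algebraMap ℂ[X] (RatFunc ℂ) q)⁻¹ ∈ Reg s :=
  ⟨1, q, hq, by simp⟩

theorem X_mem (s : ℂ) : (RatFunc.X : RatFunc ℂ) ∈ Reg s := by
  have h := al_mem s X
  rwa [RatFunc.algebraMap_X] at h

/-- `x(s)` is regular at `s0` if `u(s) x(s)` is, `u(s0) ≠ 0` -/
theorem of_mul {s : ℂ} {q : ℂ[X]} (hq : q.eval s ≠ 0) {x : RatFunc ℂ} (h : algebraMap ℂ[X] (RatFunc ℂ) q * x ∈ Reg s) :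
    x ∈ Reg s := by
  have h0 : algebraMap ℂ[X] (RatFunc ℂ) q ≠ 0 := by
    apply RatFunc.algebraMap_ne_zero
    rintro rfl
    exact hq eval_zero
  have h1 := (Reg s).mul_mem (inv_mem hq) h
  rwa [inv_mul_cancel_left₀ h0] at h1

end Pool.Agent.N103.V
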