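import Pool.Agent.N103.V.Ev
import Pool.Agent.N103.V.Gam
import Pool.Agent.N103.Der

set_option autoImplicit false
set_option linter.unusedSectionVars false
set_option linter.unusedVariables false
set_option linter.unusedSimpArgs false

/-! # The functional equations of `z ^ d + G(x)` and of `G` -/

namespace Pool.Agent.N103.V

open MvPolynomial Pool.Agent.N103

section Functional

variable {σ : Type}

theorem oel_rename (q : MvPolynomial σ ℂ) :
    optionEquivLeft ℂ σ (rename some q) = Polynomial.C q := by
  induction q using MvPolynomial.induction_on with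
  | C a => rw [rename_C, optionEquivLeft_C]
  | add p q hp hq => rw [map_add, map_add, hp, hq, map_add]
  | mul_X p i hp => rw [map_mul, map_mul, hp, rename_X, optionEquivLeft_X_some, map_mul]

theorem oel_mon (q : MvPolynomial σ ℂ) (k : ℕ) :
    optionEquivLeft ℂ σ (rename some q * X none ^ k) = Polynomial.monomial k q := by
  rw [map_mul, map_pow, oel_rename, optionEquivLeft_X_none, Polynomial.C_mul_X_pow_eq_monomial]

theorem opt_ind {P : MvPolynomial (Option σ) ℂ → Prop} (hadd : ∀ p q, P p → P q → P (p + q))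
    (hmon : ∀ (k : ℕ) (q : MvPolynomial σ ℂ), P (rename some q * X none ^ k))
    (p : MvPolynomial (Option σ) ℂ) : P p := by
  have key : ∀ Q : Polynomial (MvPolynomial σ ℂ), P ((optionEquivLeft ℂ σ).symm Q) := by
    intro Q
    induction Q using Polynomial.induction_on' with
    | add p q hp hq => rw [map_add]; exact hadd _ _ hp hq
    | monomial k q =>
      rw [← oel_mon, AlgEquiv.symm_apply_apply]
      exact hmon k q
  have := key (optionEquivLeft ℂ σ p)
  rwa [AlgEquiv.symm_apply_apply] at this

/-- the part of `p` without the variable `z` -/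
noncomputable def cz (p : MvPolynomial (Option σ) ℂ) : MvPolynomial σ ℂ :=
  (optionEquivLeft ℂ σ p).coeff 0

theorem cz_add (p q : MvPolynomial (Option σ) ℂ) : cz (p + q) = cz p + cz q := by
  rw [cz, map_add, Polynomial.coeff_add, ← cz, ← cz]

theorem cz_mon (k : ℕ) (q : MvPolynomial σ ℂ) :
    cz (rename some q * X none ^ k) = if k = 0 then q else 0 := by
  rw [cz, oel_mon, Polynomial.coeff_monomial]

variable {L : Type} [CommRing L] [Algebra ℂ L] (φ : MvPolynomial σ ℂ →ₐ[ℂ] L)

/-- the functional with the values `J k` at `z ^ k` -/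
noncomputable def If (J : ℕ → L) (p : MvPolynomial (Option σ) ℂ) : L :=
  (optionEquivLeft ℂ σ p).sum fun k q => φ q * J k

theorem If_add (J : ℕ → L) (p q : MvPolynomial (Option σ) ℂ) :
    If φ J (p + q) = If φ J p + If φ J q := by
  rw [If, map_add, Polynomial.sum_add_index]
  · rfl
  · intro i
    rw [map_zero, zero_mul]
  · intro a b c
    rw [map_add, add_mul]

theorem If_mon (J : ℕ → L) (k : ℕ) (q : MvPolynomial σ ℂ) :
    If φ J (rename some q * X none ^ k) = φ q * J k := by
  rw [If, oel_mon, Polynomial.sum_monomial_index]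
  rw [map_zero, zero_mul]

theorem If_zero (J : ℕ → L) : If φ J 0 = 0 := by
  rw [If, map_zero, Polynomial.sum_zero_index]

theorem If_rename (J : ℕ → L) (q : MvPolynomial σ ℂ) (p : MvPolynomial (Option σ) ℂ) :
    If φ J (rename some q * p) = φ q * If φ J p := by
  induction p using opt_ind with
  | hadd p r hp hr => rw [mul_add, If_add, hp, hr, If_add, mul_add]
  | hmon k r => rw [← mul_assoc, ← map_mul, If_mon, If_mon, map_mul, mul_assoc]

theorem If_C (J : ℕ → L) (c : ℂ) (p : MvPolynomial (Option σ) ℂ) :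
    If φ J (C c * p) = algebraMap ℂ L c * If φ J p := by
  have h := If_rename φ J (C c) p
  rw [rename_C] at h
  rw [h]
  congr 1
  exact φ.commutes c

theorem If_neg (J : ℕ → L) (p : MvPolynomial (Option σ) ℂ) : If φ J (-p) = - If φ J p := by
  have h := If_C φ J (-1) p
  rw [map_neg, map_neg, map_one, map_one, neg_one_mul, neg_one_mul] at h
  exact h

theorem If_sub (J : ℕ → L) (p q : MvPolynomial (Option σ) ℂ) :
    If φ J (p - q) = If φ J p - If φ J q := by
  rw [sub_eq_add_neg, If_add, If_neg, sub_eq_add_neg]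

theorem pderiv_none_mon (k : ℕ) (q : MvPolynomial σ ℂ) :
    pderiv none (rename some q * X none ^ k : MvPolynomial (Option σ) ℂ)
      = rename some ((k : MvPolynomial σ ℂ) * q) * X none ^ (k - 1) := by
  have h0 : ∀ q : MvPolynomial σ ℂ, pderiv none (rename some q : MvPolynomial (Option σ) ℂ) = 0 := by
    intro q
    induction q using MvPolynomial.induction_on with
    | C a => rw [rename_C, pderiv_C]
    | add p q hp hq => rw [map_add, map_add, hp, hq, add_zero]
    | mul_X p i hp =>
      rw [map_mul, rename_X, Derivation.leibniz, hp, pderiv_X_of_ne (by simp)]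
      simp
  rw [Derivation.leibniz, h0, Derivation.leibniz_pow, pderiv_X_self, smul_zero, add_zero,
    smul_eq_mul, smul_eq_mul, nsmul_eq_mul, mul_one, map_mul, map_natCast]
  ring

theorem pderiv_some_mon (i : σ) (k : ℕ) (q : MvPolynomial σ ℂ) :
    pderiv (some i) (rename some q * X none ^ k : MvPolynomial (Option σ) ℂ)
      = rename some (pderiv i q) * X none ^ k := by
  rw [Derivation.leibniz, Derivation.leibniz_pow, pderiv_X_of_ne (by simp), smul_zero, smul_zero,
    smul_zero, zero_add, smul_eq_mul, pderiv_rename (Option.some_injective σ)]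
  ring

end Functional

section Main

variable {σ : Type} {L : Type} [CommRing L] [Algebra ℂ L] (φ : MvPolynomial σ ℂ →ₐ[ℂ] L)
  (D : σ → Derivation ℂ L L) (Gi : L) (d : ℕ) (G : MvPolynomial σ ℂ) (e : ℂ)

/-- the value at `z ^ k F ^ (- m)` -/
noncomputable def Jm (m k : ℕ) : L :=
  if d ∣ k then algebraMap ℂ L (gam d e (k / d) m) * (φ G ^ (k / d) * Gi ^ m) else 0

/-- `z ^ d + G` -/
noncomputable def Fd : MvPolynomial (Option σ) ℂ := X none ^ d + rename some G

variable {φ Gi d G e}

theorem Jm_mul (hd : 2 ≤ d) (m l : ℕ) : Jm φ Gi d G e m (d * l)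
    = algebraMap ℂ L (gam d e l m) * (φ G ^ l * Gi ^ m) := by
  rw [Jm, if_pos (dvd_mul_right _ _), Nat.mul_div_cancel_left l (by omega)]

theorem Jm_ndvd (m k : ℕ) (h : ¬ d ∣ k) : Jm φ Gi d G e m k = 0 := by
  rw [Jm, if_neg h]

theorem W_lt (hG : φ G * Gi = 1) (l m : ℕ) (h : m ≤ l) : φ G ^ l * Gi ^ m = φ G ^ (l - m) := by
  obtain ⟨k, rfl⟩ : ∃ k, l = m + k := ⟨l - m, by omega⟩
  rw [Nat.add_sub_cancel_left, pow_add]
  have : φ G ^ m * Gi ^ m = 1 := by rw [← mul_pow, hG, one_pow]
  linear_combination φ G ^ k * this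

variable {U : Submodule ℂ L}

theorem mulU (h1 : ∀ i, ∀ x ∈ U, φ (X i) * x ∈ U) (q : MvPolynomial σ ℂ) :
    ∀ x ∈ U, φ q * x ∈ U := by
  induction q using MvPolynomial.induction_on with
  | C a =>
    intro x hx
    have : φ (C a) = algebraMap ℂ L a := φ.commutes a
    rw [this, ← Algebra.smul_def]
    exact U.smul_mem a hx
  | add p q hp hq =>
    intro x hx
    rw [map_add, add_mul]
    exact U.add_mem (hp x hx) (hq x hx)
  | mul_X p i hp =>
    intro x hx
    rw [map_mul, mul_assoc]
    exact hp _ (h1 i x hx)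

theorem powU (h1 : ∀ i, ∀ x ∈ U, φ (X i) * x ∈ U) (h3 : φ G ∈ U) (q : MvPolynomial σ ℂ) (j : ℕ)
    (hj : 1 ≤ j) : φ q * φ G ^ j ∈ U := by
  obtain ⟨k, rfl⟩ : ∃ k, j = k + 1 := ⟨j - 1, by omega⟩
  have : φ q * φ G ^ (k + 1) = φ (q * G ^ k) * φ G := by rw [map_mul, map_pow]; ring
  rw [this]
  exact mulU h1 _ _ h3

theorem algU (c : ℂ) (x : L) (hx : x ∈ U) : algebraMap ℂ L c * x ∈ U := by
  rw [← Algebra.smul_def]; exact U.smul_mem c hx

/-- multiplication of numerator and denominator by `F` -/
theorem compat (hd : 2 ≤ d) (he : ∀ n : ℕ, e ≠ n) (hG : φ G * Gi = 1)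
    (h1 : ∀ i, ∀ x ∈ U, φ (X i) * x ∈ U) (h3 : φ G ∈ U) (m : ℕ)
    (p : MvPolynomial (Option σ) ℂ) :
    If φ (Jm φ Gi d G e (m + 1)) (Fd d G * p) - If φ (Jm φ Gi d G e m) p ∈ U := by
  induction p using opt_ind with
  | hadd p r hp hr =>
    rw [mul_add, If_add, If_add]
    have := U.add_mem hp hr
    convert this using 1
    ring
  | hmon k q =>
    have e1 : Fd d G * (rename some q * X none ^ k)
        = rename some q * X none ^ (k + d) + rename some (G * q) * X none ^ k := by
      rw [Fd, map_mul]
      ring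
    rw [e1, If_add, If_mon, If_mon, If_mon, map_mul]
    by_cases hk : d ∣ k
    · obtain ⟨l, rfl⟩ := hk
      rw [show d * l + d = d * (l + 1) by ring, Jm_mul hd, Jm_mul hd, Jm_mul hd]
      by_cases hc : l ≤ m ∨ -(e + 1 / d) + m - l ≠ 0
      · have h4 := congrArg (algebraMap ℂ L) (gam_one (by omega) he l m hc)
        rw [map_add] at h4
        have h5 : φ q * (algebraMap ℂ L (gam d e (l + 1) (m + 1)) * (φ G ^ (l + 1) * Gi ^ (m + 1)))
            + φ G * φ q * (algebraMap ℂ L (gam d e l (m + 1)) * (φ G ^ l * Gi ^ (m + 1)))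
            - φ q * (algebraMap ℂ L (gam d e l m) * (φ G ^ l * Gi ^ m)) = 0 := by
          have h6 : φ G ^ (l + 1) * Gi ^ (m + 1) = φ G ^ l * Gi ^ m := by
            rw [pow_succ, pow_succ]
            linear_combination φ G ^ l * Gi ^ m * hG
          have h7 : φ G * (φ G ^ l * Gi ^ (m + 1)) = φ G ^ l * Gi ^ m := by
            rw [pow_succ]
            linear_combination φ G ^ l * Gi ^ m * hG
          linear_combination φ q * algebraMap ℂ L (gam d e (l + 1) (m + 1)) * h6
            + φ q * algebraMap ℂ L (gam d e l (m + 1)) * h7 + φ q * φ G ^ l * Gi ^ m * h4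
        rw [h5]
        exact U.zero_mem
      · push Not at hc
        have hgf := gam_fail d e l m hc.1 hc.2
        have hgf2 : gam d e (l + 1) (m + 1) = 0 := by
          refine gam_fail d e _ _ (by omega) ?_
          push_cast
          linear_combination hc.2
        rw [hgf, hgf2, map_zero]
        have h6 : φ G ^ l * Gi ^ (m + 1) = φ G ^ (l - (m + 1)) := W_lt hG _ _ (by omega)
        rw [h6]
        have h7 : φ q * (0 * (φ G ^ (l + 1) * Gi ^ (m + 1)))
            + φ G * φ q * (algebraMap ℂ L (gam d e l (m + 1)) * φ G ^ (l - (m + 1)))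
            - φ q * (0 * (φ G ^ l * Gi ^ m))
            = algebraMap ℂ L (gam d e l (m + 1)) * (φ q * φ G ^ (l - (m + 1) + 1)) := by
          rw [pow_succ]
          ring
        rw [h7]
        exact algU _ _ (powU h1 h3 q _ (by omega))
    · have hk2 : ¬ d ∣ k + d := fun h => hk ((Nat.dvd_add_left (dvd_refl d)).1 h)
      rw [Jm_ndvd _ _ hk, Jm_ndvd _ _ hk2, Jm_ndvd _ _ hk]
      simp

theorem compat_pow (hd : 2 ≤ d) (he : ∀ n : ℕ, e ≠ n) (hG : φ G * Gi = 1)
    (h1 : ∀ i, ∀ x ∈ U, φ (X i) * x ∈ U) (h3 : φ G ∈ U) (m n : ℕ)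
    (p : MvPolynomial (Option σ) ℂ) :
    If φ (Jm φ Gi d G e (m + n)) (Fd d G ^ n * p) - If φ (Jm φ Gi d G e m) p ∈ U := by
  induction n with
  | zero => rw [pow_zero, one_mul, Nat.add_zero, sub_self]; exact U.zero_mem
  | succ n ih =>
    have h4 := compat hd he hG h1 h3 (m + n) (Fd d G ^ n * p)
    have h5 := U.add_mem h4 ih
    rw [← mul_assoc, ← pow_succ'] at h5
    convert h5 using 1
    ring

/-- the derivative in the direction `z` -/
theorem kz (hd : 2 ≤ d) (he : ∀ n : ℕ, e ≠ n) (hG : φ G * Gi = 1)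
    (h1 : ∀ i, ∀ x ∈ U, φ (X i) * x ∈ U) (h3 : φ G ∈ U) (m : ℕ)
    (w : MvPolynomial (Option σ) ℂ) :
    If φ (Jm φ Gi d G e (m + 1)) (Fd d G * pderiv none w
      + C (e - m) * (((d : ℕ) : MvPolynomial (Option σ) ℂ) * X none ^ (d - 1)) * w) ∈ U := by
  induction w using opt_ind with
  | hadd p r hp hr =>
    have := U.add_mem hp hr
    rw [← If_add] at this
    convert this using 2
    rw [map_add]
    ring
  | hmon k q =>
    have e2 : C (e - m) * (((d : ℕ) : MvPolynomial (Option σ) ℂ) * X none ^ (d - 1))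
        * (rename some q * X none ^ k)
        = rename some (C ((e - m) * d) * q) * X none ^ (k + (d - 1)) := by
      have : ((d : ℕ) : MvPolynomial (Option σ) ℂ) = C (d : ℂ) := by simp
      rw [this, map_mul, rename_C, map_mul C]
      ring
    rw [e2, If_add, If_mon, pderiv_none_mon, map_mul φ]
    have hC : φ (C ((e - m) * d)) = algebraMap ℂ L ((e - m) * d) := φ.commutes _
    rw [hC]
    by_cases hk0 : k = 0
    · subst hk0
      rw [Nat.cast_zero, zero_mul, map_zero, zero_mul, mul_zero, If_zero, zero_add, Jm_ndvd,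
        mul_zero]
      · exact U.zero_mem
      · intro h
        have := Nat.le_of_dvd (by omega) h
        omega
    · by_cases hk : d ∣ k - 1
      · obtain ⟨l, hl⟩ := hk
        have hkl : k = d * l + 1 := by omega
        have h4 := compat hd he hG h1 h3 m (rename some ((k : MvPolynomial σ ℂ) * q)
          * X none ^ (k - 1))
        rw [If_mon, hl, Jm_mul hd, map_mul φ, map_natCast] at h4
        have h5 : k + (d - 1) = d * (l + 1) := by rw [hkl, Nat.mul_add, Nat.mul_one]; omega
        rw [hl, h5, Jm_mul hd]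
        have h6 := congrArg (algebraMap ℂ L) (gam_two (d := d) (by omega) he l m)
        rw [map_mul, map_mul, map_mul, map_neg, map_add, map_mul, map_natCast, map_natCast,
          map_one] at h6
        have h7 : φ G ^ (l + 1) * Gi ^ (m + 1) = φ G ^ l * Gi ^ m := by
          rw [pow_succ, pow_succ]
          linear_combination φ G ^ l * Gi ^ m * hG
        have h8 : (k : L) = d * l + 1 := by rw [hkl]; push_cast; ring
        convert h4 using 1
        have hC2 : algebraMap ℂ L ((e - m) * d) = algebraMap ℂ L (e - m) * d := by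
          rw [map_mul, map_natCast]
        rw [h7, h8, hC2]
        linear_combination φ q * (φ G ^ l * Gi ^ m) * h6
      · have hk2 : ¬ d ∣ k + (d - 1) := by
          intro h
          apply hk
          have : k + (d - 1) = (k - 1) + d := by omega
          rw [this] at h
          exact (Nat.dvd_add_left (dvd_refl d)).1 h
        have h4 := compat hd he hG h1 h3 m (rename some ((k : MvPolynomial σ ℂ) * q)
          * X none ^ (k - 1))
        rw [If_mon, Jm_ndvd _ _ hk, mul_zero, sub_zero] at h4
        rw [Jm_ndvd _ _ hk2, mul_zero, add_zero]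
        exact h4

/-- the derivatives in the directions `x_i` -/
theorem kx (hD : ∀ i p, D i (φ p) = φ (pderiv i p)) (hd : 2 ≤ d) (he : ∀ n : ℕ, e ≠ n)
    (hG : φ G * Gi = 1)
    (h1 : ∀ i, ∀ x ∈ U, φ (X i) * x ∈ U) (h3 : φ G ∈ U) (h4 : ∀ i, φ (pderiv i G) ∈ U)
    (m : ℕ) (i : σ) (w : MvPolynomial (Option σ) ℂ) :
    If φ (Jm φ Gi d G e (m + 1)) (Fd d G * pderiv (some i) w
      + C (e - m) * rename some (pderiv i G) * w)
      - nab φ D G Gi (e + 1 / d) i (If φ (Jm φ Gi d G e m) w) ∈ U := by
  induction w using opt_ind with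
  | hadd p r hp hr =>
    have := U.add_mem hp hr
    convert this using 1
    have e4 : Fd d G * pderiv (some i) (p + r) + C (e - m) * rename some (pderiv i G) * (p + r)
        = (Fd d G * pderiv (some i) p + C (e - m) * rename some (pderiv i G) * p)
          + (Fd d G * pderiv (some i) r + C (e - m) * rename some (pderiv i G) * r) := by
      rw [map_add]
      ring
    rw [If_add φ (Jm φ Gi d G e m), map_add (nab φ D G Gi (e + 1 / d) i), e4, If_add]
    ring
  | hmon k q =>
    have e2 : C (e - m) * rename some (pderiv i G) * (rename some q * X none ^ k)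
        = rename some (C (e - m) * pderiv i G * q) * X none ^ k := by
      rw [map_mul, map_mul, rename_C]
      ring
    rw [e2, If_add, If_mon, pderiv_some_mon, If_mon, map_mul, map_mul]
    have hC : φ (C (e - m)) = algebraMap ℂ L (e - m) := φ.commutes _
    rw [hC]
    have hco := compat hd he hG h1 h3 m (rename some (pderiv i q) * X none ^ k)
    rw [If_mon] at hco
    by_cases hk : d ∣ k
    · obtain ⟨l, rfl⟩ := hk
      rw [Jm_mul hd] at hco
      rw [Jm_mul hd, Jm_mul hd]
      set g := algebraMap ℂ L (gam d e l m) with hg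
      have hDG : ∀ n : ℕ, D i (φ G ^ n) = (n : L) * (φ (pderiv i G) * Gi) * φ G ^ n := by
        intro n
        rw [Derivation.leibniz_pow, hD, smul_eq_mul, nsmul_eq_mul]
        rcases n with _ | n
        · simp
        · rw [Nat.add_sub_cancel, pow_succ]
          linear_combination (-((n + 1 : ℕ) : L) * φ (pderiv i G) * φ G ^ n) * hG
      have hDi := D_Gi_pow φ D G Gi hG i m
      rw [hD] at hDi
      have e3 : nab φ D G Gi (e + 1 / d) i (φ q * (g * (φ G ^ l * Gi ^ m)))
          = φ (pderiv i q) * (g * (φ G ^ l * Gi ^ m))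
            + algebraMap ℂ L (l - m + (e + 1 / d)) * g * (φ (pderiv i G) * φ q)
              * (φ G ^ l * Gi ^ (m + 1)) := by
        have hDW : D i (φ G ^ l * Gi ^ m) = φ G ^ l * D i (Gi ^ m) + Gi ^ m * D i (φ G ^ l) := by
          rw [Derivation.leibniz]
          rfl
        have hDg : D i (g * (φ G ^ l * Gi ^ m)) = g * D i (φ G ^ l * Gi ^ m) := by
          rw [hg, ← Algebra.smul_def, Derivation.map_smul, Algebra.smul_def]
        rw [nab_apply, Derivation.leibniz, hDg, hDW, hDG, hDi, hD, hD]
        simp only [smul_eq_mul, map_add, map_sub, map_natCast]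
        ring
      rw [e3]
      by_cases hc : l ≤ m ∨ -(e + 1 / d) + m - l ≠ 0
      · have h5 := congrArg (algebraMap ℂ L) (gam_three (by omega) he l m hc)
        rw [map_mul, map_mul, ← hg] at h5
        convert hco using 1
        linear_combination (φ (pderiv i G) * φ q) * (φ G ^ l * Gi ^ (m + 1)) * h5
      · push Not at hc
        have hgf := gam_fail d e l m hc.1 hc.2
        have hg0 : g = 0 := by rw [hg, hgf, map_zero]
        rw [hg0] at hco ⊢
        have h6 : φ G ^ l * Gi ^ (m + 1) = φ G ^ (l - (m + 1)) := W_lt hG _ _ (by omega)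
        rw [h6]
        have h7 : algebraMap ℂ L (e - m) * algebraMap ℂ L (gam d e l (m + 1))
            * (φ (pderiv i G) * φ q * φ G ^ (l - (m + 1))) ∈ U := by
          rw [← map_mul]
          refine algU _ _ ?_
          by_cases h8 : l - (m + 1) = 0
          · rw [h8, pow_zero, mul_one, mul_comm]
            exact mulU h1 q _ (h4 i)
          · rw [← map_mul]
            exact powU h1 h3 _ _ (by omega)
        have h9 := U.add_mem hco h7
        convert h9 using 1
        ring
    · rw [Jm_ndvd _ _ hk] at hco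
      rw [Jm_ndvd _ _ hk, Jm_ndvd _ _ hk]
      simp only [mul_zero, map_zero, add_zero, sub_zero] at hco ⊢
      exact hco

end Main

end Pool.Agent.N103.V
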