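import Pool.Agent.N103.ZDefs
import Pool.Agent.N103.V.Sub
import Pool.Agent.N103.V.Susp

set_option autoImplicit false

/-! # The topological zeta functions of iterated suspensions

For a polynomial `F` in the variables `σ` and a point `p` with `F(p) = 0`, and `e ≥ 1`, the (twisted)
local topological zeta function of `F` at `p` is
`Z_e(s) = ∑_I χ(E_I° ∩ π⁻¹(p)) ∏_{i ∈ I} 1 / (ν_i + N_i s)`, where `π` is a log resolution of `F = 0`
with the irreducible components `E_i` of `π⁻¹(F = 0)`, and `I ≠ ∅` runs over the sets with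
`e ∣ N_i` for all `i ∈ I` (Denef, Loeser). -/

namespace Pool.Agent.N103.V

open MvPolynomial Pool.Agent.N103 Pool.Agent.W574.SM

/-- The local factors of the twisted topological zeta function `Z_e`:
`1 / (n + a s)` if `e ∣ a`, and `0` otherwise. -/
noncomputable def tfac (e a n : ℕ) : RatFunc ℂ := if e ∣ a then fac a n else 0

/-- **The suspension formula** (Artal Bartolo, Cassou-Noguès, Luengo, Melle for `e = 1`). Let the
`Z m` be the twisted local topological zeta functions of `G` at `p`, where `G(p) = 0`. Then those of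
`z ^ d + G` at `(0, p)` are

`(1 - Z_1(s + 1/d)) / (1 + d s)` (if `e ∣ d`) `+ Z_e(s + 1/d) - (w/d) ∑_{ω, ζ} Z_{lcm(ord ω, ord ζ)}(s + 1/d)`,

where `w = s / (s + 1)` for `e = 1` and `w = 1` for `e > 1`, and where `ω` and `ζ` run over the roots of
unity with `ω ^ d = χ ^ d` and `ζ ^ d = 1`, `χ = exp(2 π i / e)`. The three parts come from the arcs
with `d ord z < ord G`, `d ord z > ord G` and `d ord z = ord G`. Here
`ω = exp(2 π i (1/e + i/d))` and `ζ = exp(2 π i j/d)` for `0 ≤ i, j < d`, and the order of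
`exp(2 π i q)` is the denominator of the rational number `q`. -/
noncomputable def suspZ (d : ℕ) (Z : ℕ → RatFunc ℂ) (e : ℕ) : RatFunc ℂ :=
  (if e ∣ d then (1 - sb 1 (1 / d) (Z 1)) / (1 + (d : RatFunc ℂ) * RatFunc.X) else 0) +
    sb 1 (1 / d) (Z e) -
    (if e = 1 then RatFunc.X / (RatFunc.X + 1) else 1) / (d : RatFunc ℂ) *
      ∑ i ∈ Finset.range d, ∑ j ∈ Finset.range d,
        sb 1 (1 / d) (Z (Nat.lcm ((1 : ℚ) / e + (i : ℚ) / d).den ((j : ℚ) / d).den))

/-- `SusZeta F p Z`: the polynomial `F` vanishes at the point `p`, and the `Z e`, `e ≥ 1`, are the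
twisted local topological zeta functions of `F` at `p`. The rules are

* `smooth`: `F = 0` is smooth at `p`: `Z_1 = 1 / (s + 1)` and `Z_e = 0` for `e > 1`;
* `lin`: `F = h(x) (f₀(x) + ∑ y_j f_j(x)) ^ a`, `x = (x₁, x₂)`, and the zeta functions are computed by
  blowing up points of the plane (`PointZeta`); in particular, `F` may be any polynomial in two
  variables;
* `susp`: `F = z ^ d + G`, `d ≥ 2`, and `z = 0` at the point (`Fd d G = X none ^ d + rename some G`);
* `pow`: `F = G ^ k`, `k ≥ 1`: `e ∣ k N` if and only if `e / gcd(e, k) ∣ N`. -/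
inductive SusZeta : (σ : Type) → MvPolynomial σ ℂ → (σ → ℂ) → (ℕ → RatFunc ℂ) → Prop
  | smooth {σ : Type} (F : MvPolynomial σ ℂ) (p : σ → ℂ) (h0 : eval p F = 0) (i : σ)
      (h1 : eval p (pderiv i F) ≠ 0) :
      SusZeta σ F p (fun e => if e = 1 then 1 / (RatFunc.X + 1) else 0)
  | lin {κ : Type} [Fintype κ] [DecidableEq κ] (h : MvPolynomial (Fin 2) ℂ)
      (f : Option κ → MvPolynomial (Fin 2) ℂ) (a : ℕ) (ha : 1 ≤ a) (hF : FF h f a ≠ 0)
      (P : Fin 2 → ℂ) (c : κ → ℂ) (h0 : eval (Sum.elim P c) (FF h f a) = 0) (Z : ℕ → RatFunc ℂ)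
      (hZ : ∀ e, 1 ≤ e → PointZeta (tfac e) 1 h f a P c (Z e)) :
      SusZeta (Fin 2 ⊕ κ) (FF h f a) (Sum.elim P c) Z
  | susp {σ : Type} (d : ℕ) (hd : 2 ≤ d) (G : MvPolynomial σ ℂ) (p : σ → ℂ) (Z : ℕ → RatFunc ℂ)
      (hG : SusZeta σ G p Z) :
      SusZeta (Option σ) (Fd d G) (fun i => i.elim 0 p) (suspZ d Z)
  | pow {σ : Type} (k : ℕ) (hk : 1 ≤ k) (G : MvPolynomial σ ℂ) (p : σ → ℂ) (Z : ℕ → RatFunc ℂ)
      (hG : SusZeta σ G p Z) :
      SusZeta σ (G ^ k) p (fun e => sb k 0 (Z (e / Nat.gcd e k)))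

end Pool.Agent.N103.V
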