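import Pool.Agent.N103.V.Eng
import Pool.Agent.N103.Star

set_option autoImplicit false
set_option linter.unusedSectionVars false
set_option linter.unusedVariables false
set_option linter.unusedSimpArgs false

/-! # The differential equation on an exceptional curve -/

namespace Pool.Agent.N103.V

attribute [-instance] HahnSeries.powerSeriesAlgebra

open Pool.Agent.W574.SM Pool.Agent.N103

section Star

variable {κ : Type} [Fintype κ] [DecidableEq κ] {K : Type} [Field K] [Algebra ℂ K]

theorem star_aux (h : MP) (f : Option κ → MP) (a : ℕ) (c : κ → ℂ)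
    (H : MvPolynomial (Fin 2 ⊕ κ) ℂ) (hF : FF h f a ≠ 0)
    (ξ : Fin 2 → MP) (Pt : Fin 2 → ℂ) (hξ : ∀ i, res0 (ξ i) = Polynomial.C (Pt i))
    (n : ℕ) (hn : 1 ≤ n) (Jp : MP) (hJ : jac ξ = MvPolynomial.X 0 ^ (n - 1) * Jp)
    (b0 c0 : ℕ) (Hh : MP) (G : Option κ → MP)
    (hh : MvPolynomial.aeval ξ h = MvPolynomial.X 0 ^ b0 * Hh)
    (hf : ∀ j, MvPolynomial.aeval ξ (fc c f j) = MvPolynomial.X 0 ^ c0 * G j)
    (A : ℕ) (hA : A = b0 + a * c0) (hA1 : 1 ≤ A) (hE : Ev H (FF h f a) (-(n : ℂ) / A))
    (D : Derivation ℂ K K) (x : K) (hDx : D x = 1)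
    (hJx : Polynomial.aeval x (res0 Jp) ≠ 0) (hHx : Polynomial.aeval x (res0 Hh) ≠ 0)
    (g : Option κ → K) (hg : ∀ j, g j = Polynomial.aeval x (res0 (G j)))
    (j0 : Option κ) (hGx : g j0 ≠ 0) (T : MvPolynomial κ K) (hT : T = TT g j0)
    (B : Type) [CommRing B] [Algebra ℂ B] [Algebra (MvPolynomial κ K) B]
    [IsScalarTower ℂ (MvPolynomial κ K) B] [IsLocalization (Submonoid.powers T) B] :
    ∃ (N : MvPolynomial κ K) (e : ℕ),
      T * dc D N
        + MvPolynomial.C (algebraMap ℂ K (-(n : ℂ) / A * a - e)) * dc D T * N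
        + MvPolynomial.C (algebraMap ℂ K (-(n : ℂ) / A) *
            (D (Polynomial.aeval x (res0 Hh) * g j0 ^ a)
              / (Polynomial.aeval x (res0 Hh) * g j0 ^ a))) * T * N
        = MvPolynomial.C (Polynomial.aeval x (res0 Jp))
          * MvPolynomial.map (algebraMap ℂ K) (eta c Pt H) * T ^ (e + 1) := by
  have hT0 : T ≠ 0 := by rw [hT]; exact TT_ne g j0 hGx
  have hM : Submonoid.powers T ≤ nonZeroDivisors (MvPolynomial κ K) :=
    powers_le_nonZeroDivisors_of_noZeroDivisors hT0
  have : IsDomain B := IsLocalization.isDomain_of_le_nonZeroDivisors B hM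
  have hinj : Function.Injective (algebraMap (MvPolynomial κ K) B) := IsLocalization.injective B hM
  set s0 : ℂ := -(n : ℂ) / A with hs0
  obtain ⟨δ, hδ⟩ := exists_locDer (B := B) (Submonoid.powers T) (dc (κ := κ) D)
  have hεex : ∀ i : κ, ∃ E : Derivation ℂ B B, ∀ x, E (algebraMap (MvPolynomial κ K) B x)
      = algebraMap (MvPolynomial κ K) B (MvPolynomial.pderiv i x) := by
    intro i
    obtain ⟨E, hE⟩ := exists_locDer (B := B) (Submonoid.powers T)
      ((MvPolynomial.pderiv i : Derivation K (MvPolynomial κ K)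
        (MvPolynomial κ K)).restrictScalars ℂ)
    exact ⟨E, hE⟩
  choose ε hε using hεex
  set x0 : B := algebraMap (MvPolynomial κ K) B (MvPolynomial.C x) with hx0
  set Y : κ → B := fun j => algebraMap (MvPolynomial κ K) B
    (MvPolynomial.X j + MvPolynomial.C (algebraMap ℂ K (c j))) with hY
  have hTu : IsUnit (algebraMap (MvPolynomial κ K) B T) :=
    IsLocalization.map_units B (⟨T, Submonoid.mem_powers T⟩ : Submonoid.powers T)
  have halg : ∀ z : ℂ, algebraMap ℂ B z
      = algebraMap (MvPolynomial κ K) B (MvPolynomial.C (algebraMap ℂ K z)) := by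
    intro z
    rw [IsScalarTower.algebraMap_apply ℂ (MvPolynomial κ K) B]
    rfl
  have haev : ∀ p : Polynomial ℂ, Polynomial.aeval x0 p
      = algebraMap (MvPolynomial κ K) B (MvPolynomial.C (Polynomial.aeval x p)) := by
    intro p
    induction p using Polynomial.induction_on' with
    | add p q hp hq => rw [map_add, hp, hq, map_add, map_add, map_add]
    | monomial k z =>
      rw [Polynomial.aeval_monomial, Polynomial.aeval_monomial, map_mul, map_mul, map_pow, map_pow,
        halg]
  -- the leading coefficient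
  set hv := Polynomial.aeval x (res0 Hh) with hhv
  set q0 : K := hv * g j0 ^ a with hq0
  have hq00 : q0 ≠ 0 := mul_ne_zero hHx (pow_ne_zero _ hGx)
  set W : HahnSeries ℤ B := emb x0 (G none) + ∑ j, HahnSeries.C (algebraMap (MvPolynomial κ K) B (MvPolynomial.X j))
    * emb x0 (G (some j)) with hW
  set w : HahnSeries ℤ B := emb x0 Hh * W ^ a with hw
  have hWlin : phi x0 Y ξ (lin f) = HahnSeries.single (c0 : ℤ) 1 * W := by
    rw [lin, map_add, map_sum, phi_rename]
    have h1 : ∀ j, phi x0 Y ξ (MvPolynomial.X (Sum.inr j) * MvPolynomial.rename Sum.inl (f (some j)))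
        = HahnSeries.C (algebraMap (MvPolynomial κ K) B (MvPolynomial.X j)) *
            (HahnSeries.single (c0 : ℤ) 1 * emb x0 (G (some j)))
          + emb x0 (MvPolynomial.aeval ξ (MvPolynomial.C (c j) * f (some j))) := by
      intro j
      have h2 := hf (some j)
      change MvPolynomial.aeval ξ (f (some j)) = _ at h2
      rw [map_mul, phi_y, phi_rename, map_mul (MvPolynomial.aeval ξ), h2]
      have h3 : (MvPolynomial.aeval ξ) (MvPolynomial.C (c j) : MP) = MvPolynomial.C (c j) :=
        MvPolynomial.aeval_C _ _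
      rw [h3]
      simp only [map_mul, emb_C, map_pow, emb_X0, HahnSeries.single_pow, one_pow, nsmul_eq_mul,
        mul_one, algMap_eq, halg, hY, map_add]
      ring
    rw [Finset.sum_congr rfl fun j _ => h1 j, Finset.sum_add_distrib]
    have h4 := congrArg (emb x0) (hf none)
    change emb x0 (MvPolynomial.aeval ξ (f none + ∑ j, MvPolynomial.C (c j) * f (some j))) = _ at h4
    rw [map_add, map_sum, map_add, map_sum, map_mul, map_pow, emb_X0, HahnSeries.single_pow, one_pow,
      nsmul_eq_mul, mul_one] at h4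
    rw [hW, mul_add, Finset.mul_sum]
    have h5 : ∀ j, HahnSeries.single (c0 : ℤ) (1 : B) *
        (HahnSeries.C (algebraMap (MvPolynomial κ K) B (MvPolynomial.X j)) * emb x0 (G (some j)))
        = HahnSeries.C (algebraMap (MvPolynomial κ K) B (MvPolynomial.X j)) *
            (HahnSeries.single (c0 : ℤ) 1 * emb x0 (G (some j))) := fun j => by ring
    rw [Finset.sum_congr rfl fun j _ => h5 j, ← h4]
    ring
  have hwF : phi x0 Y ξ (FF h f a) = HahnSeries.single (A : ℤ) 1 * w := by
    rw [FF, map_mul, map_pow, hWlin, phi_rename, hh, map_mul, map_pow, emb_X0, mul_pow,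
      HahnSeries.single_pow, HahnSeries.single_pow, one_pow, one_pow, hw, nsmul_eq_mul, mul_one,
      nsmul_eq_mul]
    have h6 : (HahnSeries.single ((b0 : ℕ) : ℤ) (1 : B)) * HahnSeries.single ((a : ℤ) * (c0 : ℤ)) 1
        = HahnSeries.single (A : ℤ) 1 := by
      rw [HahnSeries.single_mul_single, one_mul, hA]
      push_cast
      rfl
    rw [← h6]
    ring
  have hWGe : Ge 0 W := by
    refine (Ge_emb x0 _).add ?_
    have : ∀ s : Finset κ, Ge 0 (∑ j ∈ s, HahnSeries.C (algebraMap (MvPolynomial κ K) B (MvPolynomial.X j))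
        * emb x0 (G (some j))) := by
      intro s
      induction s using Finset.induction_on with
      | empty => rw [Finset.sum_empty]; exact Ge_zero 0
      | insert i s hi ih =>
        rw [Finset.sum_insert hi]
        refine Ge.add ?_ ih
        simpa using (Ge_C (algebraMap (MvPolynomial κ K) B (MvPolynomial.X i))).mul (Ge_emb x0 (G (some i)))
    exact this _
  have hwGe : Ge 0 w := by simpa using (Ge_emb x0 Hh).mul (hWGe.pow a)
  have hWc : W.coeff 0 = algebraMap (MvPolynomial κ K) B (MvPolynomial.C (g j0) * T) := by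
    have h7 : ∀ j, (HahnSeries.C (algebraMap (MvPolynomial κ K) B (MvPolynomial.X j))
        * emb x0 (G (some j))).coeff 0
        = algebraMap (MvPolynomial κ K) B (MvPolynomial.C (g j0) * (MvPolynomial.X j *
          MvPolynomial.C (g (some j) / g j0))) := by
      intro j
      have h8 := coeff_mul_Ge (Ge_C (algebraMap (MvPolynomial κ K) B (MvPolynomial.X j))) (Ge_emb x0 (G (some j)))
      rw [add_zero, coeff_C0, coeff_emb, haev, ← hg, ← map_mul] at h8
      rw [h8]
      congr 1
      have h9 : MvPolynomial.C (g (some j)) = (MvPolynomial.C (g j0) *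
          MvPolynomial.C (g (some j) / g j0) : MvPolynomial κ K) := by
        rw [← map_mul, mul_div_cancel₀ _ hGx]
      rw [h9]
      ring
    rw [hW, HahnSeries.coeff_add, coeff_emb, haev, ← hg, HahnSeries.coeff_sum,
      Finset.sum_congr rfl fun j _ => h7 j, hT, TT, mul_add, map_add, Finset.mul_sum, map_sum,
      ← map_mul MvPolynomial.C, mul_div_cancel₀ _ hGx]
  have hwc : w.coeff 0 = algebraMap (MvPolynomial κ K) B (MvPolynomial.C q0 * T ^ a) := by
    have h8 := coeff_mul_Ge (Ge_emb x0 Hh) (hWGe.pow a)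
    rw [add_zero, coeff_pow_Ge hWGe, hWc, coeff_emb, haev] at h8
    rw [hw, h8, ← map_pow, ← map_mul]
    congr 1
    rw [hq0, hhv, map_mul, map_pow]
    ring
  obtain ⟨Ti, hTi⟩ := hTu.exists_right_inv
  have hq0i : (algebraMap (MvPolynomial κ K) B (MvPolynomial.C q0)) * algebraMap (MvPolynomial κ K) B (MvPolynomial.C q0⁻¹) = 1 := by
    rw [← map_mul, ← map_mul, mul_inv_cancel₀ hq00, map_one, map_one]
  set Qi : B := algebraMap (MvPolynomial κ K) B (MvPolynomial.C q0⁻¹) * Ti ^ a with hQi
  have hQQ : algebraMap (MvPolynomial κ K) B (MvPolynomial.C q0 * T ^ a) * Qi = 1 := by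
    have h1 : (algebraMap (MvPolynomial κ K) B T) ^ a * Ti ^ a = 1 := by rw [← mul_pow, hTi, one_pow]
    rw [hQi, map_mul, map_pow]
    linear_combination (algebraMap (MvPolynomial κ K) B T ^ a * Ti ^ a) * hq0i + h1
  have hJxB : IsUnit (Polynomial.aeval x0 (res0 Jp)) := by
    rw [haev]
    refine IsUnit.map _ (IsUnit.map _ (isUnit_iff_ne_zero.2 hJx))
  have hdcX : ∀ j : κ, dc D (MvPolynomial.X j + MvPolynomial.C (algebraMap ℂ K (c j)) : MvPolynomial κ K) = 0 := by
    intro j
    rw [map_add, dc_X, dc_C, Derivation.map_algebraMap, map_zero, add_zero]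
  have hord : ∀ i, Ge 1 (hd δ 0 (emb x0 (ξ i))) := by
    intro i g hg
    rw [coeff_hd, zero_mul, Int.cast_zero, zero_mul, add_zero]
    rcases lt_or_eq_of_le (Int.le_of_lt_add_one (by omega : g < 0 + 1)) with h1 | h1
    · rw [Ge_emb x0 (ξ i) g h1, map_zero]
    · rw [h1, coeff_emb, hξ, Polynomial.aeval_C, Derivation.map_algebraMap]
  obtain ⟨r, hr⟩ := engine2 x0 δ ε Y ξ
    (by rw [hx0, hδ, dc_C, hDx, map_one, map_one])
    (fun j => by rw [hx0, hε, MvPolynomial.pderiv_C, map_zero])
    (fun j => by rw [hY]; simp only; rw [hδ, hdcX, map_zero])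
    (fun j k => by
      rw [hY]
      simp only
      rw [hε, map_add, MvPolynomial.pderiv_C, add_zero, MvPolynomial.pderiv_X]
      by_cases hjk : k = j
      · rw [if_pos hjk, hjk, Pi.single_eq_same, map_one]
      · rw [if_neg hjk, Pi.single_eq_of_ne hjk, map_zero])
    (fun j z => locDer_comm (Submonoid.powers T) (dc D)
      ((MvPolynomial.pderiv j : Derivation K (MvPolynomial κ K)
        (MvPolynomial κ K)).restrictScalars ℂ)
      (fun z => dc_pderiv D j z) δ (ε j) hδ (hε j) z)
    (FF h f a) H n hn Jp hJ hJxB A hA1 w hwGe hwF _ Qi hwc hQQ hE hord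
  obtain ⟨⟨N, ⟨m, e, rfl⟩⟩, hN⟩ := IsLocalization.surj (Submonoid.powers T) r
  simp only at hN
  refine ⟨N, e, ?_⟩
  apply hinj
  have hH0 : (phi x0 Y ξ H).coeff 0
      = algebraMap (MvPolynomial κ K) B (MvPolynomial.map (algebraMap ℂ K) (eta c Pt H)) := by
    rw [coeff_phi, eta]
    have h9 : (MvPolynomial.aeval (Sum.elim (fun i => Polynomial.aeval x0 (res0 (ξ i))) Y)
        : MvPolynomial (Fin 2 ⊕ κ) ℂ →ₐ[ℂ] B)
        = ((IsScalarTower.toAlgHom ℂ (MvPolynomial κ K) B).comp
          (MvPolynomial.mapAlgHom (σ := κ) (Algebra.ofId ℂ K))).comp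
          (MvPolynomial.aeval (Sum.elim (fun i => MvPolynomial.C (Pt i))
            (fun j => MvPolynomial.X j + MvPolynomial.C (c j)))) := by
      ext1 i
      rw [AlgHom.comp_apply, AlgHom.comp_apply, MvPolynomial.aeval_X, MvPolynomial.aeval_X]
      rcases i with i | j
      · simp only [Sum.elim_inl]
        have e0 : (MvPolynomial.mapAlgHom (σ := κ) (Algebra.ofId ℂ K)) (MvPolynomial.C (Pt i))
            = MvPolynomial.C (algebraMap ℂ K (Pt i)) := MvPolynomial.map_C _ _
        rw [hξ, Polynomial.aeval_C, halg, e0]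
        rfl
      · simp only [Sum.elim_inr]
        rw [hY]
        simp only
        rw [map_add (MvPolynomial.mapAlgHom (σ := κ) (Algebra.ofId ℂ K))]
        have e1 : (MvPolynomial.mapAlgHom (σ := κ) (Algebra.ofId ℂ K)) (MvPolynomial.X j)
            = MvPolynomial.X j := MvPolynomial.map_X _ _
        have e2 : (MvPolynomial.mapAlgHom (σ := κ) (Algebra.ofId ℂ K)) (MvPolynomial.C (c j))
            = MvPolynomial.C (algebraMap ℂ K (c j)) := MvPolynomial.map_C _ _
        rw [e1, e2]
        rfl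
    rw [h9]
    rfl
  have hder := locDer_mk (dc D) δ hδ r (T ^ e) N hN
  rw [hH0, haev] at hr
  set al := algebraMap (MvPolynomial κ K) B with hal
  have h10 : T * dc D (T ^ e) = (e : MvPolynomial κ K) * T ^ e * dc D T := by
    rw [Derivation.leibniz_pow, smul_eq_mul, nsmul_eq_mul]
    rcases e with _ | e
    · simp
    · rw [Nat.add_sub_cancel, pow_succ]
      ring
  have h11 : T * dc D (MvPolynomial.C q0 * T ^ a)
      = (MvPolynomial.C (D q0 / q0) * T + (a : MvPolynomial κ K) * dc D T)
        * (MvPolynomial.C q0 * T ^ a) := by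
    have h12 : T * dc D (T ^ a) = (a : MvPolynomial κ K) * T ^ a * dc D T := by
      rw [Derivation.leibniz_pow, smul_eq_mul, nsmul_eq_mul]
      rcases a with _ | a
      · simp
      · rw [Nat.add_sub_cancel, pow_succ]
        ring
    have h13 : (MvPolynomial.C (D q0) : MvPolynomial κ K)
        = MvPolynomial.C (D q0 / q0) * MvPolynomial.C q0 := by
      rw [← map_mul, div_mul_cancel₀ _ hq00]
    rw [Derivation.leibniz, smul_eq_mul, smul_eq_mul, dc_C, h13]
    linear_combination (MvPolynomial.C q0) * h12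
  have h14 := congrArg al h10
  have h15 := congrArg al h11
  simp only [map_mul, map_pow, map_add, map_natCast] at h14 h15 hder hN hQQ ⊢
  have hsc : al (MvPolynomial.C (algebraMap ℂ K (s0 * a - e)) : MvPolynomial κ K)
      = algebraMap ℂ B s0 * a - e := by
    rw [map_sub (algebraMap ℂ K), map_mul (algebraMap ℂ K), map_natCast, map_natCast,
      map_sub (MvPolynomial.C : K →+* MvPolynomial κ K),
      map_mul (MvPolynomial.C : K →+* MvPolynomial κ K), map_natCast, map_natCast, map_sub al,
      map_mul al, map_natCast, map_natCast, halg]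
  rw [hsc, ← halg]
  rw [← hs0, hδ] at hr
  linear_combination (al T ^ (e + 1)) * hr - (al T) * hder + r * h14
    - (algebraMap ℂ B s0 * al T ^ e * Qi * r) * h15
    - (algebraMap ℂ B s0 * (al (MvPolynomial.C (D q0 / q0)) * al T + a * al (dc D T))
        * r * al T ^ e) * hQQ
    + (e * al (dc D T) - algebraMap ℂ B s0 * (al (MvPolynomial.C (D q0 / q0)) * al T
        + a * al (dc D T))) * hN

/-- **The differential equation on an exceptional curve.** -/
theorem star (h : MP) (f : Option κ → MP) (a : ℕ) (c : κ → ℂ)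
    (H : MvPolynomial (Fin 2 ⊕ κ) ℂ) (hF : FF h f a ≠ 0)
    (ξ : Fin 2 → MP) (Pt : Fin 2 → ℂ) (hξ : ∀ i, res0 (ξ i) = Polynomial.C (Pt i))
    (n : ℕ) (hn : 1 ≤ n) (Jp : MP) (hJ : jac ξ = MvPolynomial.X 0 ^ (n - 1) * Jp)
    (b0 c0 : ℕ) (Hh : MP) (G : Option κ → MP)
    (hh : MvPolynomial.aeval ξ h = MvPolynomial.X 0 ^ b0 * Hh)
    (hf : ∀ j, MvPolynomial.aeval ξ (fc c f j) = MvPolynomial.X 0 ^ c0 * G j)
    (A : ℕ) (hA : A = b0 + a * c0) (hA1 : 1 ≤ A) (hE : Ev H (FF h f a) (-(n : ℂ) / A))
    (D : Derivation ℂ K K) (x : K) (hDx : D x = 1)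
    (hJx : Polynomial.aeval x (res0 Jp) ≠ 0) (hHx : Polynomial.aeval x (res0 Hh) ≠ 0)
    (g : Option κ → K) (hg : ∀ j, g j = Polynomial.aeval x (res0 (G j)))
    (j0 : Option κ) (hGx : g j0 ≠ 0) :
    ∃ (N : MvPolynomial κ K) (e : ℕ),
      TT g j0 * dc D N
        + MvPolynomial.C (algebraMap ℂ K (-(n : ℂ) / A * a - e)) * dc D (TT g j0) * N
        + MvPolynomial.C (algebraMap ℂ K (-(n : ℂ) / A) *
            (D (Polynomial.aeval x (res0 Hh) * g j0 ^ a)
              / (Polynomial.aeval x (res0 Hh) * g j0 ^ a))) * TT g j0 * N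
        = MvPolynomial.C (Polynomial.aeval x (res0 Jp))
          * MvPolynomial.map (algebraMap ℂ K) (eta c Pt H) * TT g j0 ^ (e + 1) :=
  star_aux h f a c H hF ξ Pt hξ n hn Jp hJ b0 c0 Hh G hh hf A hA hA1 hE D x hDx hJx hHx g hg
    j0 hGx (TT g j0) rfl (Localization.Away (TT g j0))

end Star

end Pool.Agent.N103.V
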